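import Pool.Agent.H77.KN.Ff

/-!
# Row An1A (part of An1) (MP_72793b): the active case of the analytic inequality (AM-GM)

`an_piece`. Let `A₁ = π D² - α`, `A₂ = α`, `A₃ = w - α`, all in `(0,1)`, `b = a + c - 1`,
`Q = A₁ + A₂ + A₃ + 2 q √w D + κ D² = π D² + w - α + 2 q √w D + κ D²`.
(1) `ff A₁ + ff A₂ + ff A₃ + 2 q √w D + κ D² = Q - 3 - log A₁ - log A₂ - log A₃`.
(2) `a A₁ + b A₂ + c A₃ = a π D² + c w - α ≤ Q` by `hq` (`b - a - c = -1`), so `Q > 0`.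
(3) AM-GM: `(a A₁)(b A₂)(c A₃) ≤ ((a A₁ + b A₂ + c A₃)/3)^3 ≤ (Q/3)^3` (three nonnegative reals: `Real.inner_le_nnorm_mul_nnorm` is not needed,
    e.g. `nlinarith [sq_nonneg (x-y), ..]` or `Real.geom_mean_le_arith_mean3_weighted`).
    With `habc`: `28.11 A₁ A₂ A₃ ≤ (1+φ) (Q/3)^3`.
(4) `Q - 3 ≥ 3 log (Q/3)` (`Real.log_le_sub_one_of_pos` for `Q/3`), so the total is
    `≥ log (1+φ) + 3 log (Q/3) - log A₁ - log A₂ - log A₃ = log ((1+φ)(Q/3)^3/(A₁A₂A₃)) ≥ log 28.11`.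

`an_active_A` (φ = 3/8, q = 1.7724, κ = 2.423, `2.516 D² ≤ w`): put `s = √w / D ≥ √2.516 > 1.586`, divide `hq` by `D²`:
`(c-1) s² - 2 q s + (a-1) π - κ ≤ 0`. Take `(a, c) =` `(2.41, 2.3)` for `1.586 ≤ s ≤ 1.8`, `(2.85, 1.91)` for `1.8 ≤ s ≤ 2.1`,
`(3.11, 1.72)` for `2.1 ≤ s ≤ 2.8`, `(4.27, 1.13)` for `2.8 ≤ s ≤ 6`, `(5.37, 0.82)` for `s ≥ 3.5`; use `π < 3.1416` and for `s₀ ≤ s ≤ s₁`
`nlinarith [mul_nonneg (s - s₀ ≥ 0) (s₁ - s ≥ 0)]`. (`habc` is `norm_num`.)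
`an_active_B` (φ = 1/4, κ = 2.663, `w ≤ 2.516 D²`): `(a,c) = (1.75, 3.25)`, `0 ≤ s ≤ 1.5863`.
`an_active_C` (φ = 0, κ = 3.1415, `w ≤ 0.86 D²`): `(a,c) = (1, 5.54)`, `0 ≤ s ≤ 0.93`.
-/

namespace Pool.Agent.H77.KN

open MeasureTheory Finset

theorem An1A_amgm {x y z : ℝ} (hx : 0 ≤ x) (hy : 0 ≤ y) (hz : 0 ≤ z) :
    x * y * z ≤ ((x + y + z) / 3) ^ 3 := by
  nlinarith [mul_nonneg hx (sq_nonneg (y - z)), mul_nonneg hy (sq_nonneg (x - z)),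
    mul_nonneg hz (sq_nonneg (x - y)),
    mul_nonneg (add_nonneg (add_nonneg hx hy) hz) (add_nonneg (add_nonneg (sq_nonneg (x - y))
      (sq_nonneg (y - z))) (sq_nonneg (x - z)))]

theorem an_piece {D w α φ q κ a c : ℝ} (hD : 0 < D) (hα : 0 < α) (hα1 : α < 1)
    (h1 : 0 < Real.pi * D ^ 2 - α) (h1' : Real.pi * D ^ 2 - α < 1)
    (h3 : 0 < w - α) (h3' : w - α < 1) (hφ : 0 ≤ φ) (ha : 0 < a) (hc : 0 < c) (hb : 0 < a + c - 1)
    (habc : 28.11 ≤ (1 + φ) * (a * (a + c - 1) * c))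
    (hq : (c - 1) * w + (a - 1) * Real.pi * D ^ 2 ≤ 2 * q * √w * D + κ * D ^ 2) :
    Real.log 28.11 ≤ Real.log (1 + φ) + ff (Real.pi * D ^ 2 - α) + ff α + ff (w - α)
      + 2 * q * √w * D + κ * D ^ 2 := by
  have hff : ∀ A : ℝ, A < 1 → ff A = A - 1 - Real.log A := fun A hA => by
    unfold ff
    rw [if_pos hA]
  rw [hff _ h1', hff _ hα1, hff _ h3']
  obtain ⟨A, hA⟩ : ∃ A, A = Real.pi * D ^ 2 - α := ⟨_, rfl⟩
  obtain ⟨B, hB⟩ : ∃ B, B = w - α := ⟨_, rfl⟩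
  obtain ⟨T, hT⟩ : ∃ T, T = 2 * q * √w * D + κ * D ^ 2 := ⟨_, rfl⟩
  rw [← hA] at h1 h1' ⊢
  rw [← hB] at h3 h3' ⊢
  rw [← hT] at hq
  have hq' : a * A + (a + c - 1) * α + c * B ≤ A + α + B + T := by
    rw [hA, hB]
    nlinarith [hq]
  set Q := A + α + B + T with hQ
  have hQ0 : 0 < Q := lt_of_lt_of_le (by positivity) hq'
  have h5 : (a * A) * ((a + c - 1) * α) * (c * B) ≤ (Q / 3) ^ 3 := by
    refine (An1A_amgm (by positivity) (by positivity) (by positivity)).trans ?_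
    have : 0 ≤ (a * A + (a + c - 1) * α + c * B) / 3 := by positivity
    exact pow_le_pow_left₀ this (by linarith) 3
  have h6 : 28.11 * (A * α * B) ≤ (1 + φ) * (Q / 3) ^ 3 := by
    have hABB : 0 < A * α * B := by positivity
    calc 28.11 * (A * α * B) ≤ ((1 + φ) * (a * (a + c - 1) * c)) * (A * α * B) :=
          mul_le_mul_of_nonneg_right habc hABB.le
      _ = (1 + φ) * ((a * A) * ((a + c - 1) * α) * (c * B)) := by ring
      _ ≤ (1 + φ) * (Q / 3) ^ 3 := mul_le_mul_of_nonneg_left h5 (by linarith)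
  have h7 := Real.log_le_log (by positivity) h6
  have h281 : (0 : ℝ) < 28.11 := by norm_num
  rw [Real.log_mul h281.ne' (by positivity), Real.log_mul (by positivity) h3.ne',
    Real.log_mul h1.ne' hα.ne', Real.log_mul (by positivity) (by positivity), Real.log_pow] at h7
  have h8 := Real.log_le_sub_one_of_pos (show 0 < Q / 3 by positivity)
  push_cast at h7
  linarith

end Pool.Agent.H77.KN
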