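import Pool.Agent.H77.KN.An1A

/-!
# Row An1B (part of An1) (MP_72793b): the active case of the analytic inequality (AM-GM)

`an_piece`. Let `A₁ = π D² - α`, `A₂ = α`, `A₃ = w - α`, all in `(0,1)`, `b = a + c - 1`,
`Q = A₁ + A₂ + A₃ + 2 q √w D + κ D² = π D² + w - α + 2 q √w D + κ D²`.
(1) `ff A₁ + ff A₂ + ff A₃ + 2 q √w D + κ D² = Q - 3 - log A₁ - log A₂ - log A₃`.
(2) `a A₁ + b A₂ + c A₃ = a π D² + c w - α ≤ Q` by `hq` (`b - a - c = -1`), so `Q > 0`.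
(3) AM-GM: `(a A₁)(b A₂)(c A₃) ≤ ((a A₁ + b A₂ + c A₃)/3)^3 ≤ (Q/3)^3` (three nonnegative reals: `Real.inner_le_nnorm_mul_nnorm` is not needed,
    e.g. `nlinarith [sq_nonneg (x-y), ..]` or `Real.geom_mean_le_arith_mean3_weighted`).
    With `habc`: `28.11 A₁ A₂ A₃ ≤ (1+φ) (Q/3)^3`.
(4) `Q - 3 ≥ 3 log (Q/3)` (`Real.log_le_sub_one_of_pos` for `Q/3`), so the total is
    `≥ log (1+φ) + 3 log (Q/3) - log A₁ - log A₂ - log A₃ = log ((1+φ)(Q/3)^3/(A₁A₂A₃)) ≥ log 28.11`.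

`an_active_A` (φ = 3/8, q = 1.7724, κ = 2.423, `2.516 D² ≤ w`): put `s = √w / D ≥ √2.516 > 1.586`, divide `hq` by `D²`:
`(c-1) s² - 2 q s + (a-1) π - κ ≤ 0`. Take `(a, c) =` `(2.41, 2.3)` for `1.586 ≤ s ≤ 1.8`, `(2.85, 1.91)` for `1.8 ≤ s ≤ 2.1`,
`(3.11, 1.72)` for `2.1 ≤ s ≤ 2.8`, `(4.27, 1.13)` for `2.8 ≤ s ≤ 6`, `(5.37, 0.82)` for `s ≥ 3.5`; use `π < 3.1416` and for `s₀ ≤ s ≤ s₁`
`nlinarith [mul_nonneg (s - s₀ ≥ 0) (s₁ - s ≥ 0)]`. (`habc` is `norm_num`.)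
`an_active_B` (φ = 1/4, κ = 2.663, `w ≤ 2.516 D²`): `(a,c) = (1.75, 3.25)`, `0 ≤ s ≤ 1.5863`.
`an_active_C` (φ = 0, κ = 3.1415, `w ≤ 0.86 D²`): `(a,c) = (1, 5.54)`, `0 ≤ s ≤ 0.93`.
-/

namespace Pool.Agent.H77.KN

open MeasureTheory Finset

theorem An1B_piece {D w α φ q κ a c s₀ s₁ : ℝ} (hD : 0 < D) (hα : 0 < α) (hα1 : α < 1)
    (h1 : 0 < Real.pi * D ^ 2 - α) (h1' : Real.pi * D ^ 2 - α < 1)
    (h3 : 0 < w - α) (h3' : w - α < 1) (hφ : 0 ≤ φ) (ha : 1 ≤ a) (hc : 0 < c)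
    (habc : 28.11 ≤ (1 + φ) * (a * (a + c - 1) * c))
    (hs₀ : s₀ * D ≤ √w) (hs₁ : √w ≤ s₁ * D)
    (hc1 : 1 ≤ c)
    (he0 : (c - 1) * s₀ ^ 2 + (a - 1) * 3.1416 ≤ 2 * q * s₀ + κ)
    (he1 : (c - 1) * s₁ ^ 2 + (a - 1) * 3.1416 ≤ 2 * q * s₁ + κ) :
    Real.log 28.11 ≤ Real.log (1 + φ) + ff (Real.pi * D ^ 2 - α) + ff α + ff (w - α)
      + 2 * q * √w * D + κ * D ^ 2 := by
  refine an_piece (a := a) (c := c) hD hα hα1 h1 h1' h3 h3' hφ (by linarith) hc (by linarith) habc ?_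
  have hw0 : 0 ≤ w := by linarith
  have hS : √w ^ 2 = w := Real.sq_sqrt hw0
  set S := √w with hSdef
  have hpi : Real.pi < 3.1416 := Real.pi_lt_d4
  have hD2 : 0 < D ^ 2 := by positivity
  have e1 : (a - 1) * Real.pi * D ^ 2 ≤ (a - 1) * 3.1416 * D ^ 2 := by
    apply mul_le_mul_of_nonneg_right _ hD2.le
    apply mul_le_mul_of_nonneg_left hpi.le (by linarith)
  have e2 : (c - 1) * S ^ 2 ≤ (c - 1) * ((s₀ + s₁) * S * D - s₀ * s₁ * D ^ 2) := by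
    apply mul_le_mul_of_nonneg_left _ (by linarith)
    nlinarith [mul_nonneg (sub_nonneg.2 hs₀) (sub_nonneg.2 hs₁)]
  rw [← hS]
  rcases eq_or_lt_of_le (show s₀ ≤ s₁ by nlinarith) with h | h
  · have hSe : S = s₀ * D := le_antisymm (by rw [h]; exact hs₁) hs₀
    have := mul_le_mul_of_nonneg_right he0 hD2.le
    rw [hSe]
    linarith [e1, this]
  · have f0 : 0 ≤ s₁ * D - S := sub_nonneg.2 hs₁
    have f1 : 0 ≤ S - s₀ * D := sub_nonneg.2 hs₀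
    have g0 := mul_le_mul_of_nonneg_left he0 (mul_nonneg f0 hD.le)
    have g1 := mul_le_mul_of_nonneg_left he1 (mul_nonneg f1 hD.le)
    have hd : 0 < s₁ - s₀ := sub_pos.2 h
    refine le_of_mul_le_mul_left ?_ hd
    have e1' := mul_le_mul_of_nonneg_left e1 hd.le
    have e2' := mul_le_mul_of_nonneg_left e2 hd.le
    nlinarith

theorem an_active_A {D w α : ℝ} (hD : 0 < D) (hα : 0 < α) (hα1 : α < 1)
    (h1 : 0 < Real.pi * D ^ 2 - α) (h1' : Real.pi * D ^ 2 - α < 1)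
    (h3 : 0 < w - α) (h3' : w - α < 1) (hw : 2.516 * D ^ 2 ≤ w) :
    Real.log 28.11 ≤ Real.log (1 + 3 / 8) + ff (Real.pi * D ^ 2 - α) + ff α + ff (w - α)
      + 2 * 1.7724 * √w * D + 2.423 * D ^ 2 := by
  have hw0 : 0 ≤ w := by linarith
  have hS : √w ^ 2 = w := Real.sq_sqrt hw0
  have hS0 : 0 ≤ √w := Real.sqrt_nonneg w
  have hlow : 1.586 * D ≤ √w := by
    by_contra hcon
    push Not at hcon
    nlinarith
  rcases le_total (√w) (1.8 * D) with ha | ha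
  · exact An1B_piece (a := 2.41) (c := 2.3) (s₀ := 1.586) (s₁ := 1.8) hD hα hα1 h1 h1' h3 h3' (by norm_num) (by norm_num)
      (by norm_num) (by norm_num) hlow ha (by norm_num) (by norm_num) (by norm_num)
  rcases le_total (√w) (2.1 * D) with hb | hb
  · exact An1B_piece (a := 2.85) (c := 1.91) (s₀ := 1.8) (s₁ := 2.1) hD hα hα1 h1 h1' h3 h3' (by norm_num) (by norm_num)
      (by norm_num) (by norm_num) ha hb (by norm_num) (by norm_num) (by norm_num)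
  rcases le_total (√w) (2.8 * D) with hc | hc
  · exact An1B_piece (a := 3.11) (c := 1.72) (s₀ := 2.1) (s₁ := 2.8) hD hα hα1 h1 h1' h3 h3' (by norm_num) (by norm_num)
      (by norm_num) (by norm_num) hb hc (by norm_num) (by norm_num) (by norm_num)
  rcases le_total (√w) (6 * D) with hd | hd
  · exact An1B_piece (a := 4.27) (c := 1.13) (s₀ := 2.8) (s₁ := 6) hD hα hα1 h1 h1' h3 h3' (by norm_num) (by norm_num)
      (by norm_num) (by norm_num) hc hd (by norm_num) (by norm_num) (by norm_num)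
  · refine an_piece (a := 5.37) (c := 0.82) hD hα hα1 h1 h1' h3 h3' (by norm_num) (by norm_num) (by norm_num)
      (by norm_num) (by norm_num) ?_
    have hpi : Real.pi < 3.1416 := Real.pi_lt_d4
    have hD2 : 0 < D ^ 2 := by positivity
    have e1 : Real.pi * D ^ 2 ≤ 3.1416 * D ^ 2 := mul_le_mul_of_nonneg_right hpi.le hD2.le
    have e2 : 6 * D * D ≤ √w * D := mul_le_mul_of_nonneg_right hd hD.le
    nlinarith

theorem an_active_B {D w α : ℝ} (hD : 0 < D) (hα : 0 < α) (hα1 : α < 1)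
    (h1 : 0 < Real.pi * D ^ 2 - α) (h1' : Real.pi * D ^ 2 - α < 1)
    (h3 : 0 < w - α) (h3' : w - α < 1) (hw : w ≤ 2.516 * D ^ 2) :
    Real.log 28.11 ≤ Real.log (1 + 1 / 4) + ff (Real.pi * D ^ 2 - α) + ff α + ff (w - α)
      + 2 * 1.7724 * √w * D + 2.663 * D ^ 2 := by
  have hw0 : 0 ≤ w := by linarith
  have hS : √w ^ 2 = w := Real.sq_sqrt hw0
  have hS0 : 0 ≤ √w := Real.sqrt_nonneg w
  have hup : √w ≤ 1.5863 * D := by
    by_contra hcon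
    push Not at hcon
    nlinarith
  exact An1B_piece (a := 1.75) (c := 3.25) (s₀ := 0) (s₁ := 1.5863) hD hα hα1 h1 h1' h3 h3' (by norm_num) (by norm_num)
      (by norm_num) (by norm_num) (by simp) hup (by norm_num) (by norm_num) (by norm_num)

theorem an_active_C {D w α : ℝ} (hD : 0 < D) (hα : 0 < α) (hα1 : α < 1)
    (h1 : 0 < Real.pi * D ^ 2 - α) (h1' : Real.pi * D ^ 2 - α < 1)
    (h3 : 0 < w - α) (h3' : w - α < 1) (hw : w ≤ 0.86 * D ^ 2) :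
    Real.log 28.11 ≤ ff (Real.pi * D ^ 2 - α) + ff α + ff (w - α)
      + 2 * 1.7724 * √w * D + 3.1415 * D ^ 2 := by
  have hw0 : 0 ≤ w := by linarith
  have hS : √w ^ 2 = w := Real.sq_sqrt hw0
  have hS0 : 0 ≤ √w := Real.sqrt_nonneg w
  have hup : √w ≤ 0.93 * D := by
    by_contra hcon
    push Not at hcon
    nlinarith
  have := An1B_piece (φ := 0) (q := 1.7724) (κ := 3.1415) (a := 1) (c := 5.54) (s₀ := 0) (s₁ := 0.93) hD hα hα1 h1 h1' h3 h3' (by norm_num) (by norm_num)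
      (by norm_num) (by norm_num) (by simp) hup (by norm_num) (by norm_num) (by norm_num)
  simpa using this

end Pool.Agent.H77.KN
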