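import Pool.Agent.H77.KN.Ff

/-!
# Row An2A (part of An2) (MP_72793b): the inactive cases, part A (`3/8` of the directions)

Goal in all cases: total `≥ 3.34 ≥ log 28.11` (prove `log 28.11 ≤ 3.34` once: `28.11 ≤ exp 3.34`; e.g. `exp 3.34 = exp 1 ^ 3 * exp 0.34`,
`exp 1 > 2.718281828`, `exp 0.34 ≥ 1 + 0.34 + 0.34²/2 + 0.34³/6 > 1.4043`, product `> 28.2`).
`log (11/8) ≥ 0.318` (`exp 0.318 ≤ 11/8`; or `Real.log_two_gt_d9` and `log (11/8) = ...`, e.g. `1 - x⁻¹ ≤ log x` is too weak: use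
`Real.abs_log_sub_add_sum_range_le` or `log (11/8) = - log (8/11)` and the series, or `Real.exp_bound'`). `q = 1.7724`.

`inactive_A3` : `α ≤ w/2`, `1 ≤ w - α`, `y + α ≤ π D²`, `y > 0`.
 (i) `α ≥ 1`: `w ≥ 2`, `π D² > 1` so `D ≥ 0.5641`; `2 q √2 D + 2.423 D² ≥ 2.827 + 0.77 = 3.59`.
 (ii) `0.1 ≤ α < 1`: `w ≥ 1.1`, `√w ≥ 1.0488`, `2 q √w D ≥ 3.7177 D`.
   If `π D² ≤ 2`: `ff_two` with `λ = 2/(π D²)`: `ff y + ff α ≥ 2 log (2/(π D²)) - 2 + π D²`, and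
   `log (2/(π D²)) = log (2/(π D₀²)) - 2 log (D/D₀) ≥ log (2/(π D₀²)) - 2 (D/D₀ - 1)` with `D₀ = 0.457`: `2/(π D₀²) = 3.0483..`, `log ≥ 1.1145`
   (`log 3.048 ≥ 1.1144`). Total `≥ 0.318 + 2*1.1144 - 2 + 4 + (3.7177 - 8.7528) D + (3.1415 + 2.423) D²
   = 4.5468 - 5.0351 D + 5.5645 D² ≥ 3.407`.
   If `π D² > 2`: `D ≥ 0.797`, `3.7177 D + 2.423 D² ≥ 4.5`.
 (iii) `α < 0.1`: `ff α ≥ ff 0.1 = log 10 - 0.9 ≥ 1.402`, `w ≥ 1`, `2 q √w D ≥ 3.5448 D`.
   If `π D² ≤ 1`: `ff y ≥ log (1/(π D²)) - 1 + π D²` (`ff_line`, `y ≤ π D²`), with `D₀ = 0.294`: `1/(π D₀²) = 3.6827`, `log ≥ 1.3036`: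
   total `≥ 0.318 + 1.402 + 1.3035 - 1 + 2 + (3.5448 - 6.8028) D + 5.5645 D² = 4.0235 - 3.258 D + 5.5645 D² ≥ 3.54`.
   If `π D² > 1`: `D ≥ 0.5641`: `0.318 + 1.402 + 2 + 0.77 > 3.34`.
`inactive_A1` : `w - α < 1`, `α ≤ w/2`, `1 ≤ π D² - α`: `D² ≥ 1/π`, `D ≥ 0.56418`, `2 q √w D ≥ 1.9998 √w`, `2.423 D² ≥ 0.7712`;
   `ff α + ff (w - α) ≥ 2 log (2/w) - 2 + w` (`ff_two`, `λ = 2/w ≥ 1` as `w < 2`); `log (2/w) = log 2 - 2 log √w ≥ log 2 - 2 (√w - 1)`:
   total `≥ 0.318 + 0.7712 + 1.3862 - 2 + 4 - 4 √w + w + 1.9998 √w = 4.4754 - 2.0002 √w + w ≥ 3.47`.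
-/

namespace Pool.Agent.H77.KN

open MeasureTheory Finset

theorem An2A_exp_up {x B : ℝ} (h0 : 0 ≤ x) (h1 : x ≤ 1)
    (hB : 1 + x + x ^ 2 / 2 + x ^ 3 / 6 + x ^ 4 * 5 / 96 ≤ B) : Real.exp x ≤ B := by
  have h := Real.exp_bound' (n := 4) h0 h1 (by norm_num)
  refine h.trans (le_trans (le_of_eq ?_) hB)
  simp only [Finset.sum_range_succ, Finset.sum_range_zero, Nat.factorial]
  push_cast
  ring

theorem An2A_log_up {x A B : ℝ} (n : ℕ) (h0 : 0 ≤ x) (h1 : x ≤ 1) (hA : 0 < A)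
    (hB : (1 + x + x ^ 2 / 2 + x ^ 3 / 6 + x ^ 4 * 5 / 96) * (2.7182818286 : ℝ) ^ n ≤ A)
    (hBB : B ≤ n + x) : B ≤ Real.log A := by
  rw [Real.le_log_iff_exp_le hA]
  have e1 : Real.exp B ≤ Real.exp (n + x) := Real.exp_le_exp.mpr hBB
  have e2 : Real.exp ((n : ℝ) + x) = Real.exp x * Real.exp 1 ^ n := by
    rw [Real.exp_add, ← Real.exp_nat_mul, mul_comm, mul_one]
  have e3 : Real.exp x ≤ 1 + x + x ^ 2 / 2 + x ^ 3 / 6 + x ^ 4 * 5 / 96 :=
    An2A_exp_up h0 h1 le_rfl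
  have e4 : Real.exp 1 ^ n ≤ (2.7182818286 : ℝ) ^ n :=
    pow_le_pow_left₀ (Real.exp_pos 1).le (Real.exp_one_lt_d9.le) n
  have e5 : Real.exp x * Real.exp 1 ^ n ≤
      (1 + x + x ^ 2 / 2 + x ^ 3 / 6 + x ^ 4 * 5 / 96) * (2.7182818286 : ℝ) ^ n := by
    apply mul_le_mul e3 e4 (by positivity) (by positivity)
  linarith [e1, e2, e5]

theorem An2A_log118 : (0.318 : ℝ) ≤ Real.log (1 + 3 / 8) := by
  apply An2A_log_up (x := 0.318) 0 <;> norm_num

theorem An2A_log3048 : (1.1144 : ℝ) ≤ Real.log 3.048 := by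
  apply An2A_log_up (x := 0.1144) 1 <;> norm_num

theorem An2A_log368 : (1.3 : ℝ) ≤ Real.log 3.68 := by
  apply An2A_log_up (x := 0.3) 1 <;> norm_num

theorem An2A_log10 : (2.302 : ℝ) ≤ Real.log 10 := by
  apply An2A_log_up (x := 0.302) 2 <;> norm_num

theorem log2811_le : Real.log 28.11 ≤ 3.34 := by
  rw [Real.log_le_iff_le_exp (by norm_num)]
  have h := Real.sum_le_exp_of_nonneg (x := (0.34 : ℝ)) (by norm_num) 4
  have h2 : (1.4043 : ℝ) ≤ Real.exp 0.34 := by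
    refine le_trans ?_ h
    simp only [Finset.sum_range_succ, Finset.sum_range_zero, Nat.factorial]
    norm_num
  have h1 : (2.7182818283 : ℝ) ^ 3 ≤ Real.exp 1 ^ 3 :=
    pow_le_pow_left₀ (by norm_num) Real.exp_one_gt_d9.le 3
  have e2 : Real.exp (3.34 : ℝ) = Real.exp 0.34 * Real.exp 1 ^ 3 := by
    rw [← Real.exp_nat_mul, ← Real.exp_add]
    congr 1
    norm_num
  rw [e2]
  calc (28.11 : ℝ) ≤ 1.4043 * (2.7182818283 : ℝ) ^ 3 := by norm_num
    _ ≤ _ := mul_le_mul h2 h1 (by norm_num) (Real.exp_pos _).le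

/-- `log (c / (π D²))` against its tangent in `D` at `D₀`. -/
theorem An2A_tangent {D D0 c M L : ℝ} (hD : 0 < D) (hD0 : 0 < D0) (hc : 0 < c) (hM : 0 < M)
    (hL : L ≤ Real.log M) (hMc : M * (3.1416 * D0 ^ 2) ≤ c) :
    L - 2 * (D / D0 - 1) ≤ Real.log (c / (Real.pi * D ^ 2)) := by
  have hpi := Real.pi_pos
  have hpi2 : Real.pi ≤ 3.1416 := Real.pi_lt_d4.le
  have h1 : c / (Real.pi * D ^ 2) = c / (Real.pi * D0 ^ 2) * (D0 / D) ^ 2 := by
    field_simp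
  have h2 : M ≤ c / (Real.pi * D0 ^ 2) := by
    rw [le_div_iff₀ (by positivity)]
    refine le_trans ?_ hMc
    have : Real.pi * D0 ^ 2 ≤ 3.1416 * D0 ^ 2 := mul_le_mul_of_nonneg_right hpi2 (by positivity)
    exact mul_le_mul_of_nonneg_left this hM.le
  have h3 : Real.log M ≤ Real.log (c / (Real.pi * D0 ^ 2)) := Real.log_le_log hM h2
  have h4 : Real.log (D / D0) ≤ D / D0 - 1 := Real.log_le_sub_one_of_pos (by positivity)
  have h5 : Real.log (D0 / D) = - Real.log (D / D0) := by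
    rw [← Real.log_inv, inv_div]
  rw [h1, Real.log_mul (by positivity) (by positivity), Real.log_pow, h5]
  push_cast
  linarith

theorem inactive_A3 {D w α y : ℝ} (hD : 0 < D) (hα : 0 < α) (hαw : α ≤ w / 2) (hy : 0 < y)
    (hyD : y + α ≤ Real.pi * D ^ 2) (h3 : 1 ≤ w - α) :
    3.34 ≤ Real.log (1 + 3 / 8) + ff y + ff α + ff (w - α) + 2 * 1.7724 * √w * D + 2.423 * D ^ 2 := by
  have hpi := Real.pi_pos
  have hpi1 : 3.1415 < Real.pi := Real.pi_gt_d4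
  have hpi2 : Real.pi < 3.1416 := Real.pi_lt_d4
  have hlog := An2A_log118
  have hfy := ff_nonneg hy
  have hfa := ff_nonneg hα
  have hfw : 0 ≤ ff (w - α) := ff_nonneg (by linarith)
  have hD2 : 0 < D ^ 2 := by positivity
  have hw1 : 1 ≤ √w := by
    rw [Real.one_le_sqrt]; linarith
  -- `D` from below when `π D² ≥ 1`
  have hDlow : 1 ≤ Real.pi * D ^ 2 → 0.564 ≤ D ∧ 0.318 ≤ D ^ 2 := by
    intro h
    have h1 : 1 ≤ 3.1416 * D ^ 2 := by nlinarith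
    have h2 : 0.3183 ≤ D ^ 2 := by linarith
    refine ⟨?_, by linarith⟩
    apply le_of_lt
    apply lt_of_pow_lt_pow_left₀ 2 hD.le
    norm_num
    linarith
  rcases le_or_gt 1 α with ha1 | ha1
  · -- (i)
    have hw2 : 1.414 ≤ √w := by
      apply Real.le_sqrt_of_sq_le
      norm_num
      linarith
    obtain ⟨hd1, hd2⟩ := hDlow (by linarith)
    have hm : 1.414 * 0.564 ≤ √w * D := mul_le_mul hw2 hd1 (by norm_num) (by linarith)
    nlinarith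
  rcases le_or_gt 0.1 α with ha2 | ha2
  · -- (ii)
    have hw2 : 1.0488 ≤ √w := by
      apply Real.le_sqrt_of_sq_le
      norm_num
      linarith
    have hm : 1.0488 * D ≤ √w * D := mul_le_mul_of_nonneg_right hw2 hD.le
    rcases le_or_gt (Real.pi * D ^ 2) 2 with hp | hp
    · have hl : 1 ≤ 2 / (Real.pi * D ^ 2) := by
        rw [le_div_iff₀ (by positivity)]; linarith
      have h2 := ff_two hy hα hyD hl
      have h4 := An2A_tangent (D := D) (D0 := 0.457) (c := 2) (M := 3.048) (L := 1.1144) hD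
        (by norm_num) (by norm_num) (by norm_num) An2A_log3048 (by norm_num)
      have h5 : (2 / (Real.pi * D ^ 2) - 1) * (Real.pi * D ^ 2) = 2 - Real.pi * D ^ 2 := by
        field_simp
      rw [h5] at h2
      have h6 : D / 0.457 ≤ 2.1882 * D := by
        rw [div_le_iff₀ (by norm_num)]; nlinarith
      have h7 : 3.1415 * D ^ 2 ≤ Real.pi * D ^ 2 := mul_le_mul_of_nonneg_right hpi1.le hD2.le
      nlinarith [sq_nonneg (D - 0.4524)]
    · have h1 : 2 ≤ 3.1416 * D ^ 2 := by nlinarith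
      have h2 : 0.797 ≤ D := by
        apply le_of_lt
        apply lt_of_pow_lt_pow_left₀ 2 hD.le
        norm_num
        linarith
      nlinarith
  · -- (iii)
    have hm : 1 * D ≤ √w * D := mul_le_mul_of_nonneg_right hw1 hD.le
    have hfa2 := ff_line (A := α) (l := 10) hα (by norm_num)
    have hl10 := An2A_log10
    have hfa3 : 1.402 ≤ ff α := by linarith
    rcases le_or_gt (Real.pi * D ^ 2) 1 with hp | hp
    · have hl : 1 ≤ 1 / (Real.pi * D ^ 2) := by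
        rw [le_div_iff₀ (by positivity)]; linarith
      have h2 := ff_line hy hl
      have h4 := An2A_tangent (D := D) (D0 := 0.294) (c := 1) (M := 3.68) (L := 1.3) hD
        (by norm_num) (by norm_num) (by norm_num) An2A_log368 (by norm_num)
      have h5 : (1 / (Real.pi * D ^ 2) - 1) * y ≤ (1 / (Real.pi * D ^ 2) - 1) * (Real.pi * D ^ 2) := by
        apply mul_le_mul_of_nonneg_left _ (by linarith)
        linarith
      have h5' : (1 / (Real.pi * D ^ 2) - 1) * (Real.pi * D ^ 2) = 1 - Real.pi * D ^ 2 := by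
        field_simp
      have h6 : D / 0.294 ≤ 3.4014 * D := by
        rw [div_le_iff₀ (by norm_num)]; nlinarith
      have h7 : 3.1415 * D ^ 2 ≤ Real.pi * D ^ 2 := mul_le_mul_of_nonneg_right hpi1.le hD2.le
      nlinarith [sq_nonneg (D - 0.293)]
    · obtain ⟨hd1, hd2⟩ := hDlow hp.le
      nlinarith

end Pool.Agent.H77.KN
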