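import Pool.Agent.H77.KN.Ff

/-!
# Row An2B (part of An2) (MP_72793b): the inactive cases, part A (`3/8` of the directions)

Goal in all cases: total `≥ 3.34 ≥ log 28.11` (prove `log 28.11 ≤ 3.34` once: `28.11 ≤ exp 3.34`; e.g. `exp 3.34 = exp 1 ^ 3 * exp 0.34`,
`exp 1 > 2.718281828`, `exp 0.34 ≥ 1 + 0.34 + 0.34²/2 + 0.34³/6 > 1.4043`, product `> 28.2`).
`log (11/8) ≥ 0.318` (`exp 0.318 ≤ 11/8`; or `Real.log_two_gt_d9` and `log (11/8) = ...`, e.g. `1 - x⁻¹ ≤ log x` is too weak: use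
`Real.abs_log_sub_add_sum_range_le` or `log (11/8) = - log (8/11)` and the series, or `Real.exp_bound'`). `q = 1.7724`.

`inactive_A3` : `α ≤ w/2`, `1 ≤ w - α`, `y + α ≤ π D²`, `y > 0`.
 (i) `α ≥ 1`: `w ≥ 2`, `π D² > 1` so `D ≥ 0.5641`; `2 q √2 D + 2.423 D² ≥ 2.827 + 0.77 = 3.59`.
 (ii) `0.1 ≤ α < 1`: `w ≥ 1.1`, `√w ≥ 1.0488`, `2 q √w D ≥ 3.7177 D`.
   If `π D² ≤ 2`: `ff_two` with `λ = 2/(π D²)`: `ff y + ff α ≥ 2 log (2/(π D²)) - 2 + π D²`, and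
   `log (2/(π D²)) = log (2/(π D₀²)) - 2 log (D/D₀) ≥ log (2/(π D₀²)) - 2 (D/D₀ - 1)` with `D₀ = 0.457`: `2/(π D₀²) = 3.0483..`, `log ≥ 1.1145`
   (`log 3.048 ≥ 1.1144`). Total `≥ 0.318 + 2*1.1144 - 2 + 4 + (3.7177 - 8.7528) D + (3.1415 + 2.423) D²
   = 4.5468 - 5.0351 D + 5.5645 D² ≥ 3.407`.
   If `π D² > 2`: `D ≥ 0.797`, `3.7177 D + 2.423 D² ≥ 4.5`.
 (iii) `α < 0.1`: `ff α ≥ ff 0.1 = log 10 - 0.9 ≥ 1.402`, `w ≥ 1`, `2 q √w D ≥ 3.5448 D`.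
   If `π D² ≤ 1`: `ff y ≥ log (1/(π D²)) - 1 + π D²` (`ff_line`, `y ≤ π D²`), with `D₀ = 0.294`: `1/(π D₀²) = 3.6827`, `log ≥ 1.3036`:
   total `≥ 0.318 + 1.402 + 1.3035 - 1 + 2 + (3.5448 - 6.8028) D + 5.5645 D² = 4.0235 - 3.258 D + 5.5645 D² ≥ 3.54`.
   If `π D² > 1`: `D ≥ 0.5641`: `0.318 + 1.402 + 2 + 0.77 > 3.34`.
`inactive_A1` : `w - α < 1`, `α ≤ w/2`, `1 ≤ π D² - α`: `D² ≥ 1/π`, `D ≥ 0.56418`, `2 q √w D ≥ 1.9998 √w`, `2.423 D² ≥ 0.7712`;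
   `ff α + ff (w - α) ≥ 2 log (2/w) - 2 + w` (`ff_two`, `λ = 2/w ≥ 1` as `w < 2`); `log (2/w) = log 2 - 2 log √w ≥ log 2 - 2 (√w - 1)`:
   total `≥ 0.318 + 0.7712 + 1.3862 - 2 + 4 - 4 √w + w + 1.9998 √w = 4.4754 - 2.0002 √w + w ≥ 3.47`.
-/

namespace Pool.Agent.H77.KN

open MeasureTheory Finset

theorem inactive_A1 {D w α y : ℝ} (hD : 0 < D) (hα : 0 < α) (hαw : α ≤ w / 2) (hy : 0 < y)
    (h1 : 1 ≤ Real.pi * D ^ 2 - α) (h3 : w - α < 1) :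
    3.34 ≤ Real.log (1 + 3 / 8) + ff y + ff α + ff (w - α) + 2 * 1.7724 * √w * D + 2.423 * D ^ 2 := by
  have hw : 0 < w := by linarith
  have hw2 : w < 2 := by linarith
  have hwα : 0 < w - α := by linarith
  have hpi := Real.pi_lt_d4
  have hpi0 := Real.pi_pos
  have hD2 : 0.3183 ≤ D ^ 2 := by
    by_contra hcon
    push Not at hcon
    have h4 : Real.pi * D ^ 2 ≤ 3.1416 * 0.3183 :=
      mul_le_mul hpi.le hcon.le (sq_nonneg D) (by norm_num)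
    norm_num at h4
    linarith
  have hD1 : 0.5641 ≤ D := by
    by_contra hcon
    push Not at hcon
    nlinarith
  have hlog1 : (0.27 : ℝ) ≤ Real.log (1 + 3 / 8) := by
    have h4 := Real.one_sub_inv_le_log_of_pos (show (0 : ℝ) < 1 + 3 / 8 by norm_num)
    norm_num at h4 ⊢
    linarith
  have hffy := ff_nonneg hy
  have hl : 1 ≤ 2 / w := by
    rw [le_div_iff₀ hw]
    linarith
  have htwo := ff_two hα hwα (show α + (w - α) ≤ w by linarith) hl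
  have e1 : (2 / w - 1) * w = 2 - w := by
    field_simp
  rw [e1] at htwo
  have hr : 0 < √w := Real.sqrt_pos.2 hw
  have hrr : √w * √w = w := Real.mul_self_sqrt hw.le
  have hlogw : Real.log w ≤ 2 * (√w - 1) := by
    have h4 : Real.log w = 2 * Real.log (√w) := by
      rw [Real.log_sqrt hw.le]
      ring
    rw [h4]
    have h5 := Real.log_le_sub_one_of_pos hr
    linarith
  have hlog2 := Real.log_two_gt_d9
  have e2 : Real.log (2 / w) = Real.log 2 - Real.log w := Real.log_div (by norm_num) hw.ne'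
  rw [e2] at htwo
  have h6 : 2 * 1.7724 * √w * 0.5641 ≤ 2 * 1.7724 * √w * D :=
    mul_le_mul_of_nonneg_left hD1 (by positivity)
  nlinarith [sq_nonneg (√w - 1)]

end Pool.Agent.H77.KN
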