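import Pool.Agent.H77.KN.Ff

/-!
# Row An3 (MP_72793b): the inactive cases, parts B and C

`log (5/4) ≥ 0.2231`. All `ff` are `≥ 0`. `q = 1.7724`.
`inactive_B3`: `1 ≤ w - α` (so `w ≥ 1`), `w ≤ 2.516 D²`: `D² ≥ 0.3974`, `D ≥ 0.6304`: `2 q √w D + 2.663 D² ≥ 2.234 + 1.058 = 3.29`, plus `0.223` is `> 3.34`.
`inactive_B1`: `w - α < 1`, `1 ≤ π D² - α`: as in `An2`: `D² ≥ 1/π`; `2 q √w D ≥ 1.9998 √w`, `2.663 D² ≥ 0.8476`,
   `ff α + ff (w-α) ≥ 2 (log 2 - 2 (√w - 1)) - 2 + w` (`ff_two` with `λ = 2/w`): total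
   `≥ 0.223 + 0.8476 + 1.3862 + 2 - 4 √w + w + 1.9998 √w = 4.4568 - 2.0002 √w + w ≥ 3.45`.
`inactive_C3`: `1 ≤ w - α`, `w ≤ 0.86 D²`: `D² ≥ 1/0.86 > 1.16`: `3.1415 D² > 3.6`.
`inactive_C1`: `w - α < 1`, `1 ≤ π D² - α`: `3.1415 D² ≥ 0.9999`; total `≥ 0.9999 + 1.3862 + 2 - 2.0002 √w + w ≥ 3.385`.
-/

namespace Pool.Agent.H77.KN

open MeasureTheory Finset

theorem An3_log : 0.2 ≤ Real.log (1 + 1 / 4) := by
  have h := Real.one_sub_inv_le_log_of_pos (show (0 : ℝ) < 1 + 1 / 4 by norm_num)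
  norm_num at h ⊢
  linarith

theorem An3_D {D : ℝ} (hD : 0 < D) (h : 1 ≤ Real.pi * D ^ 2) : 0.3183 ≤ D ^ 2 ∧ 0.5641 ≤ D := by
  have hpi := Real.pi_lt_d6
  have h1 : 0.3183 ≤ D ^ 2 := by
    by_contra hc
    push Not at hc
    have h2 : Real.pi * D ^ 2 ≤ 3.141593 * D ^ 2 :=
      mul_le_mul_of_nonneg_right hpi.le (sq_nonneg D)
    linarith
  refine ⟨h1, ?_⟩
  by_contra hc
  push Not at hc
  nlinarith

theorem An3_two {α v w : ℝ} (hα : 0 < α) (hv : 0 < v) (hw0 : 0 < w) (hw2 : w < 2) (hs : α + v ≤ w) :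
    2 * Real.log 2 + 2 - 4 * √w + w ≤ ff α + ff v := by
  have hl : (1 : ℝ) ≤ 2 / w := by
    rw [le_div_iff₀ hw0]
    linarith
  have h1 := ff_two hα hv hs hl
  have hsp : 0 < √w := Real.sqrt_pos.2 hw0
  have h2 : Real.log w ≤ 2 * (√w - 1) := by
    have h3 : Real.log w = 2 * Real.log (√w) := by
      rw [Real.log_sqrt hw0.le]
      ring
    rw [h3]
    have h4 := Real.log_le_sub_one_of_pos hsp
    linarith
  rw [Real.log_div two_ne_zero hw0.ne'] at h1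
  have h5 : (2 / w - 1) * w = 2 - w := by
    field_simp
  rw [h5] at h1
  linarith

theorem inactive_B3 {D w α y : ℝ} (hD : 0 < D) (hα : 0 < α) (hαw : α ≤ w / 2) (hy : 0 < y)
    (hw : w ≤ 2.516 * D ^ 2) (h3 : 1 ≤ w - α) :
    3.34 ≤ Real.log (1 + 1 / 4) + ff y + ff α + ff (w - α) + 2 * 1.7724 * √w * D + 2.663 * D ^ 2 := by
  have hw1 : 1 ≤ w := by linarith
  have hs1 : 1 ≤ √w := Real.one_le_sqrt.2 hw1
  have hD2 : 0.397 ≤ D ^ 2 := by
    by_contra hc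
    push Not at hc
    linarith
  have hD1 : 0.63 ≤ D := by
    by_contra hc
    push Not at hc
    nlinarith
  have h1 := ff_nonneg hy
  have h2 := ff_nonneg hα
  have h4 : 0 < w - α := by linarith
  have h5 := ff_nonneg h4
  have h6 := An3_log
  have h7 : 0.63 ≤ √w * D := by nlinarith
  have h8 : 2 * 1.7724 * √w * D = 3.5448 * (√w * D) := by ring
  rw [h8]
  linarith

theorem inactive_B1 {D w α y : ℝ} (hD : 0 < D) (hα : 0 < α) (hαw : α ≤ w / 2) (hy : 0 < y)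
    (h1 : 1 ≤ Real.pi * D ^ 2 - α) (h3 : w - α < 1) :
    3.34 ≤ Real.log (1 + 1 / 4) + ff y + ff α + ff (w - α) + 2 * 1.7724 * √w * D + 2.663 * D ^ 2 := by
  have hw0 : 0 < w := by linarith
  have hwm : 0 < w - α := by linarith
  have hw2 : w < 2 := by linarith
  obtain ⟨hD2, hD1⟩ := An3_D hD (show 1 ≤ Real.pi * D ^ 2 by linarith)
  have h1 := ff_nonneg hy
  have h2 := An3_two hα hwm hw0 hw2 (by linarith)
  have h6 := An3_log
  have hl2 := Real.log_two_gt_d9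
  have hs0 : 0 ≤ √w := Real.sqrt_nonneg w
  have hs2 : √w * √w = w := Real.mul_self_sqrt hw0.le
  have h7 : 0.5641 * √w ≤ √w * D := by nlinarith
  have h8 : 2 * 1.7724 * √w * D = 3.5448 * (√w * D) := by ring
  have h9 : 0 ≤ (√w - 1.0002) * (√w - 1.0002) := mul_self_nonneg _
  rw [h8]
  nlinarith

theorem inactive_C3 {D w α y : ℝ} (hD : 0 < D) (hα : 0 < α) (hαw : α ≤ w / 2) (hy : 0 < y)
    (hw : w ≤ 0.86 * D ^ 2) (h3 : 1 ≤ w - α) :
    3.34 ≤ ff y + ff α + ff (w - α) + 2 * 1.7724 * √w * D + 3.1415 * D ^ 2 := by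
  have hw1 : 1 ≤ w := by linarith
  have hD2 : 1.16 ≤ D ^ 2 := by
    by_contra hc
    push Not at hc
    linarith
  have h1 := ff_nonneg hy
  have h2 := ff_nonneg hα
  have h4 : 0 < w - α := by linarith
  have h5 := ff_nonneg h4
  have h7 : 0 ≤ √w * D := mul_nonneg (Real.sqrt_nonneg w) hD.le
  have h8 : 2 * 1.7724 * √w * D = 3.5448 * (√w * D) := by ring
  rw [h8]
  linarith

theorem inactive_C1 {D w α y : ℝ} (hD : 0 < D) (hα : 0 < α) (hαw : α ≤ w / 2) (hy : 0 < y)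
    (h1 : 1 ≤ Real.pi * D ^ 2 - α) (h3 : w - α < 1) :
    3.34 ≤ ff y + ff α + ff (w - α) + 2 * 1.7724 * √w * D + 3.1415 * D ^ 2 := by
  have hw0 : 0 < w := by linarith
  have hwm : 0 < w - α := by linarith
  have hw2 : w < 2 := by linarith
  obtain ⟨hD2, hD1⟩ := An3_D hD (show 1 ≤ Real.pi * D ^ 2 by linarith)
  have h1 := ff_nonneg hy
  have h2 := An3_two hα hwm hw0 hw2 (by linarith)
  have hl2 := Real.log_two_gt_d9
  have hs0 : 0 ≤ √w := Real.sqrt_nonneg w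
  have hs2 : √w * √w = w := Real.mul_self_sqrt hw0.le
  have h7 : 0.5641 * √w ≤ √w * D := by nlinarith
  have h8 : 2 * 1.7724 * √w * D = 3.5448 * (√w * D) := by ring
  have h9 : 0 ≤ (√w - 1.0002) * (√w - 1.0002) := mul_self_nonneg _
  rw [h8]
  nlinarith

end Pool.Agent.H77.KN
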