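import Pool.Agent.H77.KN.An1B
import Pool.Agent.H77.KN.An2A
import Pool.Agent.H77.KN.An2B
import Pool.Agent.H77.KN.An3

/-!
# Row AnF (MP_72793b): the analytic inequality

`log 28.1 + 1e-6 ≤ log 28.11` (`log (28.11/28.1) ≥ 1 - 28.1/28.11 > 3e-4`).
`an_A`: if `w - α ≥ 1`: `inactive_A3`. Else if `π D² - α ≥ 1`: `inactive_A1`. Else all areas are in `(0,1)` (`α ≤ w - α < 1`): `an_active_A` and
`ff (π D² - α) ≤ ff y` (`ff_anti`). Same for `an_B` (`inactive_B3`, `inactive_B1`, `an_active_B`) and `an_C`.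
-/

namespace Pool.Agent.H77.KN

open Finset

theorem AnF_log : Real.log 28.1 + 1 / 10 ^ 6 ≤ Real.log 28.11 := by
  have h := Real.one_sub_inv_le_log_of_pos (show (0 : ℝ) < 28.11 / 28.1 by norm_num)
  rw [Real.log_div (by norm_num) (by norm_num)] at h
  have h2 : (1 : ℝ) / 10 ^ 6 ≤ 1 - (28.11 / 28.1)⁻¹ := by norm_num
  linarith

theorem AnF_log' : Real.log 28.1 + 1 / 10 ^ 6 ≤ 3.34 := AnF_log.trans log2811_le

theorem an_A {D w α y : ℝ} (hD : 0 < D) (hα : 0 < α) (hαw : α ≤ w / 2) (hy : 0 < y)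
    (hyD : y + α ≤ Real.pi * D ^ 2) (hw : 2.516 * D ^ 2 ≤ w) :
    Real.log 28.1 + 1 / 10 ^ 6 ≤ Real.log (1 + 3 / 8) + ff y + ff α + ff (w - α)
      + 2 * 1.7724 * √w * D + 2.423 * D ^ 2 := by
  by_cases h3 : 1 ≤ w - α
  · exact AnF_log'.trans (inactive_A3 hD hα hαw hy hyD h3)
  push Not at h3
  by_cases h1 : 1 ≤ Real.pi * D ^ 2 - α
  · exact AnF_log'.trans (inactive_A1 hD hα hαw hy h1 h3)
  push Not at h1
  have h := an_active_A hD hα (by linarith) (by linarith) h1 (by linarith) h3 hw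
  have h4 : ff (Real.pi * D ^ 2 - α) ≤ ff y := ff_anti hy (by linarith)
  have h5 := AnF_log
  linarith

theorem an_B {D w α y : ℝ} (hD : 0 < D) (hα : 0 < α) (hαw : α ≤ w / 2) (hy : 0 < y)
    (hyD : y + α ≤ Real.pi * D ^ 2) (hw : w ≤ 2.516 * D ^ 2) :
    Real.log 28.1 + 1 / 10 ^ 6 ≤ Real.log (1 + 1 / 4) + ff y + ff α + ff (w - α)
      + 2 * 1.7724 * √w * D + 2.663 * D ^ 2 := by
  by_cases h3 : 1 ≤ w - α
  · exact AnF_log'.trans (inactive_B3 hD hα hαw hy hw h3)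
  push Not at h3
  by_cases h1 : 1 ≤ Real.pi * D ^ 2 - α
  · exact AnF_log'.trans (inactive_B1 hD hα hαw hy h1 h3)
  push Not at h1
  have h := an_active_B hD hα (by linarith) (by linarith) h1 (by linarith) h3 hw
  have h4 : ff (Real.pi * D ^ 2 - α) ≤ ff y := ff_anti hy (by linarith)
  have h5 := AnF_log
  linarith

theorem an_C {D w α y : ℝ} (hD : 0 < D) (hα : 0 < α) (hαw : α ≤ w / 2) (hy : 0 < y)
    (hyD : y + α ≤ Real.pi * D ^ 2) (hw : w ≤ 0.86 * D ^ 2) :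
    Real.log 28.1 + 1 / 10 ^ 6 ≤ ff y + ff α + ff (w - α)
      + 2 * 1.7724 * √w * D + 3.1415 * D ^ 2 := by
  by_cases h3 : 1 ≤ w - α
  · exact AnF_log'.trans (inactive_C3 hD hα hαw hy hw h3)
  push Not at h3
  by_cases h1 : 1 ≤ Real.pi * D ^ 2 - α
  · exact AnF_log'.trans (inactive_C1 hD hα hαw hy h1 h3)
  push Not at h1
  have h := an_active_C hD hα (by linarith) (by linarith) h1 (by linarith) h3 hw
  have h4 : ff (Real.pi * D ^ 2 - α) ≤ ff y := ff_anti hy (by linarith)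
  have h5 := AnF_log
  linarith

end Pool.Agent.H77.KN
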