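import Pool.Agent.H77.KN.Fub
import Pool.Agent.H98.Preko

/-!
# Row BM (MP_72793b): Brunn-Minkowski inequality with a disc

Claim: `W` bounded measurable, `w = |W| > 0`, `r > 0`: `(√w + √π r)² ≤ |{p | ∃ q ∈ W, dist p q < r}|`.

Proof by the one-dimensional Prékopa-Leindler inequality `Pool.Agent.H98.Gauss.pl` and the one-dimensional Brunn-Minkowski inequality
`Pool.Agent.H98.Gauss.bm` (file `Pool/Agent/H98/Preko.lean`). Let `S = √w + √π r`, `a = √w / S`, `b = √π r / S`, so `a + b = 1`,
`a, b > 0`. Let `A = {x | a x ∈ W}`, `B = {x | b x ∈ ball 0 r} = ball 0 (r/b)`, `C = {p | ∃ q ∈ W, dist p q < r}` (open, bounded).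
`|A| = w / a² = S²` (`Measure.addHaar_preimage_smul`, `Complex.finrank_real_complex`), `|B| = π r² / b² = S²`.
If `x ∈ A`, `y ∈ B` then `a x + b y ∈ C` (take `q = a x`).
Slices: `f x = volume.real {t | (x,t) ∈ A}`, `g` for `B`, `h` for `C` (functions `ℝ → ℝ`). They are measurable
(`measurable_measure_prodMk_left` after `Complex.measurableEquivRealProd`), nonnegative, bounded (the sets are bounded: slices are in a
fixed interval) and integrable (bounded with bounded support; or from `volume_slices` = finite).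
`f x ^ a * g y ^ b ≤ h (a x + b y)`: if `f x = 0` or `g y = 0` the left side is `0` (`Real.zero_rpow`); else both slices are nonempty and
`bm` gives `a f x + b g y ≤ h (a x + b y)`, and `f^a g^b ≤ a f + b g` (`Real.geom_mean_le_arith_mean2_weighted`).
`pl`: `(∫ f)^a (∫ g)^b ≤ ∫ h`, i.e. `(S²)^a (S²)^b = S² ≤ |C|` (the integrals are the areas by `volume_slices`).
-/

namespace Pool.Agent.H77.KN

open MeasureTheory Finset

/-- the slice over `x` -/
private def BM_sl (S : Set ℂ) (x : ℝ) : Set ℝ := {t : ℝ | (⟨x, t⟩ : ℂ) ∈ S}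

private theorem BM_pair : Measurable (fun p : ℝ × ℝ => (⟨p.1, p.2⟩ : ℂ)) :=
  Complex.measurableEquivRealProd.symm.measurable

private theorem BM_slm {S : Set ℂ} (hS : MeasurableSet S) (x : ℝ) : MeasurableSet (BM_sl S x) :=
  (BM_pair.comp measurable_prodMk_left) hS

private theorem BM_meas {S : Set ℂ} (hS : MeasurableSet S) :
    Measurable (fun x : ℝ => volume (BM_sl S x)) :=
  measurable_measure_prodMk_left (BM_pair hS)

private theorem BM_bd {S : Set ℂ} {R : ℝ} (hR : ∀ z ∈ S, ‖z‖ ≤ R) (x : ℝ) :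
    volume (BM_sl S x) ≤ ENNReal.ofReal (2 * R) := by
  have h1 : BM_sl S x ⊆ Set.Icc (-R) R := by
    intro t ht
    have h2 : |t| ≤ R := by
      have h3 := Complex.abs_im_le_norm (⟨x, t⟩ : ℂ)
      exact h3.trans (hR _ ht)
    exact abs_le.1 h2
  refine (measure_mono h1).trans ?_
  rw [Real.volume_Icc]
  refine ENNReal.ofReal_le_ofReal ?_
  linarith

private theorem BM_slice {S : Set ℂ} (hS : MeasurableSet S) {R : ℝ} (hR : ∀ z ∈ S, ‖z‖ ≤ R) :
    Measurable (fun x : ℝ => volume.real (BM_sl S x)) ∧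
    Integrable (fun x : ℝ => volume.real (BM_sl S x)) ∧
    BddAbove (Set.range fun x : ℝ => volume.real (BM_sl S x)) ∧
    ∫ x : ℝ, volume.real (BM_sl S x) = volume.real S := by
  have hb : ∀ x, volume (BM_sl S x) ≤ ENNReal.ofReal (2 * R) := BM_bd hR
  have hlt : ∀ x, volume (BM_sl S x) < ⊤ := fun x => (hb x).trans_lt ENNReal.ofReal_lt_top
  have hfin : volume S ≠ ⊤ := by
    have h1 : S ⊆ Metric.closedBall 0 R := by
      intro z hz
      rw [mem_closedBall_zero_iff]
      exact hR z hz
    exact ((measure_mono h1).trans_lt measure_closedBall_lt_top).ne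
  have hint : ∫⁻ x : ℝ, volume (BM_sl S x) = volume S := (volume_slices hS).symm
  refine ⟨(BM_meas hS).ennreal_toReal, ?_, ⟨2 * |R|, ?_⟩, ?_⟩
  · exact integrable_toReal_of_lintegral_ne_top (BM_meas hS).aemeasurable (by rw [hint]; exact hfin)
  · rintro _ ⟨x, rfl⟩
    have h1 := ENNReal.toReal_mono ENNReal.ofReal_ne_top
      ((hb x).trans (ENNReal.ofReal_le_ofReal (q := 2 * |R|) (by linarith [le_abs_self R])))
    rw [ENNReal.toReal_ofReal (by positivity)] at h1
    exact h1
  · have h1 := integral_toReal (μ := volume) (f := fun x : ℝ => volume (BM_sl S x))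
      (BM_meas hS).aemeasurable (Filter.Eventually.of_forall hlt)
    rw [hint] at h1
    exact h1

theorem bm_disc {W : Set ℂ} (hW : MeasurableSet W) (hb : Bornology.IsBounded W) {r : ℝ} (hr : 0 < r)
    (hw : 0 < volume.real W) :
    (√(volume.real W) + √Real.pi * r) ^ 2 ≤ volume.real {p : ℂ | ∃ q ∈ W, dist p q < r} := by
  obtain ⟨R, hR⟩ := hb.exists_norm_le
  have hsw : 0 < √(volume.real W) := Real.sqrt_pos.2 hw
  have hsp : 0 < √Real.pi := Real.sqrt_pos.2 Real.pi_pos
  obtain ⟨S, hS⟩ : ∃ S : ℝ, S = √(volume.real W) + √Real.pi * r := ⟨_, rfl⟩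
  have hS0 : 0 < S := by rw [hS]; positivity
  obtain ⟨a, had⟩ : ∃ a : ℝ, a = √(volume.real W) / S := ⟨_, rfl⟩
  obtain ⟨b, hbd⟩ : ∃ b : ℝ, b = √Real.pi * r / S := ⟨_, rfl⟩
  have ha : 0 < a := by rw [had]; positivity
  have hb0 : 0 < b := by rw [hbd]; positivity
  have hab : a + b = 1 := by
    rw [had, hbd, ← add_div, ← hS, div_self hS0.ne']
  rw [← hS]
  -- the three sets
  let A : Set ℂ := (fun z : ℂ => a • z) ⁻¹' W
  let B : Set ℂ := Metric.ball 0 (r / b)
  let C : Set ℂ := {p : ℂ | ∃ q ∈ W, dist p q < r}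
  have hAm : MeasurableSet A := (measurable_const_smul a) hW
  have hBm : MeasurableSet B := measurableSet_ball
  have hCm : MeasurableSet C := by
    have e : C = Metric.thickening r W := by
      ext p
      rw [Metric.mem_thickening_iff]
      rfl
    rw [e]
    exact Metric.isOpen_thickening.measurableSet
  have hAb : ∀ z ∈ A, ‖z‖ ≤ R / a := by
    intro z hz
    have h1 := hR _ hz
    rw [norm_smul, Real.norm_eq_abs, abs_of_pos ha] at h1
    rw [le_div_iff₀ ha, mul_comm]
    exact h1
  have hBb : ∀ z ∈ B, ‖z‖ ≤ r / b := by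
    intro z hz
    exact (mem_ball_zero_iff.1 hz).le
  have hCb : ∀ z ∈ C, ‖z‖ ≤ R + r := by
    rintro z ⟨q, hq, hd⟩
    have h1 := hR q hq
    have h2 : ‖z‖ ≤ ‖z - q‖ + ‖q‖ := by
      have := norm_add_le (z - q) q
      rwa [sub_add_cancel] at this
    rw [dist_eq_norm] at hd
    linarith
  have hABC : ∀ z ∈ A, ∀ z' ∈ B, a • z + b • z' ∈ C := by
    intro z hz z' hz'
    refine ⟨a • z, hz, ?_⟩
    rw [dist_eq_norm, add_sub_cancel_left, norm_smul, Real.norm_eq_abs, abs_of_pos hb0]
    have h1 : ‖z'‖ < r / b := mem_ball_zero_iff.1 hz'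
    rw [lt_div_iff₀ hb0] at h1
    linarith
  obtain ⟨a1, a2, a3, a4⟩ := BM_slice hAm hAb
  obtain ⟨b1, b2, b3, b4⟩ := BM_slice hBm hBb
  obtain ⟨c1, c2, c3, c4⟩ := BM_slice hCm hCb
  have key := Pool.Agent.H98.Gauss.pl a1 b1 c1 (fun _ => ENNReal.toReal_nonneg)
    (fun _ => ENNReal.toReal_nonneg) (fun _ => ENNReal.toReal_nonneg) a2 b2 c2 a3 b3 ha hb0 hab ?_
  · rw [a4, b4, c4] at key
    have eA : volume.real A = S ^ 2 := by
      have h1 := Measure.addHaar_preimage_smul (volume : Measure ℂ) ha.ne' W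
      rw [Complex.finrank_real_complex] at h1
      have h2 : volume.real A = |(a ^ 2)⁻¹| * volume.real W := by
        unfold Measure.real
        have h3 : volume A = ENNReal.ofReal |(a ^ 2)⁻¹| * volume W := h1
        rw [h3, ENNReal.toReal_mul, ENNReal.toReal_ofReal (abs_nonneg _)]
      rw [h2, abs_of_pos (by positivity), had]
      have h4 : √(volume.real W) ^ 2 = volume.real W := Real.sq_sqrt hw.le
      rw [div_pow, h4]
      field_simp
    have eB : volume.real B = S ^ 2 := by
      have h1 : volume.real B = Real.pi * (r / b) ^ 2 := real_ball 0 (by positivity)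
      have h4 : √Real.pi ^ 2 = Real.pi := Real.sq_sqrt Real.pi_pos.le
      have h5 : r / b = S / √Real.pi := by
        rw [hbd]
        field_simp
      rw [h1, h5, div_pow, h4]
      field_simp
    rw [eA, eB, ← Real.rpow_add (by positivity), hab, Real.rpow_one] at key
    exact key
  · intro x y
    have hg0 : 0 ≤ volume.real (BM_sl C (a * x + b * y)) := ENNReal.toReal_nonneg
    by_cases hx : volume.real (BM_sl A x) = 0
    · show volume.real (BM_sl A x) ^ a * volume.real (BM_sl B y) ^ b ≤ _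
      rw [hx, Real.zero_rpow ha.ne', zero_mul]
      exact hg0
    by_cases hy : volume.real (BM_sl B y) = 0
    · show volume.real (BM_sl A x) ^ a * volume.real (BM_sl B y) ^ b ≤ _
      rw [hy, Real.zero_rpow hb0.ne', mul_zero]
      exact hg0
    have nx : (BM_sl A x).Nonempty := by
      rw [Set.nonempty_iff_ne_empty]
      intro h
      rw [h] at hx
      simp at hx
    have ny : (BM_sl B y).Nonempty := by
      rw [Set.nonempty_iff_ne_empty]
      intro h
      rw [h] at hy
      simp at hy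
    have h1 := Pool.Agent.H98.Gauss.bm (BM_slm hAm x) (BM_slm hBm y) nx ny ha hb0
      (C := BM_sl C (a * x + b * y)) (fun s hs t ht => by
        have h2 := hABC _ hs _ ht
        have h3 : a • (⟨x, s⟩ : ℂ) + b • (⟨y, t⟩ : ℂ) =
            (⟨a * x + b * y, a * s + b * t⟩ : ℂ) := by
          apply Complex.ext <;> simp
        rw [h3] at h2
        exact h2)
    have fC : volume (BM_sl C (a * x + b * y)) ≠ ⊤ :=
      ((BM_bd hCb _).trans_lt ENNReal.ofReal_lt_top).ne
    have fA : volume (BM_sl A x) ≠ ⊤ := ((BM_bd hAb _).trans_lt ENNReal.ofReal_lt_top).ne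
    have fB : volume (BM_sl B y) ≠ ⊤ := ((BM_bd hBb _).trans_lt ENNReal.ofReal_lt_top).ne
    have h2 := ENNReal.toReal_mono fC h1
    rw [ENNReal.toReal_add (ENNReal.mul_ne_top ENNReal.ofReal_ne_top fA)
      (ENNReal.mul_ne_top ENNReal.ofReal_ne_top fB), ENNReal.toReal_mul, ENNReal.toReal_mul,
      ENNReal.toReal_ofReal ha.le, ENNReal.toReal_ofReal hb0.le] at h2
    exact (Real.geom_mean_le_arith_mean2_weighted ha.le hb0.le ENNReal.toReal_nonneg
      ENNReal.toReal_nonneg hab).trans h2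

end Pool.Agent.H77.KN
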