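import Pool.Agent.H77.KN.Fub

/-!
# Row CellA (part of Cell) (MP_72793b): the cells

`cells s T` = union of the half open cells with index in `T` (`cidx s z = (⌊re z/s⌋, ⌊im z/s⌋)`).
* `cells_meas`, `cells_bounded`; `cells_vol`: area `s² #T`: the cell of `t` is the set `{z | t.1 s ≤ re z < (t.1+1) s, t.2 s ≤ im z < (t.2+1) s}`
  (`Int.floor_eq_iff`), area `s²` (`Complex.volume_preserving_equiv_real_prod`, `Measure.prod_prod`, `Real.volume_Ico`, or `volume_slices`); cells with different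
  indices are disjoint; induction on `T` (`Finset.induction_on`) or `measureReal_biUnion_finset`.
* `cells_tile`: a point `p` of the cell `t` lies in `tile s t`.
* `tile_dist`: two points of the closed tile `t` have distance `≤ dl` if `0 < s ≤ s0` (`dist² ≤ 2 s²`, `√2 s ≤ 2 s ≤ 2e-9 = dl`).
* `cells_nb`: `cells s (A.image ι) ⊆ nb A dl` if every `z ∈ A` is in `tile s (ι z)`.
-/

namespace Pool.Agent.H77.KN

open MeasureTheory Finset

theorem CellA_meas (s : ℝ) : Measurable (cidx s) := by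
  unfold cidx
  exact (Int.measurable_floor.comp (Complex.measurable_re.div_const s)).prodMk
    (Int.measurable_floor.comp (Complex.measurable_im.div_const s))

theorem cells_meas (s : ℝ) (T : Finset (ℤ × ℤ)) : MeasurableSet (cells s T) :=
  CellA_meas s T.measurableSet

theorem CellA_one {s : ℝ} (hs : 0 < s) (t : ℤ × ℤ) : {z : ℂ | cidx s z = t} =
    Complex.measurableEquivRealProd ⁻¹'
      (Set.Ico (t.1 * s : ℝ) ((t.1 + 1) * s) ×ˢ Set.Ico (t.2 * s : ℝ) ((t.2 + 1) * s)) := by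
  ext z
  have h : ∀ (x : ℝ) (m : ℤ), ⌊x / s⌋ = m ↔ (m : ℝ) * s ≤ x ∧ x < (m + 1) * s := by
    intro x m
    rw [Int.floor_eq_iff, le_div_iff₀ hs, div_lt_iff₀ hs]
  rw [Set.mem_preimage, Set.mem_prod, Set.mem_Ico, Set.mem_Ico]
  show cidx s z = t ↔ ((t.1 : ℝ) * s ≤ z.re ∧ z.re < (t.1 + 1) * s) ∧
    ((t.2 : ℝ) * s ≤ z.im ∧ z.im < (t.2 + 1) * s)
  rw [← h, ← h]
  unfold cidx
  exact Prod.ext_iff

theorem CellA_union (s : ℝ) (T : Finset (ℤ × ℤ)) :
    cells s T = ⋃ t ∈ T, {z : ℂ | cidx s z = t} := by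
  ext z
  simp [cells]

theorem cells_bounded {s : ℝ} (hs : 0 < s) (T : Finset (ℤ × ℤ)) : Bornology.IsBounded (cells s T) := by
  rw [CellA_union, Bornology.isBounded_biUnion_finset]
  intro t _
  refine ((isCompact_Icc (a := (t.1 * s : ℝ)) (b := (t.1 + 1) * s)).reProdIm
    (isCompact_Icc (a := (t.2 * s : ℝ)) (b := (t.2 + 1) * s))).isBounded.subset ?_
  intro z hz
  rw [CellA_one hs] at hz
  have h1 : ((t.1 : ℝ) * s ≤ z.re ∧ z.re < (t.1 + 1) * s) ∧
    ((t.2 : ℝ) * s ≤ z.im ∧ z.im < (t.2 + 1) * s) := hz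
  exact ⟨⟨h1.1.1, h1.1.2.le⟩, ⟨h1.2.1, h1.2.2.le⟩⟩

theorem CellA_vol {s : ℝ} (hs : 0 < s) (t : ℤ × ℤ) :
    volume {z : ℂ | cidx s z = t} = ENNReal.ofReal (s ^ 2) := by
  rw [CellA_one hs, Complex.volume_preserving_equiv_real_prod.measure_preimage_equiv,
    Measure.volume_eq_prod, Measure.prod_prod, Real.volume_Ico, Real.volume_Ico,
    ← ENNReal.ofReal_mul]
  · congr 1
    ring
  · have : ((t.1 : ℝ) + 1) * s - t.1 * s = s := by ring
    rw [this]
    exact hs.le

theorem cells_vol {s : ℝ} (hs : 0 < s) (T : Finset (ℤ × ℤ)) : volume.real (cells s T) = s ^ 2 * T.card := by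
  rw [CellA_union, measureReal_biUnion_finset (h := fun t _ => by
    rw [CellA_vol hs]
    exact ENNReal.ofReal_ne_top)]
  · have h : ∀ t ∈ T, volume.real {z : ℂ | cidx s z = t} = s ^ 2 := by
      intro t _
      rw [Measure.real, CellA_vol hs, ENNReal.toReal_ofReal (by positivity)]
    rw [Finset.sum_congr rfl h, Finset.sum_const, nsmul_eq_mul, mul_comm]
  · intro a _ b _ hab
    refine Set.disjoint_left.2 fun z hz hz' => hab ?_
    have h1 : cidx s z = a := hz
    have h2 : cidx s z = b := hz'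
    rw [← h1, h2]
  · intro t _
    exact CellA_meas s (measurableSet_singleton t)

end Pool.Agent.H77.KN
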