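import Pool.Agent.H77.KN.Fub

/-!
# Row CellB (part of Cell) (MP_72793b): the cells

`cells s T` = union of the half open cells with index in `T` (`cidx s z = (⌊re z/s⌋, ⌊im z/s⌋)`).
* `cells_meas`, `cells_bounded`; `cells_vol`: area `s² #T`: the cell of `t` is the set `{z | t.1 s ≤ re z < (t.1+1) s, t.2 s ≤ im z < (t.2+1) s}`
  (`Int.floor_eq_iff`), area `s²` (`Complex.volume_preserving_equiv_real_prod`, `Measure.prod_prod`, `Real.volume_Ico`, or `volume_slices`); cells with different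
  indices are disjoint; induction on `T` (`Finset.induction_on`) or `measureReal_biUnion_finset`.
* `cells_tile`: a point `p` of the cell `t` lies in `tile s t`.
* `tile_dist`: two points of the closed tile `t` have distance `≤ dl` if `0 < s ≤ s0` (`dist² ≤ 2 s²`, `√2 s ≤ 2 s ≤ 2e-9 = dl`).
* `cells_nb`: `cells s (A.image ι) ⊆ nb A dl` if every `z ∈ A` is in `tile s (ι z)`.
-/

namespace Pool.Agent.H77.KN

open MeasureTheory Finset

theorem cells_tile {s : ℝ} (hs : 0 < s) (p : ℂ) : p ∈ tile s (cidx s p) := by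
  unfold tile cidx
  refine ⟨?_, ?_, ?_, ?_⟩
  · rw [← le_div_iff₀ hs]
    exact Int.floor_le _
  · rw [← div_le_iff₀ hs]
    exact (Int.lt_floor_add_one _).le
  · rw [← le_div_iff₀ hs]
    exact Int.floor_le _
  · rw [← div_le_iff₀ hs]
    exact (Int.lt_floor_add_one _).le

theorem tile_dist {s : ℝ} (hs : 0 < s) (hs0 : s ≤ s0) {t : ℤ × ℤ} {p q : ℂ} (hp : p ∈ tile s t) (hq : q ∈ tile s t) :
    dist p q ≤ dl := by
  obtain ⟨a1, a2, a3, a4⟩ := hp
  obtain ⟨b1, b2, b3, b4⟩ := hq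
  have h1 : |(p - q).re| ≤ s := by
    rw [Complex.sub_re, abs_le]
    constructor <;> linarith
  have h2 : |(p - q).im| ≤ s := by
    rw [Complex.sub_im, abs_le]
    constructor <;> linarith
  rw [dist_eq_norm]
  refine (Complex.norm_le_abs_re_add_abs_im (p - q)).trans ?_
  have h3 : s ≤ 1 / 10 ^ 9 := hs0
  unfold dl
  linarith

theorem cells_nb {s : ℝ} (hs : 0 < s) (hs0 : s ≤ s0) {A : Finset ℂ} {ι : ℂ → ℤ × ℤ}
    (hι : ∀ z ∈ A, z ∈ tile s (ι z)) : cells s (A.image ι) ⊆ nb A dl := by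
  intro z hz
  obtain ⟨a, ha, haz⟩ := Finset.mem_image.1 hz
  refine ⟨a, ha, tile_dist hs hs0 (cells_tile hs z) ?_⟩
  rw [← haz]
  exact hι a ha

end Pool.Agent.H77.KN
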