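import Mathlib

/-!
# MP_72793b: the deterministic cost inequality (interface)

Plane = `ℂ`, all lengths are measured in units of `√k` (so a Poisson process of intensity `1` becomes one of
intensity `k`; mass `m` means `m * k` points).
-/

namespace Pool.Agent.H77.KN

open Finset

/-- the large deviation cost `h(x) = x log x - x + 1` of density `x` (note `h 0 = 1`) -/
noncomputable def hh (x : ℝ) : ℝ := x * Real.log x - x + 1

/-- the closed tile of side `s` with index `t` -/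
def tile (s : ℝ) (t : ℤ × ℤ) : Set ℂ :=
  {z | t.1 * s ≤ z.re ∧ z.re ≤ (t.1 + 1) * s ∧ t.2 * s ≤ z.im ∧ z.im ≤ (t.2 + 1) * s}

/-- `(C, F)` is separated: every point `c` of `C` has at least `k + 1` points of `C` (itself included) strictly closer
than `F`, and the same with the roles exchanged. -/
def Sep (k : ℕ) (C F : Finset ℂ) : Prop :=
  (∀ c ∈ C, k + 1 ≤ (C.filter (fun p => ∀ f ∈ F, dist c p < dist c f)).card) ∧
  (∀ f ∈ F, k + 1 ≤ (F.filter (fun p => ∀ c ∈ C, dist f p < dist f c)).card)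

/-- the cost of the tiles in `J`, where the point `z` is counted in the tile `ι z` -/
noncomputable def cost (s : ℝ) (k : ℕ) (P : Finset ℂ) (ι : ℂ → ℤ × ℤ) (J : Finset (ℤ × ℤ)) : ℝ :=
  ∑ t ∈ J, s ^ 2 * hh ((P.filter (fun z => ι z = t)).card / (s ^ 2 * k))

/-- the tile side used in the cost inequality -/
noncomputable def s0 : ℝ := 1 / 10 ^ 9

/-- **COST.** (`log 28.1 > 10 / 3`) -/
def CostStatement : Prop :=
  ∀ (s : ℝ) (k : ℕ) (C F : Finset ℂ) (ι : ℂ → ℤ × ℤ) (J : Finset (ℤ × ℤ)),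
    0 < s → s ≤ s0 → 0 < k → F.Nonempty → Disjoint C F → Sep k C F → 2 * (k + 1) ≤ C.card →
    (∀ z ∈ C ∪ F, z ∈ tile s (ι z)) →
    (∀ t : ℤ × ℤ, (∃ c ∈ C, ∃ z ∈ tile s t, dist c z ≤ 5) → t ∈ J) →
    Real.log 28.1 ≤ cost s k (C ∪ F) ι J

/-- **LEMMA 1.** a foreign point in the convex hull forces `2 (k + 1)` vertices -/
def HullStatement : Prop :=
  ∀ (k : ℕ) (C F : Finset ℂ) (x : ℂ), Disjoint C F → Sep k C F → x ∈ F → x ∈ convexHull ℝ (C : Set ℂ) →
    2 * (k + 1) ≤ C.card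

end Pool.Agent.H77.KN
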