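import Mathlib

/-!
# Row Gap (MP_72793b): two separated sets in an interval leave a gap

Claim: if `A, B ⊆ [p, q]` are nonempty and all distances between them are `≥ σ > 0`, then `|A| + |B| ≤ q - p - σ`.

Proof. `A` and `B` are disjoint (distance 0 would be `≥ σ`), so `|A| + |B| = |A ∪ B|` (`measure_union`).
Let `a* = sSup A`, `b* = sSup B` (both sets are bounded and nonempty). By symmetry assume `a* ≤ b*` (for the other case exchange the
roles; do the proof as a lemma for `a* ≤ b*` and apply it twice).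
(1) Every point `x` of the open interval `(a*, a* + σ)` is in neither set: not in `A` since `x > sSup A`; and if `x ∈ B`, pick
`a ∈ A` with `a > max (a*) .. - ` i.e. `a > x - σ` (possible since `x - σ < a*`, `exists_lt_of_lt_csSup`), then `a ≤ a* < x` and
`|a - x| = x - a < σ`, contradiction.
(2) `a* + σ ≤ q` and `p ≤ a*`: `p ≤ a ≤ a*`. For the first: there is a point of `B` which is `≥ a* + σ`: otherwise by (1) all points
of `B` are `≤ a*`, so `b* ≤ a*`, so `b* = a*`; but then pick `a ∈ A`, `a > a* - σ/2`, and `b ∈ B`, `b > b* - σ/2`, both in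
`(a* - σ/2, a*]`, distance `< σ`, contradiction. So some `b ∈ B` has `b > a*`, and by (1) `b ≥ a* + σ`, and `b ≤ q`.
(3) `A ∪ B ⊆ Icc p q \ Ioo a* (a* + σ) `, and `Ioo a* (a*+σ) ⊆ Icc p q`, so the measure is `≤ (q - p) - σ`
(`measure_diff`, `Real.volume_Icc`, `Real.volume_Ioo`, `ENNReal.ofReal_sub`).
-/

namespace Pool.Agent.H77.KN

open MeasureTheory

theorem Gap_aux {A B : Set ℝ} (hA : MeasurableSet A) (hB : MeasurableSet B) (hA0 : A.Nonempty)
    (hB0 : B.Nonempty) {p q σ : ℝ} (hσ : 0 < σ) (hAp : A ⊆ Set.Icc p q) (hBp : B ⊆ Set.Icc p q)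
    (hsep : ∀ a ∈ A, ∀ b ∈ B, σ ≤ |a - b|) (hle : sSup A ≤ sSup B) :
    volume A + volume B ≤ ENNReal.ofReal (q - p - σ) := by
  have hAbdd : BddAbove A := ⟨q, fun x hx => (hAp hx).2⟩
  have hBbdd : BddAbove B := ⟨q, fun x hx => (hBp hx).2⟩
  have hdisj : Disjoint A B := by
    rw [Set.disjoint_left]
    intro x hxA hxB
    have := hsep x hxA x hxB
    rw [sub_self, abs_zero] at this
    linarith
  set s := sSup A with hs
  -- (1)
  have h1A : ∀ x, s < x → x ∉ A := fun x hx hxA => absurd (le_csSup hAbdd hxA) (not_le.2 hx)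
  have h1B : ∀ x ∈ B, s < x → s + σ ≤ x := by
    intro x hxB hx
    by_contra hlt
    rw [not_le] at hlt
    obtain ⟨a, ha, hax⟩ := exists_lt_of_lt_csSup hA0 (show x - σ < sSup A by linarith)
    have h2 := le_csSup hAbdd ha
    have h3 := hsep a ha x hxB
    rw [abs_sub_comm, abs_of_pos (by linarith)] at h3
    linarith
  -- (2)
  have hps : p ≤ s := by
    obtain ⟨a, ha⟩ := hA0
    exact (hAp ha).1.trans (le_csSup hAbdd ha)
  have hsq : s + σ ≤ q := by
    by_contra hlt
    rw [not_le] at hlt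
    have h2 : ∀ b ∈ B, b ≤ s := by
      intro b hb
      by_contra hbs
      rw [not_le] at hbs
      have := h1B b hb hbs
      have := (hBp hb).2
      linarith
    obtain ⟨a, ha, hax⟩ := exists_lt_of_lt_csSup hA0 (show s - σ / 2 < sSup A by linarith)
    obtain ⟨b, hb, hbx⟩ := exists_lt_of_lt_csSup hB0 (show s - σ / 2 < sSup B by linarith)
    have h3 := le_csSup hAbdd ha
    have h4 := h2 b hb
    have h5 := hsep a ha b hb
    have h6 : |a - b| < σ := by
      rw [abs_sub_lt_iff]
      constructor <;> linarith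
    linarith
  -- (3)
  have hsub : A ∪ B ⊆ Set.Icc p q \ Set.Ioo s (s + σ) := by
    rintro x (hx | hx)
    · refine ⟨hAp hx, fun h => h1A x h.1 hx⟩
    · refine ⟨hBp hx, fun h => ?_⟩
      have := h1B x hx h.1
      linarith [h.2]
  have hsub2 : Set.Ioo s (s + σ) ⊆ Set.Icc p q := fun x hx =>
    ⟨by linarith [hx.1], by linarith [hx.2]⟩
  calc volume A + volume B = volume (A ∪ B) := (measure_union hdisj hB).symm
    _ ≤ volume (Set.Icc p q \ Set.Ioo s (s + σ)) := measure_mono hsub
    _ = volume (Set.Icc p q) - volume (Set.Ioo s (s + σ)) :=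
        measure_diff hsub2 measurableSet_Ioo.nullMeasurableSet (by simp)
    _ = ENNReal.ofReal (q - p - σ) := by
        rw [Real.volume_Icc, Real.volume_Ioo, ← ENNReal.ofReal_sub _ (by linarith)]
        congr 1
        ring

theorem gap_measure {A B : Set ℝ} (hA : MeasurableSet A) (hB : MeasurableSet B) (hA0 : A.Nonempty)
    (hB0 : B.Nonempty) {p q σ : ℝ} (hσ : 0 < σ) (hAp : A ⊆ Set.Icc p q) (hBp : B ⊆ Set.Icc p q)
    (hsep : ∀ a ∈ A, ∀ b ∈ B, σ ≤ |a - b|) :
    volume A + volume B ≤ ENNReal.ofReal (q - p - σ) := by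
  rcases le_total (sSup A) (sSup B) with h | h
  · exact Gap_aux hA hB hA0 hB0 hσ hAp hBp hsep h
  · rw [add_comm]
    exact Gap_aux hB hA hB0 hA0 hσ hBp hAp (fun b hb a ha => by
      rw [abs_sub_comm]; exact hsep a ha b hb) h

end Pool.Agent.H77.KN
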