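import Pool.Agent.H77.KN.Fub
import Pool.Agent.H77.KN.Gap

/-!
# Row Cres (MP_72793b): two crescents

Claim: `X ⊆ B(y,ρ)`, `Y ⊆ B(z,ρ)`, `|y - z| = d`, all distances between `X` and `Y` are `≥ σ`, `0 < σ ≤ d`:
`|X| + |Y| ≤ π ρ² + 2 ρ (d - σ)`.

Proof. Normal form: by a rigid motion (`volume_rot`, `volume_shift`) we may assume `y = 0`, `z = d * I` (take `u = (z - y)/(d I)`,
a unit; replace `X` by its preimage `X'` under `w ↦ u w + y`, the same for `Y`; distances are preserved). `crescents0` is the normal form.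
Normal form, by slices (`volume_slices`): for `x : ℝ` let `X_x = {t | (x,t) ∈ X}`, `Y_x` the same.
If `|x| ≥ ρ` both are empty. Let `|x| < ρ`, `c = √(ρ² - x²) > 0`. `X_x ⊆ [-c, c]`, `Y_x ⊆ [d - c, d + c]`, both `⊆ [-c, d + c]`.
If both are nonempty, `gap_measure` (the distance of `(x,s)` and `(x,t)` is `|s - t|`) gives `|X_x| + |Y_x| ≤ (d + 2c) - σ`.
If one is empty, the sum is `≤ 2c ≤ 2c + (d - σ)`. So in all cases `|X_x| + |Y_x| ≤ ofReal (2c) + ofReal (d - σ)` for `|x| < ρ`.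
The slices of the ball `B(0,ρ)` are the open intervals `(-c, c)` with measure `ofReal (2c)`, so `∫⁻_{|x|<ρ} ofReal (2c) = volume (ball 0 ρ)
= ofReal (π ρ²)` (no integral has to be computed!), and `∫⁻_{|x|<ρ} ofReal (d - σ) = ofReal (d-σ) * ofReal (2ρ)`.
Sum up (`lintegral_add_left` needs measurability of `x ↦ volume (slice)`: `measurable_measure_prodMk_left` composed, or use
`lintegral_mono` for a function that dominates, e.g. `∫⁻ (f + g) ≥ ∫⁻ f + ∫⁻ g` holds for all functions: `le_lintegral_add`).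
Everything is finite (subsets of balls), pass to `volume.real`.
-/

namespace Pool.Agent.H77.KN

open MeasureTheory Finset

lemma Cres_slice_measurable {S : Set ℂ} (hS : MeasurableSet S) (x : ℝ) :
    MeasurableSet {y : ℝ | (⟨x, y⟩ : ℂ) ∈ S} := by
  have h : Measurable (fun y : ℝ => (⟨x, y⟩ : ℂ)) := by
    have : (fun y : ℝ => (⟨x, y⟩ : ℂ)) = fun y : ℝ => (x : ℂ) + (y : ℂ) * Complex.I := by
      funext y
      apply Complex.ext <;> simp
    rw [this]
    fun_prop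
  exact h hS

lemma Cres_ball_iff (a : ℝ) {ρ : ℝ} (hρ : 0 < ρ) (x y : ℝ) :
    (⟨x, y⟩ : ℂ) ∈ Metric.ball ((a : ℂ) * Complex.I) ρ ↔ x ^ 2 + (y - a) ^ 2 < ρ ^ 2 := by
  rw [Metric.mem_ball, dist_eq_norm]
  have h1 : ‖(⟨x, y⟩ : ℂ) - (a : ℂ) * Complex.I‖ ^ 2 = x ^ 2 + (y - a) ^ 2 := by
    rw [Complex.sq_norm, Complex.normSq_apply]
    simp
    ring
  rw [← h1]
  constructor
  · intro h
    have := norm_nonneg ((⟨x, y⟩ : ℂ) - (a : ℂ) * Complex.I)
    nlinarith
  · intro h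
    exact lt_of_pow_lt_pow_left₀ 2 hρ.le h

lemma Cres_slice_empty (a : ℝ) {ρ : ℝ} (hρ : 0 < ρ) {S : Set ℂ}
    (hS : S ⊆ Metric.ball ((a : ℂ) * Complex.I) ρ) {x : ℝ} (hx : ρ ≤ |x|) :
    {y : ℝ | (⟨x, y⟩ : ℂ) ∈ S} = ∅ := by
  ext y
  simp only [Set.mem_ofPred_eq, Set.mem_empty_iff_false, iff_false]
  intro h
  have h1 := (Cres_ball_iff a hρ x y).1 (hS h)
  have h2 : ρ ^ 2 ≤ x ^ 2 := by
    rw [← sq_abs x]
    exact pow_le_pow_left₀ hρ.le hx 2
  nlinarith [sq_nonneg (y - a)]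

lemma Cres_slice_sub (a : ℝ) {ρ : ℝ} (hρ : 0 < ρ) {S : Set ℂ}
    (hS : S ⊆ Metric.ball ((a : ℂ) * Complex.I) ρ) (x : ℝ) :
    {y : ℝ | (⟨x, y⟩ : ℂ) ∈ S} ⊆ Set.Ioo (a - √(ρ ^ 2 - x ^ 2)) (a + √(ρ ^ 2 - x ^ 2)) := by
  intro y h
  have h1 := (Cres_ball_iff a hρ x y).1 (hS h)
  have h2 : |y - a| < √(ρ ^ 2 - x ^ 2) := by
    apply Real.lt_sqrt_of_sq_lt
    rw [sq_abs]
    linarith
  rw [abs_lt] at h2
  constructor <;> linarith

lemma Cres_ball_slice {ρ : ℝ} (hρ : 0 < ρ) {x : ℝ} (_hx : |x| < ρ) :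
    volume {y : ℝ | (⟨x, y⟩ : ℂ) ∈ Metric.ball (0 : ℂ) ρ} = ENNReal.ofReal (2 * √(ρ ^ 2 - x ^ 2)) := by
  have h1 : {y : ℝ | (⟨x, y⟩ : ℂ) ∈ Metric.ball (0 : ℂ) ρ}
      = Set.Ioo (-√(ρ ^ 2 - x ^ 2)) (√(ρ ^ 2 - x ^ 2)) := by
    ext y
    have h0 := Cres_ball_iff 0 hρ x y
    simp only [Complex.ofReal_zero, zero_mul, sub_zero] at h0
    simp only [Set.mem_ofPred_eq]
    rw [h0, Set.mem_Ioo, ← abs_lt]
    constructor
    · intro h
      apply Real.lt_sqrt_of_sq_lt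
      rw [sq_abs]
      linarith
    · intro h
      rw [Real.lt_sqrt (abs_nonneg y), sq_abs] at h
      linarith
  rw [h1, Real.volume_Ioo]
  congr 1
  ring

theorem crescents0 {X Y : Set ℂ} (hX : MeasurableSet X) (hY : MeasurableSet Y) {d ρ σ : ℝ}
    (hσ : 0 < σ) (hσd : σ ≤ d) (hρ : 0 < ρ)
    (hXb : X ⊆ Metric.ball 0 ρ) (hYb : Y ⊆ Metric.ball ((d : ℂ) * Complex.I) ρ)
    (hsep : ∀ p ∈ X, ∀ q ∈ Y, σ ≤ dist p q) :
    volume.real X + volume.real Y ≤ Real.pi * ρ ^ 2 + 2 * ρ * (d - σ) := by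
  have hXb' : X ⊆ Metric.ball (((0 : ℝ) : ℂ) * Complex.I) ρ := by simpa using hXb
  have key : ∀ x : ℝ, volume {y : ℝ | (⟨x, y⟩ : ℂ) ∈ X} + volume {y : ℝ | (⟨x, y⟩ : ℂ) ∈ Y}
      ≤ volume {y : ℝ | (⟨x, y⟩ : ℂ) ∈ Metric.ball (0 : ℂ) ρ}
        + (Set.Ioo (-ρ) ρ).indicator (fun _ => ENNReal.ofReal (d - σ)) x := by
    intro x
    rcases le_or_gt ρ |x| with hx | hx
    · rw [Cres_slice_empty 0 hρ hXb' hx, Cres_slice_empty d hρ hYb hx]
      simp
    · have hxI : x ∈ Set.Ioo (-ρ) ρ := by rw [Set.mem_Ioo, ← abs_lt]; exact hx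
      rw [Set.indicator_of_mem hxI, Cres_ball_slice hρ hx]
      have hsX := Cres_slice_sub 0 hρ hXb' x
      have hsY := Cres_slice_sub d hρ hYb x
      have hc : 0 ≤ √(ρ ^ 2 - x ^ 2) := Real.sqrt_nonneg _
      set c := √(ρ ^ 2 - x ^ 2) with hcdef
      rcases Set.eq_empty_or_nonempty {y : ℝ | (⟨x, y⟩ : ℂ) ∈ X} with hXe | hXn
      · rw [hXe, measure_empty, zero_add]
        calc volume {y : ℝ | (⟨x, y⟩ : ℂ) ∈ Y} ≤ volume (Set.Ioo (d - c) (d + c)) := measure_mono hsY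
          _ = ENNReal.ofReal (2 * c) := by rw [Real.volume_Ioo]; congr 1; ring
          _ ≤ _ := le_self_add
      rcases Set.eq_empty_or_nonempty {y : ℝ | (⟨x, y⟩ : ℂ) ∈ Y} with hYe | hYn
      · rw [hYe, measure_empty, add_zero]
        calc volume {y : ℝ | (⟨x, y⟩ : ℂ) ∈ X} ≤ volume (Set.Ioo (0 - c) (0 + c)) := measure_mono hsX
          _ = ENNReal.ofReal (2 * c) := by rw [Real.volume_Ioo]; congr 1; ring
          _ ≤ _ := le_self_add
      rw [← ENNReal.ofReal_add (by positivity) (by linarith)]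
      have hgap := gap_measure (Cres_slice_measurable hX x) (Cres_slice_measurable hY x) hXn hYn
        (p := -c) (q := d + c) (σ := σ) hσ ?_ ?_ ?_
      · refine hgap.trans (le_of_eq ?_)
        congr 1
        ring
      · intro y hy
        have := hsX hy
        rw [Set.mem_Ioo] at this
        constructor <;> linarith [this.1, this.2]
      · intro y hy
        have := hsY hy
        rw [Set.mem_Ioo] at this
        constructor <;> linarith [this.1, this.2]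
      · intro a ha b hb
        have h1 := hsep _ ha _ hb
        rw [dist_eq_norm] at h1
        have h2 : (⟨x, a⟩ : ℂ) - ⟨x, b⟩ = ((a - b : ℝ) : ℂ) * Complex.I := by
          apply Complex.ext <;> simp
        rw [h2, norm_mul, Complex.norm_I, mul_one, Complex.norm_real] at h1
        exact h1
  have hle : volume X + volume Y ≤ volume (Metric.ball (0 : ℂ) ρ)
      + ENNReal.ofReal (d - σ) * ENNReal.ofReal (2 * ρ) := by
    rw [volume_slices hX, volume_slices hY, volume_slices Metric.isOpen_ball.measurableSet]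
    calc _ ≤ ∫⁻ x : ℝ, (volume {y : ℝ | (⟨x, y⟩ : ℂ) ∈ X} + volume {y : ℝ | (⟨x, y⟩ : ℂ) ∈ Y}) :=
          le_lintegral_add _ _
      _ ≤ ∫⁻ x : ℝ, (volume {y : ℝ | (⟨x, y⟩ : ℂ) ∈ Metric.ball (0 : ℂ) ρ}
        + (Set.Ioo (-ρ) ρ).indicator (fun _ => ENNReal.ofReal (d - σ)) x) := lintegral_mono key
      _ = _ := by
          rw [lintegral_add_right _ (measurable_const.indicator measurableSet_Ioo),
            lintegral_indicator measurableSet_Ioo, setLIntegral_const, Real.volume_Ioo]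
          congr 3
          ring
  have hXf : volume X ≠ ⊤ := measure_ne_top_of_subset hXb measure_ball_lt_top.ne
  have hYf : volume Y ≠ ⊤ := measure_ne_top_of_subset hYb measure_ball_lt_top.ne
  have hBf : volume (Metric.ball (0 : ℂ) ρ) ≠ ⊤ := measure_ball_lt_top.ne
  have h3 := ENNReal.toReal_mono (by
    exact ENNReal.add_ne_top.2 ⟨hBf, ENNReal.mul_ne_top ENNReal.ofReal_ne_top ENNReal.ofReal_ne_top⟩) hle
  rw [ENNReal.toReal_add hXf hYf, ENNReal.toReal_add hBf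
    (ENNReal.mul_ne_top ENNReal.ofReal_ne_top ENNReal.ofReal_ne_top), ENNReal.toReal_mul,
    ENNReal.toReal_ofReal (by linarith), ENNReal.toReal_ofReal (by positivity)] at h3
  have h4 := real_ball (0 : ℂ) hρ.le
  simp only [Measure.real] at h4 ⊢
  rw [h4] at h3
  linarith

theorem crescents {X Y : Set ℂ} (hX : MeasurableSet X) (hY : MeasurableSet Y) {y z : ℂ} {d ρ σ : ℝ}
    (hd : dist y z = d) (hσ : 0 < σ) (hσd : σ ≤ d) (hρ : 0 < ρ)
    (hXb : X ⊆ Metric.ball y ρ) (hYb : Y ⊆ Metric.ball z ρ)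
    (hsep : ∀ p ∈ X, ∀ q ∈ Y, σ ≤ dist p q) :
    volume.real X + volume.real Y ≤ Real.pi * ρ ^ 2 + 2 * ρ * (d - σ) := by
  have hd0 : 0 < d := lt_of_lt_of_le hσ hσd
  have hdc : (d : ℂ) ≠ 0 := by exact_mod_cast hd0.ne'
  set u : ℂ := (z - y) / ((d : ℂ) * Complex.I) with hu
  have hun : ‖u‖ = 1 := by
    rw [hu, norm_div, norm_mul, Complex.norm_I, mul_one, Complex.norm_real, Real.norm_eq_abs,
      abs_of_pos hd0, ← dist_eq_norm, dist_comm, hd, div_self hd0.ne']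
  have huz : u * ((d : ℂ) * Complex.I) = z - y := by
    rw [hu, div_mul_cancel₀]
    exact mul_ne_zero hdc Complex.I_ne_zero
  set T : ℂ → ℂ := fun w => u * w + y with hT
  have hTd : ∀ a b, dist (T a) (T b) = dist a b := by
    intro a b
    simp only [hT]
    rw [dist_add_right, dist_eq_norm, ← mul_sub, norm_mul, hun, one_mul, ← dist_eq_norm]
  have hTm : Measurable T := by
    simp only [hT]
    fun_prop
  have hTv : ∀ S : Set ℂ, volume (T ⁻¹' S) = volume S := by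
    intro S
    have h1 : T ⁻¹' S = (fun w : ℂ => u * w) ⁻¹' ((fun w : ℂ => w + y) ⁻¹' S) := rfl
    rw [h1, volume_rot _ u hun, volume_shift]
  have h0 : T 0 = y := by simp [hT]
  have h1 : T ((d : ℂ) * Complex.I) = z := by
    simp only [hT]
    rw [huz]
    ring
  have := crescents0 (X := T ⁻¹' X) (Y := T ⁻¹' Y) (hTm hX) (hTm hY) (d := d) (ρ := ρ) (σ := σ)
    hσ hσd hρ ?_ ?_ ?_
  · simp only [Measure.real] at this ⊢
    rw [hTv, hTv] at this
    exact this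
  · intro w hw
    have := hXb hw
    rw [Metric.mem_ball] at this ⊢
    rw [← h0, hTd] at this
    exact this
  · intro w hw
    have := hYb hw
    rw [Metric.mem_ball] at this ⊢
    rw [← h1, hTd] at this
    exact this
  · intro p hp q hq
    rw [← hTd]
    exact hsep _ hp _ hq

end Pool.Agent.H77.KN
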