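import Pool.Agent.H77.KN.Geo

/-!
# Row DirA (part of Dir) (MP_72793b): the directions

`Um m` = all `m`-th roots of unity in ℂ (`Polynomial.nthRootsFinset m 1`).
* `mem_Um`: `Polynomial.mem_nthRootsFinset`. `card_Um`: `(Complex.isPrimitiveRoot_exp m hm.ne').card_nthRootsFinset`.
* `norm_Um`: `norm_eq_one_of_pow_eq_one`.
* `mul_mem_Um`, `neg_mem_Um` (`m` even).
* `nearest`: for every `v` some `u ∈ Um m` has `cos (π/m) ‖v‖ ≤ dt v u`. Proof: `v = ‖v‖ e^{iθ}` (`Complex.norm_mul_exp_arg_mul_I`), let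
  `j : ℤ` be the integer nearest to `θ m / (2π)` (`round`, `abs_sub_round`), `u = exp (2π i j / m)`; `u^m = 1`;
  `dt v u = ‖v‖ cos (θ - 2π j/m)`, and `|θ - 2π j/m| ≤ π/m`, `Real.cos_le_cos_of_nonneg_of_le_pi` with `Real.cos_abs`. `v = 0` trivial.
* `cone_cos`: `v ∈ Kc m u` implies `cos (π/m) ‖v‖ ≤ dt v u` (by `nearest` and the definition of `Kc`).
* `exists_cone`: every `v` is in some `Kc m u`, `u ∈ Um m` (`Finset.exists_max_image`).
* `kc_rot`: for `u ∈ Um m`: `v ∈ Kc m 1 ↔ u * v ∈ Kc m u` (`dt_mul_mul`, the map `u' ↦ u u'` is a bijection of `Um m`).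
-/

namespace Pool.Agent.H77.KN

open MeasureTheory Finset

theorem mem_Um {m : ℕ} (hm : 0 < m) {u : ℂ} : u ∈ Um m ↔ u ^ m = 1 := by
  unfold Um
  exact Polynomial.mem_nthRootsFinset hm (1 : ℂ)

theorem card_Um {m : ℕ} (hm : 0 < m) : (Um m).card = m := by
  unfold Um
  exact (Complex.isPrimitiveRoot_exp m hm.ne').card_nthRootsFinset

theorem norm_Um {m : ℕ} (hm : 0 < m) {u : ℂ} (hu : u ∈ Um m) : ‖u‖ = 1 :=
  Complex.norm_eq_one_of_pow_eq_one ((mem_Um hm).1 hu) hm.ne'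

theorem mul_mem_Um {m : ℕ} (hm : 0 < m) {u v : ℂ} (hu : u ∈ Um m) (hv : v ∈ Um m) : u * v ∈ Um m := by
  rw [mem_Um hm] at hu hv ⊢
  rw [mul_pow, hu, hv, one_mul]

theorem neg_mem_Um {m : ℕ} (hm : 0 < m) (h2 : 2 ∣ m) {u : ℂ} (hu : u ∈ Um m) : -u ∈ Um m := by
  rw [mem_Um hm] at hu ⊢
  rw [(even_iff_two_dvd.2 h2).neg_pow, hu]

end Pool.Agent.H77.KN
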