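import Pool.Agent.H77.KN.DirA

/-!
# Row DirB (part of Dir) (MP_72793b): the directions

`Um m` = all `m`-th roots of unity in ℂ (`Polynomial.nthRootsFinset m 1`).
* `mem_Um`: `Polynomial.mem_nthRootsFinset`. `card_Um`: `(Complex.isPrimitiveRoot_exp m hm.ne').card_nthRootsFinset`.
* `norm_Um`: `norm_eq_one_of_pow_eq_one`.
* `mul_mem_Um`, `neg_mem_Um` (`m` even).
* `nearest`: for every `v` some `u ∈ Um m` has `cos (π/m) ‖v‖ ≤ dt v u`. Proof: `v = ‖v‖ e^{iθ}` (`Complex.norm_mul_exp_arg_mul_I`), let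
  `j : ℤ` be the integer nearest to `θ m / (2π)` (`round`, `abs_sub_round`), `u = exp (2π i j / m)`; `u^m = 1`;
  `dt v u = ‖v‖ cos (θ - 2π j/m)`, and `|θ - 2π j/m| ≤ π/m`, `Real.cos_le_cos_of_nonneg_of_le_pi` with `Real.cos_abs`. `v = 0` trivial.
* `cone_cos`: `v ∈ Kc m u` implies `cos (π/m) ‖v‖ ≤ dt v u` (by `nearest` and the definition of `Kc`).
* `exists_cone`: every `v` is in some `Kc m u`, `u ∈ Um m` (`Finset.exists_max_image`).
* `kc_rot`: for `u ∈ Um m`: `v ∈ Kc m 1 ↔ u * v ∈ Kc m u` (`dt_mul_mul`, the map `u' ↦ u u'` is a bijection of `Um m`).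
-/

namespace Pool.Agent.H77.KN

open MeasureTheory Finset

theorem DirB_dt (u v w : ℂ) (hu : ‖u‖ = 1) : dt (u * v) (u * w) = dt v w := by
  have h : u.re * u.re + u.im * u.im = 1 := by
    have h1 := Complex.sq_norm u
    rw [hu, Complex.normSq_apply] at h1
    linarith
  unfold dt
  simp only [Complex.mul_re, Complex.mul_im]
  linear_combination (v.re * w.re + v.im * w.im) * h

theorem DirB_near {m : ℕ} (hm : 0 < m) (θ : ℝ) :
    ∃ j : ℤ, Real.cos (Real.pi / m) ≤ Real.cos (θ - 2 * Real.pi * j / m) := by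
  have hm' : (0 : ℝ) < m := by exact_mod_cast hm
  have hm1 : (1 : ℝ) ≤ m := by exact_mod_cast hm
  have hpi := Real.pi_pos
  refine ⟨round (θ * m / (2 * Real.pi)), ?_⟩
  have h1 := abs_sub_round (θ * m / (2 * Real.pi))
  set j := round (θ * m / (2 * Real.pi))
  have h2 : θ - 2 * Real.pi * j / m = (θ * m / (2 * Real.pi) - j) * (2 * Real.pi / m) := by
    field_simp
  have h3 : |θ - 2 * Real.pi * j / m| ≤ Real.pi / m := by
    rw [h2, abs_mul, abs_of_pos (show 0 < 2 * Real.pi / m by positivity)]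
    calc |θ * m / (2 * Real.pi) - j| * (2 * Real.pi / m) ≤ 1 / 2 * (2 * Real.pi / m) :=
          mul_le_mul_of_nonneg_right h1 (by positivity)
      _ = Real.pi / m := by ring
  rw [← Real.cos_abs (θ - 2 * Real.pi * j / m)]
  apply Real.cos_le_cos_of_nonneg_of_le_pi (abs_nonneg _) _ h3
  rw [div_le_iff₀ hm']
  nlinarith

theorem nearest {m : ℕ} (hm : 0 < m) (v : ℂ) : ∃ u ∈ Um m, Real.cos (Real.pi / m) * ‖v‖ ≤ dt v u := by
  obtain ⟨j, hj⟩ := DirB_near hm v.arg
  have hm' : (m : ℂ) ≠ 0 := by exact_mod_cast hm.ne'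
  refine ⟨Complex.exp (((2 * Real.pi * j / m : ℝ) : ℂ) * Complex.I), ?_, ?_⟩
  · rw [mem_Um hm, ← Complex.exp_nat_mul]
    have : (m : ℂ) * (((2 * Real.pi * j / m : ℝ) : ℂ) * Complex.I) =
        (j : ℂ) * (2 * Real.pi * Complex.I) := by
      push_cast
      field_simp
    rw [this, Complex.exp_int_mul_two_pi_mul_I]
  · have h1 : dt v (Complex.exp (((2 * Real.pi * j / m : ℝ) : ℂ) * Complex.I)) =
        ‖v‖ * Real.cos (v.arg - 2 * Real.pi * j / m) := by
      unfold dt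
      rw [Complex.exp_ofReal_mul_I_re, Complex.exp_ofReal_mul_I_im, Real.cos_sub,
        ← Complex.norm_mul_cos_arg v, ← Complex.norm_mul_sin_arg v]
      simp only [Complex.norm_mul_cos_arg, Complex.norm_mul_sin_arg]
      have e1 := Complex.norm_mul_cos_arg v
      have e2 := Complex.norm_mul_sin_arg v
      rw [mul_add, ← mul_assoc, ← mul_assoc, e1, e2]
    rw [h1, mul_comm]
    exact mul_le_mul_of_nonneg_left hj (norm_nonneg _)

theorem cone_cos {m : ℕ} (hm : 0 < m) {u v : ℂ} (hv : v ∈ Kc m u) :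
    Real.cos (Real.pi / m) * ‖v‖ ≤ dt v u := by
  obtain ⟨u', hu', h⟩ := nearest hm v
  exact h.trans (hv u' hu')

theorem exists_cone {m : ℕ} (hm : 0 < m) (v : ℂ) : ∃ u ∈ Um m, v ∈ Kc m u := by
  have hne : (Um m).Nonempty := ⟨1, (mem_Um hm).2 (one_pow m)⟩
  obtain ⟨u, hu, h⟩ := Finset.exists_max_image (Um m) (fun u => dt v u) hne
  exact ⟨u, hu, fun u' hu' => h u' hu'⟩

theorem kc_rot {m : ℕ} (hm : 0 < m) {u : ℂ} (hu : u ∈ Um m) (v : ℂ) : v ∈ Kc m 1 ↔ u * v ∈ Kc m u := by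
  have hn : ‖u‖ = 1 := norm_Um hm hu
  have hu0 : u ≠ 0 := by
    intro h0
    rw [h0, norm_zero] at hn
    exact zero_ne_one hn
  have hinv : u⁻¹ ∈ Um m := by
    rw [mem_Um hm] at hu ⊢
    rw [inv_pow, hu, inv_one]
  have e1 : dt (u * v) u = dt v 1 := by
    have := DirB_dt u v 1 hn
    rwa [mul_one] at this
  constructor
  · intro h u' hu'
    rw [e1]
    have h1 := h (u⁻¹ * u') (mul_mem_Um hm hinv hu')
    have h2 := DirB_dt u v (u⁻¹ * u') hn
    rw [← mul_assoc, mul_inv_cancel₀ hu0, one_mul] at h2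
    rw [h2]
    exact h1
  · intro h u' hu'
    have h1 := h (u * u') (mul_mem_Um hm hu hu')
    rw [DirB_dt u v u' hn, e1] at h1
    exact h1

end Pool.Agent.H77.KN
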