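import Pool.Agent.H77.KN.Geo

/-!
# Row Ff (MP_72793b): the function `ff A = A - 1 - log A` for `A < 1`, `0` for `A ≥ 1` (for `A > 0`)

* `ff_nonneg`: `Real.log_le_sub_one_of_pos`.
* `ff_anti`: for `0 < A ≤ B`: if `B ≥ 1` use `ff_nonneg`; else both `< 1`; `log (B/A) ≥ 1 - A/B = (B-A)/B ≥ B - A`
  (from `Real.log_le_sub_one_of_pos` for `A/B`).
* `ff_line`: for `λ ≥ 1`, `A > 0`: `log λ - (λ - 1) A ≤ ff A`. For `A < 1`: `log (λ A) ≤ λ A - 1`. For `A ≥ 1`: `log λ ≤ λ - 1 ≤ (λ-1) A`.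
* `ff_bonus`: `ff A + φ A ≥ log (1 + φ)`: `ff_line` with `λ = 1 + φ`.
* `ff_two`: `2 * (log λ) - (λ - 1) * S ≤ ff A + ff B` if `A + B ≤ S`, `λ ≥ 1`.
-/

namespace Pool.Agent.H77.KN

open MeasureTheory Finset

theorem Ff_log_le_sub {x : ℝ} (hx : 0 < x) : Real.log x ≤ x - 1 := Real.log_le_sub_one_of_pos hx

theorem ff_nonneg {A : ℝ} (hA : 0 < A) : 0 ≤ ff A := by
  unfold ff
  split_ifs
  · have := Real.log_le_sub_one_of_pos hA
    linarith
  · exact le_refl _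

theorem ff_anti {A B : ℝ} (hA : 0 < A) (hAB : A ≤ B) : ff B ≤ ff A := by
  by_cases hB : B < 1
  · have hB0 : 0 < B := hA.trans_le hAB
    have hA1 : A < 1 := hAB.trans_lt hB
    unfold ff
    rw [if_pos hB, if_pos hA1]
    have h1 : Real.log (A / B) ≤ A / B - 1 := Real.log_le_sub_one_of_pos (div_pos hA hB0)
    rw [Real.log_div hA.ne' hB0.ne'] at h1
    have h2 : A / B ≤ 1 + A - B := by
      rw [div_le_iff₀ hB0]
      nlinarith
    linarith
  · have h0 : ff B = 0 := by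
      unfold ff
      rw [if_neg hB]
    rw [h0]
    exact ff_nonneg hA

theorem ff_line {A l : ℝ} (hA : 0 < A) (hl : 1 ≤ l) : Real.log l - (l - 1) * A ≤ ff A := by
  have hl0 : 0 < l := by linarith
  unfold ff
  split_ifs with h
  · have h1 := Real.log_le_sub_one_of_pos (mul_pos hl0 hA)
    rw [Real.log_mul hl0.ne' hA.ne'] at h1
    nlinarith
  · have h1 := Real.log_le_sub_one_of_pos hl0
    have h2 : 1 ≤ A := not_lt.1 h
    nlinarith

theorem ff_bonus {A φ : ℝ} (hA : 0 < A) (hφ : 0 ≤ φ) : Real.log (1 + φ) ≤ ff A + φ * A := by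
  have h := ff_line hA (show (1 : ℝ) ≤ 1 + φ by linarith)
  have h2 : (1 + φ - 1) * A = φ * A := by ring
  rw [h2] at h
  linarith

theorem ff_two {A B S l : ℝ} (hA : 0 < A) (hB : 0 < B) (hS : A + B ≤ S) (hl : 1 ≤ l) :
    2 * Real.log l - (l - 1) * S ≤ ff A + ff B := by
  have h1 := ff_line hA hl
  have h2 := ff_line hB hl
  have h3 : (l - 1) * (A + B) ≤ (l - 1) * S := mul_le_mul_of_nonneg_left hS (by linarith)
  nlinarith

end Pool.Agent.H77.KN
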