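import Pool.Agent.H77.KN.HullB

/-!
# Row HullC (part of Hull) (MP_72793b): a foreign point in the convex hull forces `2 (k+1)` points

`lens_empty` (pure algebra). `a, b : ℂ`, `A = ‖a‖²`, `B = ‖b‖²`, `κ ≥ 0`, `g = - dt a b ≥ κ/2`, and `L p` an affine function with `L a = A`, `L b = B`,
`L 0 = κ`. If `‖p - a‖ < ‖a‖` and `‖p - b‖ < ‖b‖` then `‖p‖² < L p`.
Proof. The hypotheses say `‖p‖² < 2 dt p a` and `‖p‖² < 2 dt p b`; in particular `p ≠ 0`.
Case 1: `a, b` linearly independent: `p = x a + y b` (Cramer: `x = (p.re b.im - p.im b.re)/det` ...). `dt p a = x A - y g`, `dt p b = y B - x g`,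
both `> 0`. `x, y > 0`: if `x ≤ 0` then `y g < x A ≤ 0` so `y < 0`, and `y B > x g`; then `(-x) A < (-y) g`, `(-y) B < (-x) g`; multiply:
`(-x)(-y) A B < (-x)(-y) g²` (if `x = 0` then `0 < (-y) g` and `(-y) B < 0` contradiction), but `g² ≤ A B` (Cauchy-Schwarz). Symmetric for `y`.
`x (first) + y (second)`: `(x + y) ‖p‖² < 2 (x dt p a + y dt p b) = 2 ‖p‖²`, so `x + y < 2`.
Sum of the hypotheses divided by two: `‖p‖² < dt p a + dt p b = x A + y B - g (x + y)`.
`L p = x A + y B + κ (1 - x - y)`. Need `- g (x+y) ≤ κ - κ (x+y)`, i.e. `(κ - g)(x+y) ≤ κ`: clear if `g ≥ κ`; else `κ - g ≤ κ/2` and `x+y < 2`.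
Case 2: `a, b` dependent (`a.re b.im = a.im b.re`), `dt a b ≤ 0`. If `a = 0` or `b = 0`, `‖p - a‖ < ‖a‖` is false. Otherwise `b = -τ a` with
`τ > 0` (`dt a b = -√(AB) ≠ 0`), and `dt p a > 0`, `dt p b = -τ dt p a > 0` is impossible.

`pair_exists`: `a, b, c` with `l a + m b + n c = 0`, `l, m, n ≥ 0`, `l + m + n = 1`, `κ = l A + m B + n C`: one of `dt a b, dt b c, dt c a` is `≤ -κ/2`.
Proof: `0 = l dt a a + m dt a b + n dt a c` etc. (`dt a 0 = 0`); the sum of the three equations is
`κ + (l+m) dt a b + (m+n) dt b c + (n+l) dt c a = 0` and the weights sum to `2` (`by_contra`, `nlinarith`; note some weight is positive).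

`hull_lens`: `C` finite, `0 ∈ convexHull ℝ C`, `0 ∉ C`: there are `a, b ∈ C` such that no `p ∈ C` has `‖p - a‖ < ‖a‖` and `‖p - b‖ < ‖b‖`.
Proof. (i) If `0 ∈ [a,b]` with `a, b ∈ C` (i.e. `0 = (1-τ) a + τ b`): `dt p a > 0` and `dt p b > 0` are contradictory. So assume this never happens.
(ii) Caratheodory (`convexHull_eq_union` or `eq_pos_convex_span_of_mem_convexHull`): `0` is a convex combination of at most 3 affinely independent
points of `C`; by (i) exactly three, all weights `> 0`. Consider the finite set of all triples `(a,b,c) ∈ C³` such that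
`0 = l a + m b + n c` for some `l, m, n ≥ 0` with sum 1; by (i) `l, m, n > 0` and `a, b, c` are affinely independent (otherwise `0` is on a segment: 
three collinear points whose hull contains 0), so the weights are unique: by Cramer `l = cr b c / Δ`, ... with `cr b c = b.re c.im - b.im c.re`,
`Δ = cr a b + cr b c + cr c a ≠ 0`. Choose a triple with minimal `κ = l A + m B + n C` (choose weights for each triple, `Finset.exists_min_image`).
(iii) Let `L` be the affine function with `L a = A, L b = B, L c = C`; `L 0 = κ`. Claim `L p ≤ ‖p‖²` for all `p ∈ C`. Otherwise `‖p‖² < L p`; write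
`p = α a + β b + γ c`, `α + β + γ = 1`. Some of `α, β, γ` is positive; let `τ = min {l/α, m/β, n/γ}` over the positive ones, `τ > 0`. Then
`0 = τ p + (l - τ α) a + (m - τ β) b + (n - τ γ) c`, all coefficients `≥ 0`, sum 1, and one of the last three is `0`: a triple of `C` with value
`τ ‖p‖² + (l - τα) A + ... = κ + τ (‖p‖² - L p) < κ`: contradiction to minimality.
(iv) `pair_exists` gives a pair of the triple with `dt ≤ -κ/2`; `lens_empty` and (iii) give the claim.

`hull_card` = HullStatement: translate so that `x = 0` (replace everything by `p - x`; or do `hull_lens` for general `x`: `hull_lens'`). For `a, b` of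
`hull_lens`: the sets `{p ∈ C | ∀ f ∈ F, dist a p < dist a f}` and the one for `b` are disjoint (a common `p` has `dist a p < dist a x`,
`dist b p < dist b x`), each has at least `k + 1` elements by `Sep`.
-/

namespace Pool.Agent.H77.KN

open Finset

theorem hull_lens' {C : Finset ℂ} {x : ℂ} (h0 : x ∈ convexHull ℝ (C : Set ℂ)) (hC : x ∉ C) :
    ∃ a ∈ C, ∃ b ∈ C, ∀ p ∈ C, dist a p < dist a x → dist b p < dist b x → False := by
  classical
  have e1 : (0 : ℂ) ∈ convexHull ℝ ((C.image (fun p => p - x) : Finset ℂ) : Set ℂ) := by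
    have h2 := AffineMap.image_convexHull (AffineMap.id ℝ ℂ - AffineMap.const ℝ ℂ x) (C : Set ℂ)
    have h3 : ((C.image (fun p => p - x) : Finset ℂ) : Set ℂ)
        = (AffineMap.id ℝ ℂ - AffineMap.const ℝ ℂ x) '' (C : Set ℂ) := by
      rw [Finset.coe_image]
      apply Set.image_congr
      intro p _
      simp
    rw [h3, ← h2]
    exact ⟨x, h0, by simp⟩
  have e2 : (0 : ℂ) ∉ C.image (fun p => p - x) := by
    intro h
    obtain ⟨p, hp, hpx⟩ := Finset.mem_image.mp h
    have : p = x := sub_eq_zero.mp hpx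
    exact hC (this ▸ hp)
  obtain ⟨a', ha', b', hb', hab⟩ := hull_lens e1 e2
  obtain ⟨a, ha, rfl⟩ := Finset.mem_image.mp ha'
  obtain ⟨b, hb, rfl⟩ := Finset.mem_image.mp hb'
  refine ⟨a, ha, b, hb, ?_⟩
  intro p hp h1 h2
  refine hab (p - x) (Finset.mem_image.mpr ⟨p, hp, rfl⟩) ?_ ?_
  · rw [dist_comm a p, dist_eq_norm, dist_eq_norm] at h1
    have : p - x - (a - x) = p - a := by ring
    rw [this]
    exact h1
  · rw [dist_comm b p, dist_eq_norm, dist_eq_norm] at h2
    have : p - x - (b - x) = p - b := by ring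
    rw [this]
    exact h2

theorem hull_card : HullStatement := by
  classical
  intro k C F x hd hs hxF hx
  have hxC : x ∉ C := fun h => (Finset.disjoint_left.mp hd h) hxF
  obtain ⟨a, ha, b, hb, hab⟩ := hull_lens' hx hxC
  have h1 := hs.1 a ha
  have h2 := hs.1 b hb
  have hdis : Disjoint (C.filter (fun p => ∀ f ∈ F, dist a p < dist a f))
      (C.filter (fun p => ∀ f ∈ F, dist b p < dist b f)) := by
    rw [Finset.disjoint_left]
    intro p hp1 hp2
    rw [Finset.mem_filter] at hp1 hp2
    exact hab p hp1.1 (hp1.2 x hxF) (hp2.2 x hxF)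
  have h3 : ((C.filter (fun p => ∀ f ∈ F, dist a p < dist a f)) ∪
      (C.filter (fun p => ∀ f ∈ F, dist b p < dist b f))).card ≤ C.card := by
    apply Finset.card_le_card
    apply Finset.union_subset (Finset.filter_subset _ _) (Finset.filter_subset _ _)
  rw [Finset.card_union_of_disjoint hdis] at h3
  have h1' : k + 1 ≤ (C.filter (fun p => ∀ f ∈ F, dist a p < dist a f)).card := by
    convert h1
  have h2' : k + 1 ≤ (C.filter (fun p => ∀ f ∈ F, dist b p < dist b f)).card := by
    convert h2
  omega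

end Pool.Agent.H77.KN
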