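import Pool.Agent.H77.KN.WtA

/-!
# Row WtB (part of Wt) (MP_72793b): from tile counts to the costs of regions

`cnt P ι T` = number of points of `P` assigned to a tile of `T`. `N_t = cnt P ι {t}`.
* `cnt_eq_sum`: `cnt P ι T = ∑ t ∈ T, (P.filter (ι · = t)).card` (`Finset.card_eq_sum_card_fiberwise`).
* `cnt_union`: for disjoint `T, T'`.
* `cost_ge`: per tile `s² h(x) ≥ s² (x log g - g + 1)`, `x = N/(s² k)`, because `x log (x/g) - x + g ≥ 0` for `x ≥ 0`, `g > 0`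
  (`x = 0` clear; else `log (g/x) ≤ g/x - 1`), and for `g = 0` we have `x = 0`, `h 0 = 1` (`Real.log 0 = 0`, both sides equal `s²`);
  `s² x = N/k`. Sum over `J`.
* `region_cost`: let `w = s² #TC`, `x = s² #TX`, `α = min x (w/2)`, `y₁ = s² #T1`, `y₂ = s² #T2` (all sets nonempty since their counts are `≥ k > 0`).
  `lX = max 1 (1/α)`, `lW = max 1 (1/(w-α))`, `l₁ = max 1 (1/y₁)`, `l₂ = max 1 (1/y₂)`; so `lX ≥ lW ≥ 1` (as `α ≤ w - α`), `l₁, l₂ ≥ 1`.
  Weights: `g t = 0` on `E`, `lX` on `TX`, `lW` on `TC \ TX`, `max (if t ∈ T1 then l₁ else 1) (if t ∈ T2 then l₂ else 1)` elsewhere.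
  (a) `∑ N_t log (g t) ≥ k (log lX + log lW + log l₁ + log l₂)`:
      on `TC`: `cnt TX * log lX + (cnt TC - cnt TX) log lW ≥ k log lX + k log lW` because `cnt TX ≥ k`, `cnt TC ≥ 2k`, `log lX ≥ log lW ≥ 0`;
      on `T1 ∪ T2`: say `l₁ ≥ l₂` (symmetric otherwise): the sum is `≥ cnt T1 * log l₁ + cnt (T2 \ T1) * log l₂` and
      `cnt T1 + cnt (T2 \ T1) = cnt (T1 ∪ T2) ≥ 2k`, `cnt T1 ≥ k`: same computation.
  (b) `∑_{t ∈ J} s² (g t - 1) ≤ (lX - 1) α + (lW - 1)(w - α) + (l₁ - 1) y₁ + (l₂ - 1) y₂ - s² #E`: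
      on `TC` it is `(lX-1) x + (lW-1)(w-x)`; if `x ≤ w/2` then `α = x`; if `x > w/2` then `α = w/2 = w - α`, `lX = lW` and both are `(lX-1) w`.
      On `T1 ∪ T2`: `max a b - 1 ≤ (a - 1) + (b - 1)` for `a, b ≥ 1`.
  (c) `log (max 1 (1/A)) - (max 1 (1/A) - 1) A = ff A` for `A > 0`.
  So `cost ≥ ff α + ff (w - α) + ff y₁ + ff y₂ + s² #E`.
* `region_cost_one`: the same without `T2`. (Hint: do a general lemma with weights for an optional second set, or apply the same proof with `T2 = ∅`, `l₂ = 1`.)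
* `region_cost_F`: only `T1`; `region_cost_E`: only `E`.
-/

namespace Pool.Agent.H77.KN

open Finset

theorem WtB_ff {A : ℝ} (hA : 0 < A) :
    Real.log (max 1 (1 / A)) - (max 1 (1 / A) - 1) * A = ff A := by
  unfold ff
  split_ifs with h
  · have h1 : (1 : ℝ) ≤ 1 / A := by
      rw [le_div_iff₀ hA]
      linarith
    rw [max_eq_right h1, Real.log_div one_ne_zero hA.ne', Real.log_one]
    have h2 : (1 / A - 1) * A = 1 - A := by
      field_simp
    rw [h2]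
    ring
  · have h1 : 1 / A ≤ (1 : ℝ) := by
      rw [div_le_iff₀ hA]
      linarith [not_lt.1 h]
    rw [max_eq_left h1, Real.log_one]
    ring

theorem WtB_hh {x : ℝ} (hx : 0 ≤ x) : 0 ≤ hh x := by
  have h := WtA_pt (g := 1) hx zero_le_one (fun h => absurd h one_ne_zero)
  rw [Real.log_one] at h
  unfold hh
  linarith

theorem WtB_pos {s : ℝ} {k : ℕ} (hs : 0 < s) (hk : 0 < k) (P : Finset ℂ) (ι : ℂ → ℤ × ℤ)
    {T : Finset (ℤ × ℤ)} (h : k ≤ cnt P ι T) : 0 < s ^ 2 * (T.card : ℝ) := by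
  have h1 : T.Nonempty := by
    rw [Finset.nonempty_iff_ne_empty]
    rintro rfl
    rw [cnt_eq_sum, Finset.sum_empty] at h
    omega
  have h2 : (0 : ℝ) < T.card := by exact_mod_cast h1.card_pos
  positivity

/-- the basic estimate for nested sets -/
theorem WtB_nest {s : ℝ} {k : ℕ} (hs : 0 < s) (hk : 0 < k) (P : Finset ℂ) (ι : ℂ → ℤ × ℤ)
    {T X : Finset (ℤ × ℤ)} (hX : X ⊆ T) {a b : ℝ} (hb : 1 ≤ b) (hab : b ≤ a)
    (cX : k ≤ cnt P ι X) (cT : 2 * k ≤ cnt P ι T) :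
    Real.log a + Real.log b - s ^ 2 * ((X.card : ℝ) * (a - 1) + ((T \ X).card : ℝ) * (b - 1)) ≤
      cost s k P ι T := by
  have hb0 : 0 < b := by linarith
  have ha0 : 0 < a := by linarith
  have hk' : (0 : ℝ) < k := by exact_mod_cast hk
  have h1 := cost_ge hs hk P ι T (fun t => if t ∈ X then a else b)
    (fun t _ => by split_ifs <;> linarith)
    (fun t _ h => by
      exfalso
      split_ifs at h <;> linarith)
  refine le_trans ?_ h1
  have e0 : T = X ∪ (T \ X) := (Finset.union_sdiff_of_subset hX).symm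
  have hd : Disjoint X (T \ X) := Finset.disjoint_sdiff
  have e1 : ∑ t ∈ T, ((P.filter (fun z => ι z = t)).card : ℝ) * Real.log (if t ∈ X then a else b) =
      (cnt P ι X : ℝ) * Real.log a + (cnt P ι (T \ X) : ℝ) * Real.log b := by
    conv_lhs => rw [e0]
    rw [Finset.sum_union hd, cnt_eq_sum, cnt_eq_sum]
    push_cast
    rw [Finset.sum_mul, Finset.sum_mul]
    congr 1
    · refine Finset.sum_congr rfl fun t ht => ?_
      rw [if_pos ht]
    · refine Finset.sum_congr rfl fun t ht => ?_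
      rw [if_neg (Finset.mem_sdiff.1 ht).2]
  have e2 : ∑ t ∈ T, s ^ 2 * ((if t ∈ X then a else b) - 1) =
      s ^ 2 * ((X.card : ℝ) * (a - 1) + ((T \ X).card : ℝ) * (b - 1)) := by
    conv_lhs => rw [e0]
    rw [Finset.sum_union hd]
    have e3 : ∑ t ∈ X, s ^ 2 * ((if t ∈ X then a else b) - 1) = ∑ t ∈ X, s ^ 2 * (a - 1) :=
      Finset.sum_congr rfl fun t ht => by rw [if_pos ht]
    have e4 : ∑ t ∈ T \ X, s ^ 2 * ((if t ∈ X then a else b) - 1) =
        ∑ t ∈ T \ X, s ^ 2 * (b - 1) :=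
      Finset.sum_congr rfl fun t ht => by rw [if_neg (Finset.mem_sdiff.1 ht).2]
    rw [e3, e4, Finset.sum_const, Finset.sum_const, nsmul_eq_mul, nsmul_eq_mul]
    ring
  have e5 : cnt P ι T = cnt P ι X + cnt P ι (T \ X) := by
    rw [cnt_eq_sum, cnt_eq_sum, cnt_eq_sum]
    conv_lhs => rw [e0]
    rw [Finset.sum_union hd]
  have la : Real.log b ≤ Real.log a := Real.log_le_log hb0 hab
  have lb : 0 ≤ Real.log b := Real.log_nonneg hb
  have cX' : (k : ℝ) ≤ cnt P ι X := by exact_mod_cast cX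
  have cT' : 2 * (k : ℝ) ≤ cnt P ι X + cnt P ι (T \ X) := by
    rw [e5] at cT
    exact_mod_cast cT
  have h3 : Real.log a + Real.log b ≤
      ((cnt P ι X : ℝ) * Real.log a + (cnt P ι (T \ X) : ℝ) * Real.log b) / k := by
    rw [le_div_iff₀ hk']
    have h4 : 0 ≤ ((cnt P ι X : ℝ) - k) * (Real.log a - Real.log b) :=
      mul_nonneg (by linarith) (by linarith)
    have h5 : 0 ≤ ((cnt P ι X : ℝ) + cnt P ι (T \ X) - 2 * k) * Real.log b :=
      mul_nonneg (by linarith) lb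
    nlinarith
  have e6 : ∑ t ∈ T, s ^ 2 * ((fun t => if t ∈ X then a else b) t - 1) =
      s ^ 2 * ((X.card : ℝ) * (a - 1) + ((T \ X).card : ℝ) * (b - 1)) := e2
  rw [e6]
  have e7 : ∑ t ∈ T, ((P.filter (fun z => ι z = t)).card : ℝ) *
      Real.log ((fun t => if t ∈ X then a else b) t) =
      (cnt P ι X : ℝ) * Real.log a + (cnt P ι (T \ X) : ℝ) * Real.log b := e1
  rw [e7]
  linarith

theorem WtB_card {T X : Finset (ℤ × ℤ)} (hX : X ⊆ T) :
    ((T \ X).card : ℝ) = T.card - X.card := by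
  rw [Finset.card_sdiff_of_subset hX, Nat.cast_sub (Finset.card_le_card hX)]

theorem WtB_TC {s : ℝ} {k : ℕ} (hs : 0 < s) (hk : 0 < k) (P : Finset ℂ) (ι : ℂ → ℤ × ℤ)
    {TC TX : Finset (ℤ × ℤ)} (hTX : TX ⊆ TC)
    (cX : k ≤ cnt P ι TX) (cC : 2 * k ≤ cnt P ι TC) :
    ff (min (s ^ 2 * TX.card) (s ^ 2 * TC.card / 2))
      + ff (s ^ 2 * TC.card - min (s ^ 2 * TX.card) (s ^ 2 * TC.card / 2)) ≤ cost s k P ι TC := by
  have hx := WtB_pos hs hk P ι cX
  have hw := WtB_pos hs hk P ι (show k ≤ cnt P ι TC by omega)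
  have hcard := WtB_card hTX
  set x : ℝ := s ^ 2 * TX.card with hxd
  set w : ℝ := s ^ 2 * TC.card with hwd
  rcases le_total x (w / 2) with h | h
  · rw [min_eq_left h]
    have hwx : 0 < w - x := by linarith
    have hab : max 1 (1 / (w - x)) ≤ max 1 (1 / x) :=
      max_le_max le_rfl (one_div_le_one_div_of_le hx (by linarith))
    have h1 := WtB_nest hs hk P ι hTX (a := max 1 (1 / x)) (b := max 1 (1 / (w - x)))
      (le_max_left _ _) hab cX cC
    rw [← WtB_ff hx, ← WtB_ff hwx]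
    refine le_trans (le_of_eq ?_) h1
    rw [hcard, hxd, hwd]
    ring
  · rw [min_eq_right h]
    have hw2 : 0 < w / 2 := by linarith
    have h1 := WtB_nest hs hk P ι hTX (a := max 1 (1 / (w / 2))) (b := max 1 (1 / (w / 2)))
      (le_max_left _ _) le_rfl cX cC
    have e : w - w / 2 = w / 2 := by ring
    rw [e, ← WtB_ff hw2]
    refine le_trans (le_of_eq ?_) h1
    rw [hcard, hwd]
    ring

theorem WtB_T {s : ℝ} {k : ℕ} (hs : 0 < s) (hk : 0 < k) (P : Finset ℂ) (ι : ℂ → ℤ × ℤ)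
    {T1 T2 : Finset (ℤ × ℤ)}
    (c1 : k ≤ cnt P ι T1) (c2 : k ≤ cnt P ι T2) (c12 : 2 * k ≤ cnt P ι (T1 ∪ T2))
    (h : s ^ 2 * (T1.card : ℝ) ≤ s ^ 2 * T2.card) :
    ff (s ^ 2 * T1.card) + ff (s ^ 2 * T2.card) ≤ cost s k P ι (T1 ∪ T2) := by
  have h1 := WtB_pos hs hk P ι c1
  have h2 := WtB_pos hs hk P ι c2
  have hab : max 1 (1 / (s ^ 2 * (T2.card : ℝ))) ≤ max 1 (1 / (s ^ 2 * (T1.card : ℝ))) :=
    max_le_max le_rfl (one_div_le_one_div_of_le h1 h)
  have h3 := WtB_nest hs hk P ι (T := T1 ∪ T2) (X := T1) Finset.subset_union_left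
    (le_max_left _ _) hab c1 c12
  rw [← WtB_ff h1, ← WtB_ff h2]
  refine le_trans ?_ h3
  have h4 : (((T1 ∪ T2) \ T1).card : ℝ) ≤ T2.card := by
    have : ((T1 ∪ T2) \ T1) ⊆ T2 := by
      intro t ht
      rw [Finset.mem_sdiff, Finset.mem_union] at ht
      exact ht.1.resolve_left ht.2
    exact_mod_cast Finset.card_le_card this
  have h5 : 0 ≤ max 1 (1 / (s ^ 2 * (T2.card : ℝ))) - 1 := by
    have := le_max_left (1 : ℝ) (1 / (s ^ 2 * (T2.card : ℝ)))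
    linarith
  have h6 : 0 ≤ s ^ 2 * ((T2.card : ℝ) - (((T1 ∪ T2) \ T1).card : ℝ)) *
      (max 1 (1 / (s ^ 2 * (T2.card : ℝ))) - 1) :=
    mul_nonneg (mul_nonneg (by positivity) (by linarith)) h5
  nlinarith

theorem WtB_E {s : ℝ} {k : ℕ} (P : Finset ℂ) (ι : ℂ → ℤ × ℤ)
    {E : Finset (ℤ × ℤ)} (c0 : cnt P ι E = 0) :
    s ^ 2 * (E.card : ℝ) ≤ cost s k P ι E := by
  unfold cost
  have h1 : ∀ t ∈ E, (P.filter (fun z => ι z = t)).card = 0 := by
    rw [cnt_eq_sum] at c0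
    exact fun t ht => (Finset.sum_eq_zero_iff.1 c0) t ht
  have h2 : ∑ t ∈ E, s ^ 2 * hh (((P.filter (fun z => ι z = t)).card : ℝ) / (s ^ 2 * k)) =
      ∑ t ∈ E, s ^ 2 := by
    refine Finset.sum_congr rfl fun t ht => ?_
    rw [h1 t ht]
    unfold hh
    simp
  rw [h2, Finset.sum_const, nsmul_eq_mul, mul_comm]

theorem WtB_mono {s : ℝ} {k : ℕ} (P : Finset ℂ) (ι : ℂ → ℤ × ℤ)
    {T J : Finset (ℤ × ℤ)} (h : T ⊆ J) : cost s k P ι T ≤ cost s k P ι J := by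
  unfold cost
  refine Finset.sum_le_sum_of_subset_of_nonneg h fun t _ _ => ?_
  refine mul_nonneg (by positivity) (WtB_hh ?_)
  positivity

theorem WtB_union {s : ℝ} {k : ℕ} (P : Finset ℂ) (ι : ℂ → ℤ × ℤ)
    {T J : Finset (ℤ × ℤ)} (h : Disjoint T J) :
    cost s k P ι (T ∪ J) = cost s k P ι T + cost s k P ι J := by
  unfold cost
  exact Finset.sum_union h

theorem region_cost {s : ℝ} {k : ℕ} (hs : 0 < s) (hk : 0 < k) (P : Finset ℂ) (ι : ℂ → ℤ × ℤ) {J : Finset (ℤ × ℤ)}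
    {TC TX T1 T2 E : Finset (ℤ × ℤ)} (hTX : TX ⊆ TC) (hTC : TC ⊆ J) (hT1 : T1 ⊆ J) (hT2 : T2 ⊆ J) (hE : E ⊆ J)
    (d1 : Disjoint TC T1) (d2 : Disjoint TC T2) (e0 : Disjoint TC E) (e1 : Disjoint T1 E) (e2 : Disjoint T2 E)
    (c0 : cnt P ι E = 0) (cX : k ≤ cnt P ι TX) (cC : 2 * k ≤ cnt P ι TC)
    (c1 : k ≤ cnt P ι T1) (c2 : k ≤ cnt P ι T2) (c12 : 2 * k ≤ cnt P ι (T1 ∪ T2)) :
    ff (s ^ 2 * T1.card) + ff (s ^ 2 * T2.card)
      + ff (min (s ^ 2 * TX.card) (s ^ 2 * TC.card / 2))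
      + ff (s ^ 2 * TC.card - min (s ^ 2 * TX.card) (s ^ 2 * TC.card / 2)) + s ^ 2 * E.card
      ≤ cost s k P ι J := by
  have h1 : ff (s ^ 2 * T1.card) + ff (s ^ 2 * T2.card) ≤ cost s k P ι (T1 ∪ T2) := by
    rcases le_total (s ^ 2 * (T1.card : ℝ)) (s ^ 2 * T2.card) with h | h
    · exact WtB_T hs hk P ι c1 c2 c12 h
    · have := WtB_T hs hk P ι c2 c1 (by rwa [Finset.union_comm]) h
      rw [Finset.union_comm] at this
      linarith
  have h2 := WtB_TC hs hk P ι hTX cX cC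
  have h3 := WtB_E (s := s) (k := k) P ι c0
  have d3 : Disjoint TC (T1 ∪ T2) := Finset.disjoint_union_right.2 ⟨d1, d2⟩
  have d4 : Disjoint (TC ∪ (T1 ∪ T2)) E :=
    Finset.disjoint_union_left.2 ⟨e0, Finset.disjoint_union_left.2 ⟨e1, e2⟩⟩
  have h4 : cost s k P ι ((TC ∪ (T1 ∪ T2)) ∪ E) ≤ cost s k P ι J :=
    WtB_mono P ι (Finset.union_subset (Finset.union_subset hTC (Finset.union_subset hT1 hT2)) hE)
  rw [WtB_union P ι d4, WtB_union P ι d3] at h4
  linarith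

end Pool.Agent.H77.KN
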