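import Pool.Agent.H77.KN.WtA

/-!
# Row WtC (part of Wt) (MP_72793b): from tile counts to the costs of regions

`cnt P ι T` = number of points of `P` assigned to a tile of `T`. `N_t = cnt P ι {t}`.
* `cnt_eq_sum`: `cnt P ι T = ∑ t ∈ T, (P.filter (ι · = t)).card` (`Finset.card_eq_sum_card_fiberwise`).
* `cnt_union`: for disjoint `T, T'`.
* `cost_ge`: per tile `s² h(x) ≥ s² (x log g - g + 1)`, `x = N/(s² k)`, because `x log (x/g) - x + g ≥ 0` for `x ≥ 0`, `g > 0`
  (`x = 0` clear; else `log (g/x) ≤ g/x - 1`), and for `g = 0` we have `x = 0`, `h 0 = 1` (`Real.log 0 = 0`, both sides equal `s²`);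
  `s² x = N/k`. Sum over `J`.
* `region_cost`: let `w = s² #TC`, `x = s² #TX`, `α = min x (w/2)`, `y₁ = s² #T1`, `y₂ = s² #T2` (all sets nonempty since their counts are `≥ k > 0`).
  `lX = max 1 (1/α)`, `lW = max 1 (1/(w-α))`, `l₁ = max 1 (1/y₁)`, `l₂ = max 1 (1/y₂)`; so `lX ≥ lW ≥ 1` (as `α ≤ w - α`), `l₁, l₂ ≥ 1`.
  Weights: `g t = 0` on `E`, `lX` on `TX`, `lW` on `TC \ TX`, `max (if t ∈ T1 then l₁ else 1) (if t ∈ T2 then l₂ else 1)` elsewhere.
  (a) `∑ N_t log (g t) ≥ k (log lX + log lW + log l₁ + log l₂)`: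
      on `TC`: `cnt TX * log lX + (cnt TC - cnt TX) log lW ≥ k log lX + k log lW` because `cnt TX ≥ k`, `cnt TC ≥ 2k`, `log lX ≥ log lW ≥ 0`;
      on `T1 ∪ T2`: say `l₁ ≥ l₂` (symmetric otherwise): the sum is `≥ cnt T1 * log l₁ + cnt (T2 \ T1) * log l₂` and
      `cnt T1 + cnt (T2 \ T1) = cnt (T1 ∪ T2) ≥ 2k`, `cnt T1 ≥ k`: same computation.
  (b) `∑_{t ∈ J} s² (g t - 1) ≤ (lX - 1) α + (lW - 1)(w - α) + (l₁ - 1) y₁ + (l₂ - 1) y₂ - s² #E`:
      on `TC` it is `(lX-1) x + (lW-1)(w-x)`; if `x ≤ w/2` then `α = x`; if `x > w/2` then `α = w/2 = w - α`, `lX = lW` and both are `(lX-1) w`.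
      On `T1 ∪ T2`: `max a b - 1 ≤ (a - 1) + (b - 1)` for `a, b ≥ 1`.
  (c) `log (max 1 (1/A)) - (max 1 (1/A) - 1) A = ff A` for `A > 0`.
  So `cost ≥ ff α + ff (w - α) + ff y₁ + ff y₂ + s² #E`.
* `region_cost_one`: the same without `T2`. (Hint: do a general lemma with weights for an optional second set, or apply the same proof with `T2 = ∅`, `l₂ = 1`.)
* `region_cost_F`: only `T1`; `region_cost_E`: only `E`.
-/

namespace Pool.Agent.H77.KN

open Finset

theorem WtC_core {s : ℝ} {k : ℕ} (hs : 0 < s) (hk : 0 < k) (P : Finset ℂ) (ι : ℂ → ℤ × ℤ) {J : Finset (ℤ × ℤ)}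
    {TC TX T1 E : Finset (ℤ × ℤ)} (hTX : TX ⊆ TC) (hTC : TC ⊆ J) (hT1 : T1 ⊆ J) (hE : E ⊆ J)
    (d1 : Disjoint TC T1) (e0 : Disjoint TC E) (e1 : Disjoint T1 E)
    (c0 : cnt P ι E = 0) {lX lW l1 : ℝ} (hX : 1 ≤ lX) (hW : 1 ≤ lW) (h1 : 1 ≤ l1) :
    ((Real.log lX - Real.log lW) * (cnt P ι TX : ℝ) + Real.log lW * (cnt P ι TC : ℝ)
        + Real.log l1 * (cnt P ι T1 : ℝ)) / k
      - (s ^ 2 * (lX - lW) * (TX.card : ℝ) + s ^ 2 * (lW - 1) * (TC.card : ℝ) + s ^ 2 * (l1 - 1) * (T1.card : ℝ)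
        - s ^ 2 * (E.card : ℝ)) ≤ cost s k P ι J := by
  classical
  set g : ℤ × ℤ → ℝ := fun t => if t ∈ E then 0 else if t ∈ TX then lX else if t ∈ TC then lW
    else if t ∈ T1 then l1 else 1 with hg
  have hg0 : ∀ t ∈ J, 0 ≤ g t := by
    intro t _
    simp only [hg]
    split_ifs <;> linarith
  have hgz : ∀ t ∈ J, g t = 0 → (P.filter (fun z => ι z = t)).card = 0 := by
    intro t _ h0
    by_cases hE' : t ∈ E
    · have h2 : cnt P ι E = ∑ t ∈ E, (P.filter (fun z => ι z = t)).card := cnt_eq_sum P ι E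
      rw [c0] at h2
      exact (Finset.sum_eq_zero_iff.mp h2.symm) t hE'
    · exfalso
      simp only [hg, hE', if_false] at h0
      split_ifs at h0 <;> linarith
  have key := cost_ge hs hk P ι J g hg0 hgz
  refine le_trans (le_of_eq ?_) key
  have cs : ∀ T : Finset (ℤ × ℤ), (cnt P ι T : ℝ) = ∑ t ∈ T, ((P.filter (fun z => ι z = t)).card : ℝ) := by
    intro T
    rw [cnt_eq_sum]
    push_cast
    rfl
  have sub : ∀ (T : Finset (ℤ × ℤ)) (f : ℤ × ℤ → ℝ), T ⊆ J →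
      ∑ t ∈ T, f t = ∑ t ∈ J, (if t ∈ T then f t else 0) := by
    intro T f hT
    rw [Finset.sum_ite_mem, Finset.inter_eq_right.mpr hT]
  have hcard : ∀ (T : Finset (ℤ × ℤ)), T ⊆ J →
      (T.card : ℝ) = ∑ t ∈ J, (if t ∈ T then (1 : ℝ) else 0) := by
    intro T hT
    rw [← sub T (fun _ => (1 : ℝ)) hT]
    simp
  have m1 : ∀ t, t ∈ E → t ∉ TC := fun t ht ht' => (Finset.disjoint_left.mp e0 ht' ht)
  have m2 : ∀ t, t ∈ E → t ∉ T1 := fun t ht ht' => (Finset.disjoint_left.mp e1 ht' ht)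
  have m3 : ∀ t, t ∈ TC → t ∉ T1 := fun t ht ht' => (Finset.disjoint_left.mp d1 ht ht')
  have m4 : ∀ t, t ∉ TC → t ∉ TX := fun t ht ht' => ht (hTX ht')
  have A : ∑ t ∈ J, ((P.filter (fun z => ι z = t)).card : ℝ) * Real.log (g t)
      = (Real.log lX - Real.log lW) * (cnt P ι TX : ℝ) + Real.log lW * (cnt P ι TC : ℝ)
        + Real.log l1 * (cnt P ι T1 : ℝ) := by
    rw [cs, cs, cs, sub TX _ (hTX.trans hTC), sub TC _ hTC, sub T1 _ hT1, Finset.mul_sum, Finset.mul_sum,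
      Finset.mul_sum, ← Finset.sum_add_distrib, ← Finset.sum_add_distrib]
    apply Finset.sum_congr rfl
    intro t _
    simp only [hg]
    by_cases q1 : t ∈ E
    · have q2 := m1 t q1
      have q3 := m2 t q1
      have q4 := m4 t q2
      simp [q1, q2, q3, q4]
    · by_cases q2 : t ∈ TC
      · have q3 := m3 t q2
        by_cases q4 : t ∈ TX
        · simp only [q1, q2, q3, q4, if_true, if_false]
          ring
        · simp only [q1, q2, q3, q4, if_true, if_false]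
          ring
      · have q4 := m4 t q2
        by_cases q3 : t ∈ T1
        · simp only [q1, q2, q3, q4, if_true, if_false]
          ring
        · simp [q1, q2, q3, q4]
  have B : ∑ t ∈ J, s ^ 2 * (g t - 1)
      = s ^ 2 * (lX - lW) * (TX.card : ℝ) + s ^ 2 * (lW - 1) * (TC.card : ℝ) + s ^ 2 * (l1 - 1) * (T1.card : ℝ)
        - s ^ 2 * (E.card : ℝ) := by
    rw [hcard TX (hTX.trans hTC), hcard TC hTC, hcard T1 hT1, hcard E hE, Finset.mul_sum, Finset.mul_sum,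
      Finset.mul_sum, Finset.mul_sum, ← Finset.sum_add_distrib, ← Finset.sum_add_distrib, ← Finset.sum_sub_distrib]
    apply Finset.sum_congr rfl
    intro t _
    simp only [hg]
    by_cases q1 : t ∈ E
    · have q2 := m1 t q1
      have q3 := m2 t q1
      have q4 := m4 t q2
      simp [q1, q2, q3, q4]
    · by_cases q2 : t ∈ TC
      · have q3 := m3 t q2
        by_cases q4 : t ∈ TX
        · simp only [q1, q2, q3, q4, if_true, if_false]
          ring
        · simp only [q1, q2, q3, q4, if_true, if_false]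
          ring
      · have q4 := m4 t q2
        by_cases q3 : t ∈ T1
        · simp only [q1, q2, q3, q4, if_true, if_false]
          ring
        · simp [q1, q2, q3, q4]
  rw [A, B]

theorem WtC_ff {A : ℝ} (hA : 0 < A) :
    ff A = Real.log (max 1 (1 / A)) - (max 1 (1 / A) - 1) * A := by
  unfold ff
  by_cases h : A < 1
  · rw [if_pos h]
    have h1 : (1 : ℝ) ≤ 1 / A := by
      rw [le_div_iff₀ hA]
      linarith
    rw [max_eq_right h1, one_div, Real.log_inv]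
    field_simp
    ring
  · rw [if_neg h]
    have h1 : 1 / A ≤ (1 : ℝ) := by
      rw [div_le_one hA]
      linarith
    rw [max_eq_left h1]
    simp

theorem WtC_card {k : ℕ} (hk : 0 < k) (P : Finset ℂ) (ι : ℂ → ℤ × ℤ) {T : Finset (ℤ × ℤ)}
    (c : k ≤ cnt P ι T) : (0 : ℝ) < (T.card : ℝ) := by
  have h : T.Nonempty := by
    by_contra h
    rw [Finset.not_nonempty_iff_eq_empty] at h
    rw [h, cnt_eq_sum] at c
    simp at c
    omega
  have := Finset.card_pos.mpr h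
  exact_mod_cast this

theorem region_cost_one {s : ℝ} {k : ℕ} (hs : 0 < s) (hk : 0 < k) (P : Finset ℂ) (ι : ℂ → ℤ × ℤ) {J : Finset (ℤ × ℤ)}
    {TC TX T1 E : Finset (ℤ × ℤ)} (hTX : TX ⊆ TC) (hTC : TC ⊆ J) (hT1 : T1 ⊆ J) (hE : E ⊆ J)
    (d1 : Disjoint TC T1) (e0 : Disjoint TC E) (e1 : Disjoint T1 E)
    (c0 : cnt P ι E = 0) (cX : k ≤ cnt P ι TX) (cC : 2 * k ≤ cnt P ι TC) (c1 : k ≤ cnt P ι T1) :
    ff (s ^ 2 * T1.card)
      + ff (min (s ^ 2 * TX.card) (s ^ 2 * TC.card / 2))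
      + ff (s ^ 2 * TC.card - min (s ^ 2 * TX.card) (s ^ 2 * TC.card / 2)) + s ^ 2 * E.card
      ≤ cost s k P ι J := by
  have hk' : (0 : ℝ) < (k : ℝ) := by exact_mod_cast hk
  have hs2 : 0 < s ^ 2 := by positivity
  have hX0 : (0 : ℝ) < (TX.card : ℝ) := WtC_card hk P ι cX
  have hC0 : (0 : ℝ) < (TC.card : ℝ) := WtC_card hk P ι (le_trans (by omega) cC)
  have h10 : (0 : ℝ) < (T1.card : ℝ) := WtC_card hk P ι c1
  set x : ℝ := s ^ 2 * (TX.card : ℝ) with hx
  set w : ℝ := s ^ 2 * (TC.card : ℝ) with hw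
  set y : ℝ := s ^ 2 * (T1.card : ℝ) with hy
  have hxp : 0 < x := by positivity
  have hwp : 0 < w := by positivity
  have hyp : 0 < y := by positivity
  set α : ℝ := min x (w / 2) with hα
  have hαp : 0 < α := lt_min hxp (by linarith)
  have hα2 : α ≤ w / 2 := min_le_right _ _
  have hwα : 0 < w - α := by linarith
  have hαw : α ≤ w - α := by linarith
  set lX : ℝ := max 1 (1 / α) with hlX
  set lW : ℝ := max 1 (1 / (w - α)) with hlW
  set l1 : ℝ := max 1 (1 / y) with hl1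
  have bX : 1 ≤ lX := le_max_left _ _
  have bW : 1 ≤ lW := le_max_left _ _
  have b1 : 1 ≤ l1 := le_max_left _ _
  have bWX : lW ≤ lX := by
    apply max_le_max (le_refl _)
    exact one_div_le_one_div_of_le hαp hαw
  have core := WtC_core hs hk P ι hTX hTC hT1 hE d1 e0 e1 c0 bX bW b1
  rw [WtC_ff hαp, WtC_ff hwα, WtC_ff hyp]
  rw [← hlX, ← hlW, ← hl1]
  have L1 : 0 ≤ Real.log lW := Real.log_nonneg bW
  have L2 : Real.log lW ≤ Real.log lX := Real.log_le_log (by linarith) bWX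
  have L3 : 0 ≤ Real.log l1 := Real.log_nonneg b1
  have cX' : (k : ℝ) ≤ (cnt P ι TX : ℝ) := by exact_mod_cast cX
  have cC' : 2 * (k : ℝ) ≤ (cnt P ι TC : ℝ) := by exact_mod_cast cC
  have c1' : (k : ℝ) ≤ (cnt P ι T1 : ℝ) := by exact_mod_cast c1
  have F : Real.log lX + Real.log lW + Real.log l1
      ≤ ((Real.log lX - Real.log lW) * (cnt P ι TX : ℝ) + Real.log lW * (cnt P ι TC : ℝ)
        + Real.log l1 * (cnt P ι T1 : ℝ)) / k := by
    rw [le_div_iff₀ hk']
    have e1 : (Real.log lX - Real.log lW) * (k : ℝ) ≤ (Real.log lX - Real.log lW) * (cnt P ι TX : ℝ) :=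
      mul_le_mul_of_nonneg_left cX' (by linarith)
    have e2 : Real.log lW * (2 * (k : ℝ)) ≤ Real.log lW * (cnt P ι TC : ℝ) :=
      mul_le_mul_of_nonneg_left cC' L1
    have e3 : Real.log l1 * (k : ℝ) ≤ Real.log l1 * (cnt P ι T1 : ℝ) :=
      mul_le_mul_of_nonneg_left c1' L3
    nlinarith
  have G : s ^ 2 * (lX - lW) * (TX.card : ℝ) + s ^ 2 * (lW - 1) * (TC.card : ℝ)
      = (lX - 1) * α + (lW - 1) * (w - α) := by
    have G1 : s ^ 2 * (lX - lW) * (TX.card : ℝ) + s ^ 2 * (lW - 1) * (TC.card : ℝ)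
        = (lX - lW) * x + (lW - 1) * w := by
      rw [hx, hw]
      ring
    rw [G1]
    rcases le_total x (w / 2) with h | h
    · have : α = x := min_eq_left h
      rw [this]
      ring
    · have h2 : α = w / 2 := min_eq_right h
      have h3 : w - α = α := by rw [h2]; ring
      have h4 : lW = lX := by rw [hlW, hlX, h3]
      rw [h4, h3, h2]
      ring
  have G2 : s ^ 2 * (l1 - 1) * (T1.card : ℝ) = (l1 - 1) * y := by
    rw [hy]
    ring
  rw [G2] at core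
  linarith

theorem region_cost_F {s : ℝ} {k : ℕ} (hs : 0 < s) (hk : 0 < k) (P : Finset ℂ) (ι : ℂ → ℤ × ℤ) {J : Finset (ℤ × ℤ)}
    {T1 : Finset (ℤ × ℤ)} (hT1 : T1 ⊆ J) (c1 : k ≤ cnt P ι T1) :
    ff (s ^ 2 * T1.card) ≤ cost s k P ι J := by
  have hk' : (0 : ℝ) < (k : ℝ) := by exact_mod_cast hk
  have h10 : (0 : ℝ) < (T1.card : ℝ) := WtC_card hk P ι c1
  have hyp : 0 < s ^ 2 * (T1.card : ℝ) := by positivity
  have c0 : cnt P ι ∅ = 0 := by
    rw [cnt_eq_sum]
    simp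
  have b1 : 1 ≤ max 1 (1 / (s ^ 2 * (T1.card : ℝ))) := le_max_left _ _
  have core := WtC_core hs hk P ι (TX := ∅) (TC := ∅) (E := ∅) (Finset.Subset.refl _) (Finset.empty_subset _) hT1
    (Finset.empty_subset _) (Finset.disjoint_empty_left _) (Finset.disjoint_empty_left _)
    (Finset.disjoint_empty_right _) c0 (le_refl 1) (le_refl 1) b1
  rw [WtC_ff hyp]
  have L3 : 0 ≤ Real.log (max 1 (1 / (s ^ 2 * (T1.card : ℝ)))) := Real.log_nonneg b1
  have c1' : (k : ℝ) ≤ (cnt P ι T1 : ℝ) := by exact_mod_cast c1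
  have e3 : Real.log (max 1 (1 / (s ^ 2 * (T1.card : ℝ)))) ≤
      (Real.log (max 1 (1 / (s ^ 2 * (T1.card : ℝ)))) * (cnt P ι T1 : ℝ)) / k := by
    rw [le_div_iff₀ hk']
    exact mul_le_mul_of_nonneg_left c1' L3
  simp only [sub_self, zero_mul, mul_zero, zero_add, Real.log_one, Finset.card_empty, Nat.cast_zero, sub_zero] at core
  linarith

theorem region_cost_E {s : ℝ} {k : ℕ} (hs : 0 < s) (hk : 0 < k) (P : Finset ℂ) (ι : ℂ → ℤ × ℤ) {J : Finset (ℤ × ℤ)}
    {E : Finset (ℤ × ℤ)} (hE : E ⊆ J) (c0 : cnt P ι E = 0) :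
    s ^ 2 * E.card ≤ cost s k P ι J := by
  have core := WtC_core hs hk P ι (TX := ∅) (TC := ∅) (T1 := ∅) (Finset.Subset.refl _) (Finset.empty_subset _)
    (Finset.empty_subset _) hE (Finset.disjoint_empty_left _) (Finset.disjoint_empty_left _)
    (Finset.disjoint_empty_left _) c0 (le_refl 1) (le_refl 1) (le_refl 1)
  simp only [sub_self, zero_mul, mul_zero, zero_add, Real.log_one, zero_div, zero_sub, neg_neg, Finset.card_empty, Nat.cast_zero] at core
  linarith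

end Pool.Agent.H77.KN
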