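import Pool.Agent.H77.KN.Mgt
import Pool.Agent.H77.KN.WtB
import Pool.Agent.H77.KN.WtC
import Pool.Agent.H77.KN.CellA
import Pool.Agent.H77.KN.CellB
import Pool.Agent.H77.KN.HullC

/-!
# MP_72793b: the cost inequality (assembly)
-/

namespace Pool.Agent.H77.KN

open MeasureTheory Finset

theorem exists_cp {C F : Finset ℂ} (hC : C.Nonempty) (hF : F.Nonempty) : ∃ y z, Cp C F y z (dist y z) := by
  obtain ⟨⟨y, z⟩, hq, hmin⟩ := (C ×ˢ F).exists_min_image (fun q => dist q.1 q.2) (hC.product hF)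
  rw [mem_product] at hq
  refine ⟨y, z, hq.1, hq.2, rfl, fun c hc f hf => ?_⟩
  exact hmin (c, f) (mem_product.2 ⟨hc, hf⟩)

theorem log281_le : Real.log 28.1 ≤ 3.34 := by
  have h := log2811_le
  have : Real.log 28.1 ≤ Real.log 28.11 := Real.log_le_log (by norm_num) (by norm_num)
  linarith

theorem card_le_cnt {P A : Finset ℂ} {ι : ℂ → ℤ × ℤ} (hA : A ⊆ P) {T : Finset (ℤ × ℤ)} (hT : A.image ι ⊆ T) :
    A.card ≤ cnt P ι T := by
  unfold cnt
  apply card_le_card
  intro a ha
  rw [mem_filter]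
  exact ⟨hA ha, hT (mem_image_of_mem _ ha)⟩

/-- the set of empty tiles of `J` -/
noncomputable def Et (P : Finset ℂ) (ι : ℂ → ℤ × ℤ) (J : Finset (ℤ × ℤ)) : Finset (ℤ × ℤ) :=
  J.filter (fun t => ∀ z ∈ P, ι z ≠ t)

theorem cnt_Et (P : Finset ℂ) (ι : ℂ → ℤ × ℤ) (J : Finset (ℤ × ℤ)) : cnt P ι (Et P ι J) = 0 := by
  unfold cnt
  rw [card_eq_zero, filter_eq_empty_iff]
  intro z hz hz2
  exact (mem_filter.1 hz2).2 z hz rfl

theorem disj_Et {P A : Finset ℂ} {ι : ℂ → ℤ × ℤ} {J : Finset (ℤ × ℤ)} (hA : A ⊆ P) :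
    Disjoint (A.image ι) (Et P ι J) := by
  rw [disjoint_left]
  intro t ht ht2
  obtain ⟨a, ha, rfl⟩ := mem_image.1 ht
  exact (mem_filter.1 ht2).2 a (hA ha) rfl

theorem vp_sub {C F : Finset ℂ} {ι : ℂ → ℤ × ℤ} {J : Finset (ℤ × ℤ)} {s : ℝ} (hs : 0 < s) (hs0 : s ≤ s0)
    (hι : ∀ z ∈ C ∪ F, z ∈ tile s (ι z))
    (hJ : ∀ t : ℤ × ℤ, (∃ c ∈ C, ∃ z ∈ tile s t, dist c z ≤ 5) → t ∈ J) :
    Vp C F ⊆ cells s (C.image ι ∪ Et (C ∪ F) ι J) := by
  intro p hp
  obtain ⟨⟨c, hc, hpc⟩, hpf⟩ := hp
  show cidx s p ∈ C.image ι ∪ Et (C ∪ F) ι J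
  by_cases h : ∃ z ∈ C ∪ F, ι z = cidx s p
  · obtain ⟨z, hz, hzt⟩ := h
    have hz1 := hι z hz
    rw [hzt] at hz1
    have hd := tile_dist hs hs0 (cells_tile hs p) hz1
    rcases mem_union.1 hz with hzC | hzF
    · exact mem_union_left _ (mem_image.2 ⟨z, hzC, hzt⟩)
    · exact absurd hd (not_le.2 (hpf z hzF))
  · push Not at h
    apply mem_union_right
    unfold Et
    rw [mem_filter]
    refine ⟨hJ _ ⟨c, hc, p, cells_tile hs p, ?_⟩, fun z hz => h z hz⟩
    rw [dist_comm]; linarith

theorem vp_le {C F : Finset ℂ} {ι : ℂ → ℤ × ℤ} {J : Finset (ℤ × ℤ)} {s : ℝ} (hs : 0 < s) (hs0 : s ≤ s0)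
    (hι : ∀ z ∈ C ∪ F, z ∈ tile s (ι z))
    (hJ : ∀ t : ℤ × ℤ, (∃ c ∈ C, ∃ z ∈ tile s t, dist c z ≤ 5) → t ∈ J) :
    volume.real (Vp C F) - volume.real (cells s (C.image ι)) ≤ s ^ 2 * (Et (C ∪ F) ι J).card := by
  have h1 : volume.real (Vp C F) ≤ volume.real (cells s (C.image ι ∪ Et (C ∪ F) ι J)) :=
    measureReal_mono (vp_sub hs hs0 hι hJ) (cells_bounded hs _).measure_lt_top.ne
  rw [cells_vol hs] at h1 ⊢
  have h2 : ((C.image ι ∪ Et (C ∪ F) ι J).card : ℝ) ≤ (C.image ι).card + (Et (C ∪ F) ι J).card := by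
    exact_mod_cast card_union_le _ _
  have h3 : s ^ 2 * ((C.image ι ∪ Et (C ∪ F) ι J).card : ℝ)
      ≤ s ^ 2 * ((C.image ι).card + (Et (C ∪ F) ι J).card) := mul_le_mul_of_nonneg_left h2 (sq_nonneg s)
  linarith

/-- **COST.** -/
theorem cost_main : CostStatement := by
  classical
  intro s k C F ι J hs hs0 hk hF hCF hsep hcard hι hJ
  have hdl : dl = 2 / 10 ^ 9 := rfl
  have hpi1 : (3.14 : ℝ) < Real.pi := Real.pi_gt_d2
  have hpi2 : Real.pi < (3.15 : ℝ) := Real.pi_lt_d2
  have hC : C.Nonempty := by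
    rw [← card_pos]; omega
  obtain ⟨y, z, h⟩ := exists_cp hC hF
  set d := dist y z with hdef
  set P := C ∪ F with hP
  have hCP : C ⊆ P := subset_union_left
  have hFP : F ⊆ P := subset_union_right
  -- the groups
  set GX := C.filter (fun p => dist p y < d) with hGX
  set G1 := F.filter (fun p => dist p z < d) with hG1
  have cX : k + 1 ≤ GX.card := by
    refine (hsep.1 y h.hy).trans (card_le_card ?_)
    intro p hp
    rw [mem_filter] at hp ⊢
    refine ⟨hp.1, ?_⟩
    rw [dist_comm]; exact hp.2 z h.hz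
  have c1 : k + 1 ≤ G1.card := by
    refine (hsep.2 z h.hz).trans (card_le_card ?_)
    intro p hp
    rw [mem_filter] at hp ⊢
    refine ⟨hp.1, ?_⟩
    have := hp.2 y h.hy
    rw [dist_comm z y] at this
    rw [dist_comm]; exact this
  set TC := C.image ι with hTC
  set TX := GX.image ι with hTX
  set T1 := G1.image ι with hT1
  have hTXC : TX ⊆ TC := image_subset_image (filter_subset _ _)
  have inJ : ∀ a ∈ P, (∃ c ∈ C, dist c a ≤ 5) → ι a ∈ J := by
    intro a ha ⟨c, hc, hca⟩
    exact hJ _ ⟨c, hc, a, hι a ha, hca⟩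
  have hTCJ : TC ⊆ J := by
    intro t ht
    obtain ⟨a, ha, rfl⟩ := mem_image.1 ht
    exact inJ a (hCP ha) ⟨a, ha, by rw [dist_self]; norm_num⟩
  have hιC : ∀ z ∈ C, z ∈ tile s (ι z) := fun z hz => hι z (hCP hz)
  have hιF : ∀ z ∈ F, z ∈ tile s (ι z) := fun z hz => hι z (hFP hz)
  have nX : k ≤ cnt P ι TX := by
    have := card_le_cnt (P := P) (ι := ι) (A := GX) (T := TX) ((filter_subset _ _).trans hCP) (Subset.refl _)
    omega
  have nC : 2 * k ≤ cnt P ι TC := by
    have := card_le_cnt (P := P) (ι := ι) hCP (Subset.refl TC)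
    omega
  have n1 : k ≤ cnt P ι T1 := by
    have := card_le_cnt (P := P) (ι := ι) (A := G1) (T := T1) ((filter_subset _ _).trans hFP) (Subset.refl _)
    omega
  -- the cells
  have hW : cells s TC ⊆ nb C dl := cells_nb hs hs0 hιC
  have hXs : cells s TX ⊆ {p : ℂ | ∃ a ∈ C, dist a y < d ∧ dist p a ≤ dl} := by
    intro p hp
    obtain ⟨a, ha, hpa⟩ := cells_nb hs hs0 (A := GX) (fun z hz => hιC z (mem_of_mem_filter z hz)) hp
    rw [hGX, mem_filter] at ha
    exact ⟨a, ha.1, ha.2, hpa⟩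
  have hYs : cells s T1 ⊆ {p : ℂ | ∃ a ∈ F, dist a z < d ∧ dist p a ≤ dl} := by
    intro p hp
    obtain ⟨a, ha, hpa⟩ := cells_nb hs hs0 (A := G1) (fun z hz => hιF z (mem_of_mem_filter z hz)) hp
    rw [hG1, mem_filter] at ha
    exact ⟨a, ha.1, ha.2, hpa⟩
  have pos_of : ∀ T : Finset (ℤ × ℤ), k ≤ cnt P ι T → 0 < s ^ 2 * (T.card : ℝ) := by
    intro T hT
    have : 0 < T.card := by
      rw [card_pos]
      by_contra hcon
      rw [not_nonempty_iff_eq_empty] at hcon
      rw [hcon] at hT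
      simp [cnt] at hT
      omega
    have : (0 : ℝ) < T.card := by exact_mod_cast this
    positivity
  have hlog := log281_le
  rcases lt_or_ge d (1 / 20) with hd1 | hd1
  · -- small distance: one dense group suffices
    have hT1J : T1 ⊆ J := by
      intro t ht
      obtain ⟨a, ha, rfl⟩ := mem_image.1 ht
      rw [hG1, mem_filter] at ha
      refine inJ a (hFP ha.1) ⟨y, h.hy, ?_⟩
      calc dist y a ≤ dist y z + dist z a := dist_triangle _ _ _
        _ ≤ d + d := by
            have := ha.2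
            rw [dist_comm a z] at this
            linarith
        _ ≤ 5 := by linarith
    have hcost := region_cost_F hs hk P ι hT1J n1
    refine le_trans ?_ hcost
    have hvol : s ^ 2 * (T1.card : ℝ) ≤ 0.008 := by
      rw [← cells_vol hs]
      have hsub : cells s T1 ⊆ Metric.ball z (d + dl) := x_ball hYs
      have := measureReal_mono hsub (μ := volume) measure_ball_lt_top.ne
      rw [real_ball z (by have := dl_pos; have := dist_nonneg (x := y) (y := z); linarith)] at this
      refine this.trans ?_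
      have h0 : 0 ≤ d := dist_nonneg
      have h1 : (d + dl) ^ 2 ≤ 0.0501 ^ 2 := by
        apply pow_le_pow_left₀ (by have := dl_pos; linarith)
        rw [hdl]; linarith
      nlinarith [Real.pi_pos]
    have hff := ff_anti (pos_of T1 n1) hvol
    refine le_trans ?_ hff
    have hval : ff 0.008 = 0.008 - 1 - Real.log 0.008 := by
      unfold ff; rw [if_pos (by norm_num)]
    rw [hval]
    have h5 : Real.log 0.008 = - (3 * Real.log 5) := by
      rw [show (0.008 : ℝ) = ((5 : ℝ) ^ 3)⁻¹ by norm_num, Real.log_inv, Real.log_pow]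
      push_cast; ring
    have h6 : 1.5 ≤ Real.log 5 := by
      rw [Real.le_log_iff_exp_le (by norm_num)]
      have h7 : Real.exp 1.5 ^ 2 ≤ 5 ^ 2 := by
        rw [← Real.exp_nat_mul]
        have : ((2 : ℕ) : ℝ) * 1.5 = ((3 : ℕ) : ℝ) * 1 := by norm_num
        rw [this, Real.exp_nat_mul]
        have he := Real.exp_one_lt_d9
        have he0 := Real.exp_pos 1
        have : Real.exp 1 ^ 3 ≤ 2.7182818286 ^ 3 := pow_le_pow_left₀ he0.le he.le 3
        norm_num at this ⊢
        linarith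
      exact le_of_sq_le_sq h7 (by norm_num) |>.trans (le_refl _)
    rw [h5]
    linarith
  rcases lt_or_ge d 2 with hd2 | hd2
  · -- main case
    have hT1J : T1 ⊆ J := by
      intro t ht
      obtain ⟨a, ha, rfl⟩ := mem_image.1 ht
      rw [hG1, mem_filter] at ha
      refine inJ a (hFP ha.1) ⟨y, h.hy, ?_⟩
      calc dist y a ≤ dist y z + dist z a := dist_triangle _ _ _
        _ ≤ d + d := by
            have := ha.2
            rw [dist_comm a z] at this
            linarith
        _ ≤ 5 := by linarith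
    have hdisj : ∀ A ⊆ F, Disjoint TC (A.image ι) := by
      intro A hA
      rw [disjoint_left]
      intro t ht ht2
      obtain ⟨c, hc, hct⟩ := mem_image.1 ht
      obtain ⟨f, hf, hft⟩ := mem_image.1 ht2
      have h1 := hι c (hCP hc)
      have h2 := hι f (hFP (hA hf))
      rw [hct] at h1
      rw [hft] at h2
      have h3 := tile_dist hs hs0 h1 h2
      have h4 := h.hmin c hc f (hA hf)
      rw [hdl] at h3
      linarith
    have hE : Et P ι J ⊆ J := filter_subset _ _
    have hvp := vp_le hs hs0 hι hJ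
    have hX0 : 0 < volume.real (cells s TX) := by rw [cells_vol hs]; exact pos_of TX nX
    have hY0 : 0 < volume.real (cells s T1) := by rw [cells_vol hs]; exact pos_of T1 n1
    have hXW : cells s TX ⊆ cells s TC := fun p hp => hTXC hp
    rcases mgt h hd1 hd2 (cells_meas s TC) (cells_meas s TX) (cells_meas s T1) (cells_bounded hs TC) hXW hW
      hXs hYs hX0 hY0 rfl with hres | ⟨z2, hz2, ⟨t0, ht0, hzt⟩, hdis, hres⟩
    · have hcost := region_cost_one hs hk P ι hTXC hTCJ hT1J hE (hdisj G1 (filter_subset _ _))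
        (disj_Et hCP) (disj_Et ((filter_subset _ _).trans hFP)) (cnt_Et P ι J) nX nC n1
      simp only [cells_vol hs] at hres hvp
      linarith
    · set G2 := F.filter (fun p => ∀ c ∈ C, dist z2 p < dist z2 c) with hG2
      set T2 := G2.image ι with hT2
      have c2 : k + 1 ≤ G2.card := hsep.2 z2 hz2
      have n2 : k ≤ cnt P ι T2 := by
        have := card_le_cnt (P := P) (ι := ι) (A := G2) (T := T2) ((filter_subset _ _).trans hFP) (Subset.refl _)
        omega
      have hG12 : Disjoint G1 G2 := by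
        rw [disjoint_left]
        intro p hp1 hp2
        rw [hG1, mem_filter] at hp1
        rw [hG2, mem_filter] at hp2
        exact hdis p hp1.2 hp2.2
      have n12 : 2 * k ≤ cnt P ι (T1 ∪ T2) := by
        have := card_le_cnt (P := P) (ι := ι) (A := G1 ∪ G2) (T := T1 ∪ T2)
          (union_subset ((filter_subset _ _).trans hFP) ((filter_subset _ _).trans hFP))
          (by rw [image_union])
        rw [card_union_of_disjoint hG12] at this
        omega
      have hT2J : T2 ⊆ J := by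
        intro t ht
        obtain ⟨a, ha, rfl⟩ := mem_image.1 ht
        rw [hG2, mem_filter] at ha
        refine inJ a (hFP ha.1) ⟨t0, ht0, ?_⟩
        calc dist t0 a ≤ dist t0 z2 + dist z2 a := dist_triangle _ _ _
          _ ≤ 2 + 2 := by
              have h1 := ha.2 t0 ht0
              rw [dist_comm t0 z2]
              linarith
          _ ≤ 5 := by norm_num
      have hcost := region_cost hs hk P ι hTXC hTCJ hT1J hT2J hE (hdisj G1 (filter_subset _ _))
        (hdisj G2 (filter_subset _ _)) (disj_Et hCP) (disj_Et ((filter_subset _ _).trans hFP))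
        (disj_Et ((filter_subset _ _).trans hFP)) (cnt_Et P ι J) nX nC n1 n2 n12
      have hY2s : cells s T2 ⊆ {p : ℂ | ∃ a ∈ F, (∀ c ∈ C, dist z2 a < dist z2 c) ∧ dist p a ≤ dl} := by
        intro p hp
        obtain ⟨a, ha, hpa⟩ := cells_nb hs hs0 (A := G2) (fun z hz => hιF z (mem_of_mem_filter z hz)) hp
        rw [hG2, mem_filter] at ha
        exact ⟨a, ha.1, ha.2, hpa⟩
      have hr := hres _ (cells_meas s T2) hY2s (by rw [cells_vol hs]; exact pos_of T2 n2)
      simp only [cells_vol hs] at hr hvp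
      linarith
  · -- far case
    have hE : Et P ι J ⊆ J := filter_subset _ _
    have hcost := region_cost_E hs hk P ι hE (cnt_Et P ι J)
    have hvp := vp_le hs hs0 hι hJ
    have hw : 0 < volume.real (cells s TC) := by
      rw [cells_vol hs]
      exact pos_of TC (by omega)
    have hv := vol_lower_far (cells_meas s TC) (cells_bounded hs TC) hW hw
      (fun c hc f hf => hd2.trans (h.hmin c hc f hf)) (F := F)
    have hsq : √(volume.real (cells s TC)) * √(volume.real (cells s TC)) = volume.real (cells s TC) :=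
      Real.mul_self_sqrt hw.le
    have hsq2 : √Real.pi * √Real.pi = Real.pi := Real.mul_self_sqrt Real.pi_pos.le
    have e : (√(volume.real (cells s TC)) + √Real.pi * (2 - 2 * dl)) ^ 2
        = √(volume.real (cells s TC)) * √(volume.real (cells s TC))
          + 2 * √(volume.real (cells s TC)) * √Real.pi * (2 - 2 * dl)
          + (√Real.pi * √Real.pi) * (2 - 2 * dl) ^ 2 := by ring
    rw [e, hsq, hsq2] at hv
    have e2 : 0 ≤ 2 * √(volume.real (cells s TC)) * √Real.pi * (2 - 2 * dl) := by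
      have : 0 ≤ 2 - 2 * dl := by rw [hdl]; norm_num
      positivity
    have e3 : 3.9 ≤ (2 - 2 * dl) ^ 2 := by rw [hdl]; norm_num
    have e4 : 3.34 ≤ Real.pi * (2 - 2 * dl) ^ 2 := by nlinarith
    linarith

end Pool.Agent.H77.KN
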