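import Pool.Agent.H77.KN.Geo

/-!
# Row Fub (MP_72793b): Fubini and isometries in ℂ

* `volume_slices`: `Complex.volume_preserving_equiv_real_prod` (measure preserving `Complex.measurableEquivRealProd`) and
  `MeasureTheory.Measure.prod_apply`.
* `volume_rot`: multiplication by a unit is the linear isometry equivalence `rotation`
  (`rotation (Circle.ofConjDivSelf ..)`, or `LinearIsometryEquiv` built from `u`), use `LinearIsometryEquiv.measurePreserving`
  and `MeasurePreserving.measure_preimage_equiv` (or `(LinearIsometryEquiv.toMeasurableEquiv _)`); any set.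
* `volume_shift`: `measure_preimage_add_right`.
* `real_ball`: `Complex.volume_ball`.
* `real_slices_le`: `volume_slices`, the slices are `≤ ENNReal.ofReal (g x)`, hence `volume S ≤ ∫⁻ ofReal (g x) < ⊤` and
  `toReal` of it is `∫ g` (`ofReal_integral_eq_lintegral_ofReal`).
-/

namespace Pool.Agent.H77.KN

open MeasureTheory Finset

theorem volume_slices {S : Set ℂ} (hS : MeasurableSet S) :
    volume S = ∫⁻ x : ℝ, volume {y : ℝ | (⟨x, y⟩ : ℂ) ∈ S} := by
  have h1 := (Complex.volume_preserving_equiv_real_prod.symm).measure_preimage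
    (s := S) hS.nullMeasurableSet
  rw [← h1, Measure.volume_eq_prod, Measure.prod_apply (Complex.measurableEquivRealProd.symm.measurable hS)]
  rfl

theorem volume_rot (S : Set ℂ) (u : ℂ) (hu : ‖u‖ = 1) :
    volume ((fun z : ℂ => u * z) ⁻¹' S) = volume S := by
  have hu1 : u ∈ Submonoid.unitSphere ℂ := by
    simp [Submonoid.unitSphere, hu]
  have key := (rotation (⟨u, hu1⟩ : Circle)).measurePreserving
  have h2 := key.measure_preimage_equiv (f := (rotation (⟨u, hu1⟩ : Circle)).toMeasurableEquiv) S
  have : (fun z : ℂ => u * z) = ((rotation (⟨u, hu1⟩ : Circle)).toMeasurableEquiv) := by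
    funext z
    exact (rotation_apply (⟨u, hu1⟩ : Circle) z).symm
  rw [this]
  exact h2

theorem volume_shift (S : Set ℂ) (a : ℂ) :
    volume ((fun z : ℂ => z + a) ⁻¹' S) = volume S := by
  exact measure_preimage_add_right volume a S

theorem real_ball (a : ℂ) {r : ℝ} (hr : 0 ≤ r) :
    volume.real (Metric.ball a r) = Real.pi * r ^ 2 := by
  rw [Measure.real, Complex.volume_ball]
  rw [ENNReal.toReal_mul, ENNReal.toReal_pow, ENNReal.toReal_ofReal hr]
  simp
  ring

theorem real_slices_le {S : Set ℂ} (hS : MeasurableSet S) {g : ℝ → ℝ} (hg : Integrable g) (hg0 : ∀ x, 0 ≤ g x)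
    (h : ∀ x : ℝ, volume {y : ℝ | (⟨x, y⟩ : ℂ) ∈ S} ≤ ENNReal.ofReal (g x)) :
    volume.real S ≤ ∫ x, g x := by
  have h1 : volume S ≤ ENNReal.ofReal (∫ x, g x) := by
    rw [volume_slices hS, ofReal_integral_eq_lintegral_ofReal hg (Filter.Eventually.of_forall hg0)]
    exact lintegral_mono h
  rw [Measure.real]
  exact ENNReal.toReal_le_of_le_ofReal (integral_nonneg hg0) h1

end Pool.Agent.H77.KN
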