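import Pool.Agent.H77.KN.CostDefs

/-!
# MP_72793b: definitions used in the proof of the cost inequality
-/

namespace Pool.Agent.H77.KN

open MeasureTheory Finset

/-- tolerance (twice the tile side) -/
noncomputable def dl : ℝ := 2 / 10 ^ 9

/-- scalar product of the plane -/
def dt (a u : ℂ) : ℝ := a.re * u.re + a.im * u.im

/-- closed neighbourhood of a finite set -/
def nb (A : Finset ℂ) (r : ℝ) : Set ℂ := {p | ∃ a ∈ A, dist p a ≤ r}

/-- the part of the 2-neighbourhood of `C` which stays away from `F` -/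
def Vp (C F : Finset ℂ) : Set ℂ := {p | (∃ c ∈ C, dist p c < 2) ∧ ∀ f ∈ F, dl < dist p f}

/-- cost of mass at least one in area `A` -/
noncomputable def ff (A : ℝ) : ℝ := if A < 1 then A - 1 - Real.log A else 0

/-- the `m`-th roots of unity (directions) -/
noncomputable def Um (m : ℕ) : Finset ℂ := Polynomial.nthRootsFinset m (1 : ℂ)

/-- the cone of all vectors whose best direction is `u` -/
def Kc (m : ℕ) (u : ℂ) : Set ℂ := {v | ∀ u' ∈ Um m, dt v u' ≤ dt v u}

/-- `t u` is an extreme point of `C` in the direction `u` -/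
def Ext (C : Finset ℂ) (t : ℂ → ℂ) : Prop := ∀ u, t u ∈ C ∧ ∀ c ∈ C, dt c u ≤ dt (t u) u

/-- index of the half open cell containing `z` -/
noncomputable def cidx (s : ℝ) (z : ℂ) : ℤ × ℤ := (⌊z.re / s⌋, ⌊z.im / s⌋)

/-- the union of the cells with index in `T` -/
def cells (s : ℝ) (T : Finset (ℤ × ℤ)) : Set ℂ := {z | cidx s z ∈ T}

lemma dl_pos : 0 < dl := by unfold dl; norm_num

lemma dt_le (a u : ℂ) (hu : ‖u‖ = 1) : dt a u ≤ ‖a‖ := by
  have h1 : u.re ^ 2 + u.im ^ 2 = 1 := by
    have := Complex.sq_norm u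
    rw [hu, Complex.normSq_apply] at this
    nlinarith
  have h2 : ‖a‖ ^ 2 = a.re ^ 2 + a.im ^ 2 := by
    rw [Complex.sq_norm, Complex.normSq_apply]; ring
  have h3 : (dt a u) ^ 2 ≤ ‖a‖ ^ 2 := by
    unfold dt
    rw [h2]
    nlinarith [sq_nonneg (a.re * u.im - a.im * u.re)]
  exact abs_le_of_sq_le_sq' h3 (norm_nonneg a) |>.2

lemma dt_sub (a b u : ℂ) : dt (a - b) u = dt a u - dt b u := by
  unfold dt; simp; ring

lemma dt_add (a b u : ℂ) : dt (a + b) u = dt a u + dt b u := by
  unfold dt; simp; ring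

lemma dt_neg_right (a u : ℂ) : dt a (-u) = - dt a u := by
  unfold dt; simp; ring

lemma dt_sub_right (a u v : ℂ) : dt a (u - v) = dt a u - dt a v := by
  unfold dt; simp; ring

/-- rotating both arguments -/
lemma dt_mul_mul (a b u : ℂ) (hu : ‖u‖ = 1) : dt (u * a) (u * b) = dt a b := by
  have h1 : u.re ^ 2 + u.im ^ 2 = 1 := by
    have := Complex.sq_norm u
    rw [hu, Complex.normSq_apply] at this
    nlinarith
  unfold dt
  simp only [Complex.mul_re, Complex.mul_im]
  linear_combination (a.re * b.re + a.im * b.im) * h1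

end Pool.Agent.H77.KN
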