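import Pool.Agent.H77.KN.Para
import Pool.Agent.H77.KN.DirB

/-!
# Row GoodA (part of Good) (MP_72793b): at least 3/8 (resp. 1/4) of the directions are good

`Gd m t z d` = the directions `u` for which the ball `B(z,d)` lies below the support line of `C` in direction `u` (with margin `3 dl`).
Let `D = d + 4 dl`. Call `u ∈ Um m` bad if `u ∉ Gd` and `-u ∉ Gd`.

* `bad_strip`: if `u` is bad then `|dt (p - z) u| < D` for all `p ∈ W`.
  Proof: for `c ∈ C`: `dt c u ≤ dt (t u) u < dt z u + d + 3 dl` and (`dt_neg_right`, `neg_mem_Um`) `-dt c u ≤ dt (t (-u)) (-u) < - dt z u + d + 3 dl`;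
  `p ∈ W` has some `c` with `dist p c ≤ dl`, so `|dt (p - c) u| ≤ dl` (`dt_le`, also for `c - p`).
* `two_bad`: if `u, v ∈ Um m` are both bad and `0 < σ ≤ |u.re v.im - u.im v.re|` then `|W| + π (d - dl)² ≤ 4 D²/σ`.
  Proof: `W` and `ball z (d - dl)` are disjoint (`W ⊆ nb C dl`, `dist c z ≥ d`) and both contained in the parallelogram of `para`
  (for the ball: `|dt (p - z) u| ≤ dist p z < d - dl < D`); `real_ball`, `para`, `para_finite`.
* `good_A`: `8 ∣ m`, `2.516 D² ≤ |W|` implies `3 m ≤ 8 #Gd`.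
  Proof. `ω = e^{iπ/4} = (√2/2)(1 + i) ∈ Um m`. For `u ∈ Um m` the directions `ω^i u`, `i = 0,1,2,3`, have pairwise `|cross| ≥ √2/2`
  (rotation invariant: cross of `ω^i u`, `ω^j u` is `sin ((j-i)π/4)`, i.e. `±√2/2` or `±1`), so by `two_bad` with `σ = √2/2` at most one of the
  four is bad: otherwise `|W| ≤ 4√2 D² - π (d - dl)² < 2.516 D²` (numbers: `d ≥ 1/20`, `dl = 2e-9`, so `(d - dl)² ≥ (1 - 1e-6) D²`,
  `√2 < 1.41422`, `π > 3.1415`).
  For each of the at least three non-bad `i`, `ω^i u ∈ Gd` or `ω^(i+4) u = -ω^i u ∈ Gd`. So `#{i < 8 | ω^i u ∈ Gd} ≥ 3`.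
  Sum over `u ∈ Um m`: `3 m ≤ ∑_u #{i < 8 | ω^i u ∈ Gd} = ∑_{i<8} #{u ∈ Um m | ω^i u ∈ Gd} = 8 #Gd` (`u ↦ ω^i u` is a bijection of `Um m`, `card_Um`).
* `good_B`: `4 ∣ m`, `0.86 D² ≤ |W|` implies `m ≤ 4 #Gd`. Same proof with `ω = I`, the two directions `u, I u`, `σ = 1`:
  `|W| ≤ 4 D² - π (d-dl)² < 0.86 D²`; `#{i < 4 | I^i u ∈ Gd} ≥ 1`.
-/

namespace Pool.Agent.H77.KN

open MeasureTheory Finset

/-- the good directions -/
noncomputable def Gd (m : ℕ) (t : ℂ → ℂ) (z : ℂ) (d : ℝ) : Finset ℂ := by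
  classical
  exact (Um m).filter (fun u => dt z u + d + 3 * dl ≤ dt (t u) u)

theorem mem_Gd {m : ℕ} {t : ℂ → ℂ} {z : ℂ} {d : ℝ} {u : ℂ} :
    u ∈ Gd m t z d ↔ u ∈ Um m ∧ dt z u + d + 3 * dl ≤ dt (t u) u := by
  classical
  simp [Gd]

theorem GoodA_abs {p c u : ℂ} (hu : ‖u‖ = 1) : |dt (p - c) u| ≤ dist p c := by
  rw [abs_le, dist_eq_norm]
  constructor
  · have h := dt_le (c - p) u hu
    rw [dt_sub, norm_sub_rev] at h
    rw [dt_sub]
    linarith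
  · exact dt_le (p - c) u hu

theorem bad_strip {C : Finset ℂ} {m : ℕ} (hm : 0 < m) (h2 : 2 ∣ m) {t : ℂ → ℂ} (ht : Ext C t) {W : Set ℂ}
    (hW : W ⊆ nb C dl) {z : ℂ} {d : ℝ} {u : ℂ} (hu : u ∈ Um m)
    (hb1 : u ∉ Gd m t z d) (hb2 : -u ∉ Gd m t z d) {p : ℂ} (hp : p ∈ W) :
    |dt (p - z) u| < d + 4 * dl := by
  have hn := norm_Um hm hu
  have h1 : dt (t u) u < dt z u + d + 3 * dl := by
    by_contra h
    exact hb1 (mem_Gd.2 ⟨hu, not_lt.1 h⟩)
  have h3 : dt (t (-u)) (-u) < dt z (-u) + d + 3 * dl := by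
    by_contra h
    exact hb2 (mem_Gd.2 ⟨neg_mem_Um hm h2 hu, not_lt.1 h⟩)
  obtain ⟨c, hc, hpc⟩ := hW hp
  have h4 := (ht u).2 c hc
  have h5 := (ht (-u)).2 c hc
  have h6 := (GoodA_abs (p := p) (c := c) hn).trans hpc
  rw [abs_le, dt_sub] at h6
  rw [dt_neg_right z u] at h3
  rw [dt_neg_right c u] at h5
  rw [abs_lt, dt_sub]
  constructor <;> linarith [h6.1, h6.2]

theorem two_bad {C : Finset ℂ} {m : ℕ} (hm : 0 < m) (h2 : 2 ∣ m) {t : ℂ → ℂ} (ht : Ext C t) {W : Set ℂ}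
    (hWm : MeasurableSet W) (hW : W ⊆ nb C dl) {z : ℂ} {d : ℝ} (hd : 1 / 20 ≤ d) (hz : ∀ c ∈ C, d ≤ dist c z)
    {u v : ℂ} (hu : u ∈ Um m) (hv : v ∈ Um m)
    (hb1 : u ∉ Gd m t z d) (hb2 : -u ∉ Gd m t z d) (hb3 : v ∉ Gd m t z d) (hb4 : -v ∉ Gd m t z d)
    {σ : ℝ} (hσ : 0 < σ) (hσu : σ ≤ |u.re * v.im - u.im * v.re|) :
    volume.real W + Real.pi * (d - dl) ^ 2 ≤ 4 * (d + 4 * dl) ^ 2 / σ := by
  have hnu := norm_Um hm hu
  have hnv := norm_Um hm hv
  have hdl := dl_pos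
  have hdl2 : dl < 1 / 20 := by unfold dl; norm_num
  have hD : 0 < d + 4 * dl := by linarith
  have hcr : u.re * v.im - u.im * v.re ≠ 0 := by
    intro h
    rw [h, abs_zero] at hσu
    linarith
  have hfin := para_finite (z := z) hnu hnv hcr hD
  have hpar := para (z := z) hnu hnv hσ hσu hD
  have hWS : W ⊆ {p : ℂ | |dt (p - z) u| < d + 4 * dl ∧ |dt (p - z) v| < d + 4 * dl} := fun p hp =>
    ⟨bad_strip hm h2 ht hW hu hb1 hb2 hp, bad_strip hm h2 ht hW hv hb3 hb4 hp⟩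
  have hBS : Metric.ball z (d - dl) ⊆ {p : ℂ | |dt (p - z) u| < d + 4 * dl ∧ |dt (p - z) v| < d + 4 * dl} := by
    intro p hp
    rw [Metric.mem_ball] at hp
    exact ⟨by linarith [GoodA_abs (p := p) (c := z) hnu], by linarith [GoodA_abs (p := p) (c := z) hnv]⟩
  have hdis : Disjoint W (Metric.ball z (d - dl)) := by
    rw [Set.disjoint_left]
    intro p hp hp2
    obtain ⟨c, hc, hpc⟩ := hW hp
    rw [Metric.mem_ball] at hp2
    have h1 := hz c hc
    have h3 := dist_triangle c p z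
    rw [dist_comm c p] at h3
    linarith
  have hWf : volume W ≠ ⊤ := ne_top_of_le_ne_top hfin (measure_mono hWS)
  have hBf : volume (Metric.ball z (d - dl)) ≠ ⊤ := ne_top_of_le_ne_top hfin (measure_mono hBS)
  have hun : volume.real (W ∪ Metric.ball z (d - dl)) = volume.real W + volume.real (Metric.ball z (d - dl)) :=
    measureReal_union hdis Metric.isOpen_ball.measurableSet hWf hBf
  have hle : volume.real (W ∪ Metric.ball z (d - dl))
      ≤ volume.real {p : ℂ | |dt (p - z) u| < d + 4 * dl ∧ |dt (p - z) v| < d + 4 * dl} :=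
    measureReal_mono (Set.union_subset hWS hBS) hfin
  rw [hun, real_ball z (by linarith)] at hle
  have _ := hWm
  linarith

end Pool.Agent.H77.KN
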