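import Pool.Agent.H77.KN.GoodA

/-!
# Row GoodB (part of Good) (MP_72793b): at least 3/8 (resp. 1/4) of the directions are good

`Gd m t z d` = the directions `u` for which the ball `B(z,d)` lies below the support line of `C` in direction `u` (with margin `3 dl`).
Let `D = d + 4 dl`. Call `u ∈ Um m` bad if `u ∉ Gd` and `-u ∉ Gd`.

* `bad_strip`: if `u` is bad then `|dt (p - z) u| < D` for all `p ∈ W`.
  Proof: for `c ∈ C`: `dt c u ≤ dt (t u) u < dt z u + d + 3 dl` and (`dt_neg_right`, `neg_mem_Um`) `-dt c u ≤ dt (t (-u)) (-u) < - dt z u + d + 3 dl`;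
  `p ∈ W` has some `c` with `dist p c ≤ dl`, so `|dt (p - c) u| ≤ dl` (`dt_le`, also for `c - p`).
* `two_bad`: if `u, v ∈ Um m` are both bad and `0 < σ ≤ |u.re v.im - u.im v.re|` then `|W| + π (d - dl)² ≤ 4 D²/σ`.
  Proof: `W` and `ball z (d - dl)` are disjoint (`W ⊆ nb C dl`, `dist c z ≥ d`) and both contained in the parallelogram of `para`
  (for the ball: `|dt (p - z) u| ≤ dist p z < d - dl < D`); `real_ball`, `para`, `para_finite`.
* `good_A`: `8 ∣ m`, `2.516 D² ≤ |W|` implies `3 m ≤ 8 #Gd`.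
  Proof. `ω = e^{iπ/4} = (√2/2)(1 + i) ∈ Um m`. For `u ∈ Um m` the directions `ω^i u`, `i = 0,1,2,3`, have pairwise `|cross| ≥ √2/2`
  (rotation invariant: cross of `ω^i u`, `ω^j u` is `sin ((j-i)π/4)`, i.e. `±√2/2` or `±1`), so by `two_bad` with `σ = √2/2` at most one of the
  four is bad: otherwise `|W| ≤ 4√2 D² - π (d - dl)² < 2.516 D²` (numbers: `d ≥ 1/20`, `dl = 2e-9`, so `(d - dl)² ≥ (1 - 1e-6) D²`,
  `√2 < 1.41422`, `π > 3.1415`).
  For each of the at least three non-bad `i`, `ω^i u ∈ Gd` or `ω^(i+4) u = -ω^i u ∈ Gd`. So `#{i < 8 | ω^i u ∈ Gd} ≥ 3`.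
  Sum over `u ∈ Um m`: `3 m ≤ ∑_u #{i < 8 | ω^i u ∈ Gd} = ∑_{i<8} #{u ∈ Um m | ω^i u ∈ Gd} = 8 #Gd` (`u ↦ ω^i u` is a bijection of `Um m`, `card_Um`).
* `good_B`: `4 ∣ m`, `0.86 D² ≤ |W|` implies `m ≤ 4 #Gd`. Same proof with `ω = I`, the two directions `u, I u`, `σ = 1`:
  `|W| ≤ 4 D² - π (d-dl)² < 0.86 D²`; `#{i < 4 | I^i u ∈ Gd} ≥ 1`.
-/

namespace Pool.Agent.H77.KN

open MeasureTheory Finset

/-- the eighth root of unity -/
noncomputable def GoodB_w : ℂ := ⟨√2 / 2, √2 / 2⟩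

theorem GoodB_sq : √2 * √2 = 2 := Real.mul_self_sqrt (by norm_num)

theorem GoodB_w2 : GoodB_w ^ 2 = Complex.I := by
  rw [sq]
  apply Complex.ext
  · simp only [GoodB_w, Complex.mul_re, Complex.I_re]
    ring
  · simp only [GoodB_w, Complex.mul_im, Complex.I_im]
    have := GoodB_sq
    linear_combination (1 / 2) * this

theorem GoodB_w4 : GoodB_w ^ 4 = -1 := by
  have : GoodB_w ^ 4 = (GoodB_w ^ 2) ^ 2 := by ring
  rw [this, GoodB_w2, Complex.I_sq]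

theorem GoodB_w8 : GoodB_w ^ 8 = 1 := by
  have : GoodB_w ^ 8 = (GoodB_w ^ 4) ^ 2 := by ring
  rw [this, GoodB_w4]
  norm_num

theorem GoodB_w3 : GoodB_w ^ 3 = ⟨-(√2 / 2), √2 / 2⟩ := by
  have : GoodB_w ^ 3 = GoodB_w ^ 2 * GoodB_w := by ring
  rw [this, GoodB_w2]
  apply Complex.ext <;> simp [GoodB_w]

theorem GoodB_s : (7071 / 10000 : ℝ) ≤ √2 / 2 := by
  have : (14142 / 10000 : ℝ) ≤ √2 := by
    apply Real.le_sqrt_of_sq_le
    norm_num
  linarith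

theorem GoodB_im {k : ℕ} (h1 : 1 ≤ k) (h3 : k ≤ 3) : (7071 / 10000 : ℝ) ≤ (GoodB_w ^ k).im := by
  interval_cases k
  · rw [pow_one]
    exact GoodB_s
  · rw [GoodB_w2, Complex.I_im]
    norm_num
  · rw [GoodB_w3]
    exact GoodB_s

theorem GoodB_cross {v c : ℂ} (hv : ‖v‖ = 1) : v.re * (c * v).im - v.im * (c * v).re = c.im := by
  have h1 : v.re ^ 2 + v.im ^ 2 = 1 := by
    have := Complex.sq_norm v
    rw [hv, Complex.normSq_apply] at this
    nlinarith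
  simp only [Complex.mul_re, Complex.mul_im]
  linear_combination c.im * h1

theorem GoodB_pair {C : Finset ℂ} {m : ℕ} (hm : 0 < m) (h8 : 8 ∣ m) {t : ℂ → ℂ} (ht : Ext C t) {W : Set ℂ}
    (hWm : MeasurableSet W) (hW : W ⊆ nb C dl) {z : ℂ} {d : ℝ} (hd : 1 / 20 ≤ d) (hz : ∀ c ∈ C, d ≤ dist c z)
    (hw : 2.516 * (d + 4 * dl) ^ 2 ≤ volume.real W) {v : ℂ} (hv : v ∈ Um m) {k : ℕ} (h1 : 1 ≤ k)
    (h3 : k ≤ 3) (hvk : GoodB_w ^ k * v ∈ Um m)
    (hb1 : v ∉ Gd m t z d) (hb2 : -v ∉ Gd m t z d) (hb3 : GoodB_w ^ k * v ∉ Gd m t z d)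
    (hb4 : -(GoodB_w ^ k * v) ∉ Gd m t z d) : False := by
  have hn := norm_Um hm hv
  have him := GoodB_im h1 h3
  have hσ : (7071 / 10000 : ℝ) ≤ |v.re * (GoodB_w ^ k * v).im - v.im * (GoodB_w ^ k * v).re| := by
    rw [GoodB_cross hn]
    exact him.trans (le_abs_self _)
  have h := two_bad hm ((by norm_num : 2 ∣ 8).trans h8) ht hWm hW hd hz hv hvk hb1 hb2 hb3 hb4
    (by norm_num : (0 : ℝ) < 7071 / 10000) hσ
  have hdl : dl = 2 / 10 ^ 9 := rfl
  have hpi := Real.pi_gt_d4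
  have hsq : 0 ≤ (d - dl) ^ 2 := sq_nonneg _
  have hD : 1 / 20 ≤ d + 4 * dl := by rw [hdl]; norm_num; linarith
  have e1 : (d - dl) ^ 2 ≥ (d + 4 * dl) ^ 2 - 2 / 10 ^ 8 * (d + 4 * dl) := by
    rw [hdl]
    nlinarith
  have e2 : (3.1415 : ℝ) * (d - dl) ^ 2 ≤ Real.pi * (d - dl) ^ 2 :=
    mul_le_mul_of_nonneg_right hpi.le hsq
  have e3 : 4 * (d + 4 * dl) ^ 2 / (7071 / 10000) = 40000 / 7071 * (d + 4 * dl) ^ 2 := by ring
  rw [e3] at h
  nlinarith

theorem good_A {C : Finset ℂ} {m : ℕ} (hm : 0 < m) (h8 : 8 ∣ m) {t : ℂ → ℂ} (ht : Ext C t) {W : Set ℂ}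
    (hWm : MeasurableSet W) (hW : W ⊆ nb C dl) {z : ℂ} {d : ℝ} (hd : 1 / 20 ≤ d) (hz : ∀ c ∈ C, d ≤ dist c z)
    (hw : 2.516 * (d + 4 * dl) ^ 2 ≤ volume.real W) :
    3 * m ≤ 8 * (Gd m t z d).card := by
  classical
  have hwU : ∀ i : ℕ, GoodB_w ^ i ∈ Um m := by
    intro i
    rw [mem_Um hm]
    obtain ⟨q, hq⟩ := h8
    rw [← pow_mul, mul_comm, hq, mul_assoc, pow_mul, GoodB_w8, one_pow]
  have hmem : ∀ (i : ℕ) (u : ℂ), u ∈ Um m → GoodB_w ^ i * u ∈ Um m := fun i u hu =>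
    mul_mem_Um hm (hwU i) hu
  have hw0 : ∀ i : ℕ, GoodB_w ^ i ≠ 0 := by
    intro i h0
    have := norm_Um hm (hwU i)
    rw [h0, norm_zero] at this
    exact zero_ne_one this
  have hpair : ∀ u ∈ Um m, ∀ i j : ℕ, i < j → j < 4 → GoodB_w ^ i * u ∉ Gd m t z d →
      -(GoodB_w ^ i * u) ∉ Gd m t z d → GoodB_w ^ j * u ∉ Gd m t z d →
      -(GoodB_w ^ j * u) ∉ Gd m t z d → False := by
    intro u hu i j hij hj hb1 hb2 hb3 hb4
    have e : GoodB_w ^ j * u = GoodB_w ^ (j - i) * (GoodB_w ^ i * u) := by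
      rw [← mul_assoc, ← pow_add, Nat.sub_add_cancel hij.le]
    rw [e] at hb3 hb4
    exact GoodB_pair hm h8 ht hWm hW hd hz hw (hmem i u hu) (by omega) (by omega)
      (hmem _ _ (hmem i u hu)) hb1 hb2 hb3 hb4
  have hneg : ∀ (i : ℕ) (u : ℂ), GoodB_w ^ (i + 4) * u = -(GoodB_w ^ i * u) := by
    intro i u
    rw [pow_add, GoodB_w4]
    ring
  -- lower bound for each u
  have hlow : ∀ u ∈ Um m, 3 ≤ ∑ i ∈ range 8, if GoodB_w ^ i * u ∈ Gd m t z d then 1 else 0 := by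
    intro u hu
    have f : ∀ i : ℕ, ¬ (GoodB_w ^ i * u ∉ Gd m t z d ∧ -(GoodB_w ^ i * u) ∉ Gd m t z d) →
        1 ≤ (if GoodB_w ^ i * u ∈ Gd m t z d then 1 else 0) +
          (if GoodB_w ^ (i + 4) * u ∈ Gd m t z d then 1 else 0) := by
      intro i hi
      rw [hneg]
      by_cases h1 : GoodB_w ^ i * u ∈ Gd m t z d
      · rw [if_pos h1]
        omega
      · rw [if_neg h1]
        have h2 : -(GoodB_w ^ i * u) ∈ Gd m t z d := by
          by_contra h2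
          exact hi ⟨h1, h2⟩
        rw [if_pos h2]
    have p01 := hpair u hu 0 1 (by norm_num) (by norm_num)
    have p02 := hpair u hu 0 2 (by norm_num) (by norm_num)
    have p03 := hpair u hu 0 3 (by norm_num) (by norm_num)
    have p12 := hpair u hu 1 2 (by norm_num) (by norm_num)
    have p13 := hpair u hu 1 3 (by norm_num) (by norm_num)
    have p23 := hpair u hu 2 3 (by norm_num) (by norm_num)
    have f0 := f 0
    have f1 := f 1
    have f2 := f 2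
    have f3 := f 3
    simp only [Nat.zero_add, Nat.reduceAdd] at f0 f1 f2 f3
    simp only [Finset.sum_range_succ, Finset.sum_range_zero]
    by_cases b0 : GoodB_w ^ 0 * u ∉ Gd m t z d ∧ -(GoodB_w ^ 0 * u) ∉ Gd m t z d
    · have g1 := f1 fun b => p01 b0.1 b0.2 b.1 b.2
      have g2 := f2 fun b => p02 b0.1 b0.2 b.1 b.2
      have g3 := f3 fun b => p03 b0.1 b0.2 b.1 b.2
      omega
    · have g0 := f0 b0
      by_cases b1 : GoodB_w ^ 1 * u ∉ Gd m t z d ∧ -(GoodB_w ^ 1 * u) ∉ Gd m t z d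
      · have g2 := f2 fun b => p12 b1.1 b1.2 b.1 b.2
        have g3 := f3 fun b => p13 b1.1 b1.2 b.1 b.2
        omega
      · have g1 := f1 b1
        by_cases b2 : GoodB_w ^ 2 * u ∉ Gd m t z d ∧ -(GoodB_w ^ 2 * u) ∉ Gd m t z d
        · have g3 := f3 fun b => p23 b2.1 b2.2 b.1 b.2
          omega
        · have g2 := f2 b2
          omega
  -- upper bound for each i
  have hup : ∀ i ∈ range 8, ∑ u ∈ Um m, (if GoodB_w ^ i * u ∈ Gd m t z d then 1 else 0) ≤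
      (Gd m t z d).card := by
    intro i _
    rw [← Finset.card_filter]
    refine Finset.card_le_card_of_injOn (fun u => GoodB_w ^ i * u) ?_ ?_
    · intro u hu
      simp only [Finset.coe_filter, Set.mem_ofPred_eq] at hu
      exact hu.2
    · intro u _ v _ huv
      exact mul_left_cancel₀ (hw0 i) huv
  calc 3 * m = ∑ u ∈ Um m, 3 := by rw [Finset.sum_const, card_Um hm, smul_eq_mul, mul_comm]
    _ ≤ ∑ u ∈ Um m, ∑ i ∈ range 8, (if GoodB_w ^ i * u ∈ Gd m t z d then 1 else 0) :=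
        Finset.sum_le_sum hlow
    _ = ∑ i ∈ range 8, ∑ u ∈ Um m, (if GoodB_w ^ i * u ∈ Gd m t z d then 1 else 0) :=
        Finset.sum_comm
    _ ≤ ∑ i ∈ range 8, (Gd m t z d).card := Finset.sum_le_sum hup
    _ = 8 * (Gd m t z d).card := by rw [Finset.sum_const, card_range, smul_eq_mul]

end Pool.Agent.H77.KN
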