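import Pool.Agent.H77.KN.GoodA

/-!
# Row GoodC (part of Good) (MP_72793b): at least 3/8 (resp. 1/4) of the directions are good

`Gd m t z d` = the directions `u` for which the ball `B(z,d)` lies below the support line of `C` in direction `u` (with margin `3 dl`).
Let `D = d + 4 dl`. Call `u ∈ Um m` bad if `u ∉ Gd` and `-u ∉ Gd`.

* `bad_strip`: if `u` is bad then `|dt (p - z) u| < D` for all `p ∈ W`.
  Proof: for `c ∈ C`: `dt c u ≤ dt (t u) u < dt z u + d + 3 dl` and (`dt_neg_right`, `neg_mem_Um`) `-dt c u ≤ dt (t (-u)) (-u) < - dt z u + d + 3 dl`;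
  `p ∈ W` has some `c` with `dist p c ≤ dl`, so `|dt (p - c) u| ≤ dl` (`dt_le`, also for `c - p`).
* `two_bad`: if `u, v ∈ Um m` are both bad and `0 < σ ≤ |u.re v.im - u.im v.re|` then `|W| + π (d - dl)² ≤ 4 D²/σ`.
  Proof: `W` and `ball z (d - dl)` are disjoint (`W ⊆ nb C dl`, `dist c z ≥ d`) and both contained in the parallelogram of `para`
  (for the ball: `|dt (p - z) u| ≤ dist p z < d - dl < D`); `real_ball`, `para`, `para_finite`.
* `good_A`: `8 ∣ m`, `2.516 D² ≤ |W|` implies `3 m ≤ 8 #Gd`.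
  Proof. `ω = e^{iπ/4} = (√2/2)(1 + i) ∈ Um m`. For `u ∈ Um m` the directions `ω^i u`, `i = 0,1,2,3`, have pairwise `|cross| ≥ √2/2`
  (rotation invariant: cross of `ω^i u`, `ω^j u` is `sin ((j-i)π/4)`, i.e. `±√2/2` or `±1`), so by `two_bad` with `σ = √2/2` at most one of the
  four is bad: otherwise `|W| ≤ 4√2 D² - π (d - dl)² < 2.516 D²` (numbers: `d ≥ 1/20`, `dl = 2e-9`, so `(d - dl)² ≥ (1 - 1e-6) D²`,
  `√2 < 1.41422`, `π > 3.1415`).
  For each of the at least three non-bad `i`, `ω^i u ∈ Gd` or `ω^(i+4) u = -ω^i u ∈ Gd`. So `#{i < 8 | ω^i u ∈ Gd} ≥ 3`.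
  Sum over `u ∈ Um m`: `3 m ≤ ∑_u #{i < 8 | ω^i u ∈ Gd} = ∑_{i<8} #{u ∈ Um m | ω^i u ∈ Gd} = 8 #Gd` (`u ↦ ω^i u` is a bijection of `Um m`, `card_Um`).
* `good_B`: `4 ∣ m`, `0.86 D² ≤ |W|` implies `m ≤ 4 #Gd`. Same proof with `ω = I`, the two directions `u, I u`, `σ = 1`:
  `|W| ≤ 4 D² - π (d-dl)² < 0.86 D²`; `#{i < 4 | I^i u ∈ Gd} ≥ 1`.
-/

namespace Pool.Agent.H77.KN

open MeasureTheory Finset

theorem GoodC_num {d w : ℝ} (hd : 1 / 20 ≤ d) (hw : 0.86 * (d + 4 * dl) ^ 2 ≤ w)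
    (h : w + Real.pi * (d - dl) ^ 2 ≤ 4 * (d + 4 * dl) ^ 2 / 1) : False := by
  have hp : (3.1415 : ℝ) < Real.pi := Real.pi_gt_d4
  have h0 : (0 : ℝ) < dl := dl_pos
  have h1 : dl = 2 / 10 ^ 9 := rfl
  have h2 : 3.1415 * (d - dl) ^ 2 ≤ Real.pi * (d - dl) ^ 2 :=
    mul_le_mul_of_nonneg_right hp.le (sq_nonneg _)
  have h3 : (d - dl) ^ 2 ≥ (1 - 1 / 10 ^ 6) * (d + 4 * dl) ^ 2 := by
    rw [h1]
    nlinarith
  have h4 : (0 : ℝ) < (d + 4 * dl) ^ 2 := by positivity
  rw [div_one] at h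
  nlinarith

theorem good_B {C : Finset ℂ} {m : ℕ} (hm : 0 < m) (h8 : 8 ∣ m) {t : ℂ → ℂ} (ht : Ext C t) {W : Set ℂ}
    (hWm : MeasurableSet W) (hW : W ⊆ nb C dl) {z : ℂ} {d : ℝ} (hd : 1 / 20 ≤ d) (hz : ∀ c ∈ C, d ≤ dist c z)
    (hw : 0.86 * (d + 4 * dl) ^ 2 ≤ volume.real W) :
    m ≤ 4 * (Gd m t z d).card := by
  classical
  have h2 : 2 ∣ m := Dvd.dvd.trans (by norm_num) h8
  have hI : Complex.I ∈ Um m := by
    rw [mem_Um hm]
    obtain ⟨k, rfl⟩ := h8
    rw [pow_mul]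
    have : Complex.I ^ 8 = 1 := by
      have h4 : Complex.I ^ 4 = 1 := Complex.I_pow_four
      calc Complex.I ^ 8 = (Complex.I ^ 4) ^ 2 := by ring
        _ = 1 := by rw [h4, one_pow]
    rw [this, one_pow]
  have hsub : Um m ⊆ (Gd m t z d ∪ (Gd m t z d).image (fun v => -v)) ∪
      ((Gd m t z d).image (fun v => -(Complex.I * v)) ∪ (Gd m t z d).image (fun v => Complex.I * v)) := by
    intro u hu
    by_contra hcon
    simp only [mem_union, mem_image, not_or, not_exists, not_and] at hcon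
    obtain ⟨⟨c1, c2⟩, c3, c4⟩ := hcon
    have e1 : -u ∉ Gd m t z d := fun h => c2 _ h (neg_neg u)
    have e2 : Complex.I * u ∉ Gd m t z d := by
      intro h
      apply c3 _ h
      rw [← mul_assoc, Complex.I_mul_I]
      ring
    have e3 : -(Complex.I * u) ∉ Gd m t z d := by
      intro h
      apply c4 _ h
      rw [mul_neg, ← mul_assoc, Complex.I_mul_I]
      ring
    have hn : ‖u‖ = 1 := norm_Um hm hu
    have hn2 : u.re ^ 2 + u.im ^ 2 = 1 := by
      have := Complex.sq_norm u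
      rw [hn, Complex.normSq_apply] at this
      nlinarith
    have hσ : (1 : ℝ) ≤ |u.re * (Complex.I * u).im - u.im * (Complex.I * u).re| := by
      have : u.re * (Complex.I * u).im - u.im * (Complex.I * u).re = 1 := by
        simp only [Complex.mul_im, Complex.mul_re, Complex.I_re, Complex.I_im]
        linarith
      rw [this, abs_one]
    exact GoodC_num hd hw (two_bad hm h2 ht hWm hW hd hz hu (mul_mem_Um hm hI hu) c1 e1 e2 e3 one_pos hσ)
  have h := card_le_card hsub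
  rw [card_Um hm] at h
  have a1 := card_union_le (Gd m t z d ∪ (Gd m t z d).image (fun v => -v))
    ((Gd m t z d).image (fun v => -(Complex.I * v)) ∪ (Gd m t z d).image (fun v => Complex.I * v))
  have a2 := card_union_le (Gd m t z d) ((Gd m t z d).image (fun v => -v))
  have a3 := card_union_le ((Gd m t z d).image (fun v => -(Complex.I * v)))
    ((Gd m t z d).image (fun v => Complex.I * v))
  have b1 : ((Gd m t z d).image (fun v => -v)).card ≤ (Gd m t z d).card := card_image_le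
  have b2 : ((Gd m t z d).image (fun v => -(Complex.I * v))).card ≤ (Gd m t z d).card := card_image_le
  have b3 : ((Gd m t z d).image (fun v => Complex.I * v)).card ≤ (Gd m t z d).card := card_image_le
  omega

end Pool.Agent.H77.KN
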