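import Pool.Agent.H77.KN.Geo

/-!
# Row HullA (part of Hull) (MP_72793b): a foreign point in the convex hull forces `2 (k+1)` points

`lens_empty` (pure algebra). `a, b : ℂ`, `A = ‖a‖²`, `B = ‖b‖²`, `κ ≥ 0`, `g = - dt a b ≥ κ/2`, and `L p` an affine function with `L a = A`, `L b = B`,
`L 0 = κ`. If `‖p - a‖ < ‖a‖` and `‖p - b‖ < ‖b‖` then `‖p‖² < L p`.
Proof. The hypotheses say `‖p‖² < 2 dt p a` and `‖p‖² < 2 dt p b`; in particular `p ≠ 0`.
Case 1: `a, b` linearly independent: `p = x a + y b` (Cramer: `x = (p.re b.im - p.im b.re)/det` ...). `dt p a = x A - y g`, `dt p b = y B - x g`,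
both `> 0`. `x, y > 0`: if `x ≤ 0` then `y g < x A ≤ 0` so `y < 0`, and `y B > x g`; then `(-x) A < (-y) g`, `(-y) B < (-x) g`; multiply:
`(-x)(-y) A B < (-x)(-y) g²` (if `x = 0` then `0 < (-y) g` and `(-y) B < 0` contradiction), but `g² ≤ A B` (Cauchy-Schwarz). Symmetric for `y`.
`x (first) + y (second)`: `(x + y) ‖p‖² < 2 (x dt p a + y dt p b) = 2 ‖p‖²`, so `x + y < 2`.
Sum of the hypotheses divided by two: `‖p‖² < dt p a + dt p b = x A + y B - g (x + y)`.
`L p = x A + y B + κ (1 - x - y)`. Need `- g (x+y) ≤ κ - κ (x+y)`, i.e. `(κ - g)(x+y) ≤ κ`: clear if `g ≥ κ`; else `κ - g ≤ κ/2` and `x+y < 2`.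
Case 2: `a, b` dependent (`a.re b.im = a.im b.re`), `dt a b ≤ 0`. If `a = 0` or `b = 0`, `‖p - a‖ < ‖a‖` is false. Otherwise `b = -τ a` with
`τ > 0` (`dt a b = -√(AB) ≠ 0`), and `dt p a > 0`, `dt p b = -τ dt p a > 0` is impossible.

`pair_exists`: `a, b, c` with `l a + m b + n c = 0`, `l, m, n ≥ 0`, `l + m + n = 1`, `κ = l A + m B + n C`: one of `dt a b, dt b c, dt c a` is `≤ -κ/2`.
Proof: `0 = l dt a a + m dt a b + n dt a c` etc. (`dt a 0 = 0`); the sum of the three equations is
`κ + (l+m) dt a b + (m+n) dt b c + (n+l) dt c a = 0` and the weights sum to `2` (`by_contra`, `nlinarith`; note some weight is positive).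

`hull_lens`: `C` finite, `0 ∈ convexHull ℝ C`, `0 ∉ C`: there are `a, b ∈ C` such that no `p ∈ C` has `‖p - a‖ < ‖a‖` and `‖p - b‖ < ‖b‖`.
Proof. (i) If `0 ∈ [a,b]` with `a, b ∈ C` (i.e. `0 = (1-τ) a + τ b`): `dt p a > 0` and `dt p b > 0` are contradictory. So assume this never happens.
(ii) Caratheodory (`convexHull_eq_union` or `eq_pos_convex_span_of_mem_convexHull`): `0` is a convex combination of at most 3 affinely independent
points of `C`; by (i) exactly three, all weights `> 0`. Consider the finite set of all triples `(a,b,c) ∈ C³` such that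
`0 = l a + m b + n c` for some `l, m, n ≥ 0` with sum 1; by (i) `l, m, n > 0` and `a, b, c` are affinely independent (otherwise `0` is on a segment: 
three collinear points whose hull contains 0), so the weights are unique: by Cramer `l = cr b c / Δ`, ... with `cr b c = b.re c.im - b.im c.re`,
`Δ = cr a b + cr b c + cr c a ≠ 0`. Choose a triple with minimal `κ = l A + m B + n C` (choose weights for each triple, `Finset.exists_min_image`).
(iii) Let `L` be the affine function with `L a = A, L b = B, L c = C`; `L 0 = κ`. Claim `L p ≤ ‖p‖²` for all `p ∈ C`. Otherwise `‖p‖² < L p`; write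
`p = α a + β b + γ c`, `α + β + γ = 1`. Some of `α, β, γ` is positive; let `τ = min {l/α, m/β, n/γ}` over the positive ones, `τ > 0`. Then
`0 = τ p + (l - τ α) a + (m - τ β) b + (n - τ γ) c`, all coefficients `≥ 0`, sum 1, and one of the last three is `0`: a triple of `C` with value
`τ ‖p‖² + (l - τα) A + ... = κ + τ (‖p‖² - L p) < κ`: contradiction to minimality.
(iv) `pair_exists` gives a pair of the triple with `dt ≤ -κ/2`; `lens_empty` and (iii) give the claim.

`hull_card` = HullStatement: translate so that `x = 0` (replace everything by `p - x`; or do `hull_lens` for general `x`: `hull_lens'`). For `a, b` of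
`hull_lens`: the sets `{p ∈ C | ∀ f ∈ F, dist a p < dist a f}` and the one for `b` are disjoint (a common `p` has `dist a p < dist a x`,
`dist b p < dist b x`), each has at least `k + 1` elements by `Sep`.
-/

namespace Pool.Agent.H77.KN

open Finset

theorem HullA_sq (z : ℂ) : ‖z‖ ^ 2 = z.re ^ 2 + z.im ^ 2 := by
  rw [Complex.sq_norm, Complex.normSq_apply]
  ring

theorem HullA_lt {p a : ℂ} (h : ‖p - a‖ < ‖a‖) : ‖p‖ ^ 2 < 2 * dt p a := by
  have h1 : ‖p - a‖ ^ 2 < ‖a‖ ^ 2 := by
    have h0 := norm_nonneg (p - a)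
    nlinarith
  rw [HullA_sq, HullA_sq, Complex.sub_re, Complex.sub_im] at h1
  rw [HullA_sq]
  unfold dt
  nlinarith

theorem HullA_alg {x y A B g κ P : ℝ} (hκ : 0 ≤ κ) (hg : κ / 2 ≤ g) (hcs : g ^ 2 ≤ A * B)
    (hA : 0 < A) (hB : 0 < B) (hP : 0 < P) (h1 : P < 2 * (x * A - y * g))
    (h2 : P < 2 * (y * B - x * g)) (h3 : P = x * (x * A - y * g) + y * (y * B - x * g)) :
    P < κ + x * (A - κ) + y * (B - κ) := by
  have hg0 : 0 ≤ g := by linarith
  have hx : 0 < x := by
    by_contra hx
    have hx : x ≤ 0 := not_lt.1 hx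
    have e1 : y * g < x * A := by linarith
    have e2 : x * A ≤ 0 := mul_nonpos_of_nonpos_of_nonneg hx hA.le
    have hy : y < 0 := by
      by_contra hy
      have := mul_nonneg (not_lt.1 hy) hg0
      linarith
    have e3 : x * g < y * B := by linarith
    have e4 : y * B < 0 := mul_neg_of_neg_of_pos hy hB
    have hx' : x < 0 := by
      rcases hx.lt_or_eq with h | h
      · exact h
      · rw [h, zero_mul] at e3
        linarith
    have e5 : (-x) * A < (-y) * g := by linarith
    have e6 : (-y) * B < (-x) * g := by linarith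
    have e7 : ((-x) * A) * ((-y) * B) < ((-y) * g) * ((-x) * g) :=
      mul_lt_mul'' e5 e6 (mul_nonneg (by linarith) hA.le) (mul_nonneg (by linarith) hB.le)
    have e8 : 0 < (-x) * (-y) := mul_pos (by linarith) (by linarith)
    have e9 : (-x) * (-y) * (A * B - g ^ 2) < 0 := by nlinarith
    have e10 : 0 ≤ (-x) * (-y) * (A * B - g ^ 2) := mul_nonneg e8.le (by linarith)
    linarith
  have hy : 0 < y := by
    by_contra hy
    have hy : y ≤ 0 := not_lt.1 hy
    have e1 : 0 ≤ x * g := mul_nonneg hx.le hg0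
    have e2 : y * B ≤ 0 := mul_nonpos_of_nonpos_of_nonneg hy hB.le
    linarith
  have hxy : x + y < 2 := by
    have e1 : x * P < x * (2 * (x * A - y * g)) := mul_lt_mul_of_pos_left h1 hx
    have e2 : y * P < y * (2 * (y * B - x * g)) := mul_lt_mul_of_pos_left h2 hy
    have e3 : (x + y) * P < 2 * P := by nlinarith
    exact lt_of_mul_lt_mul_right e3 hP.le
  have hk : (κ - g) * (x + y) ≤ κ := by
    rcases le_or_gt (κ - g) 0 with h | h
    · have := mul_nonpos_of_nonpos_of_nonneg h (add_pos hx hy).le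
      linarith
    · calc (κ - g) * (x + y) ≤ (κ - g) * 2 := mul_le_mul_of_nonneg_left hxy.le h.le
        _ ≤ κ := by linarith
  nlinarith

theorem lens_empty {a b p : ℂ} {κ : ℝ} (hκ : 0 ≤ κ) (hg : dt a b ≤ -κ / 2)
    (L : ℂ → ℝ) (u : ℂ) (hL : ∀ q, L q = κ + dt q u) (hLa : L a = ‖a‖ ^ 2) (hLb : L b = ‖b‖ ^ 2)
    (hpa : ‖p - a‖ < ‖a‖) (hpb : ‖p - b‖ < ‖b‖) : ‖p‖ ^ 2 < L p := by
  have hp1 := HullA_lt hpa
  have hp2 := HullA_lt hpb
  have hdpa : 0 < dt p a := by
    have := sq_nonneg ‖p‖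
    linarith
  have hdpb : 0 < dt p b := by
    have := sq_nonneg ‖p‖
    linarith
  rw [hL a, HullA_sq] at hLa
  rw [hL b, HullA_sq] at hLb
  rw [hL p, HullA_sq]
  rw [HullA_sq] at hp1 hp2
  unfold dt at *
  have hP : 0 < p.re ^ 2 + p.im ^ 2 := by
    by_contra hne
    have h1 := sq_nonneg p.re
    have h2 := sq_nonneg p.im
    have h3 : p.re ^ 2 = 0 := by linarith
    have h4 : p.im ^ 2 = 0 := by linarith
    have h5 : p.re = 0 := by simpa using h3
    have h6 : p.im = 0 := by simpa using h4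
    rw [h5, h6] at hdpa
    simp at hdpa
  have hA : 0 < a.re ^ 2 + a.im ^ 2 := by
    by_contra hne
    have h1 := sq_nonneg a.re
    have h2 := sq_nonneg a.im
    have h3 : a.re ^ 2 = 0 := by linarith
    have h4 : a.im ^ 2 = 0 := by linarith
    have h5 : a.re = 0 := by simpa using h3
    have h6 : a.im = 0 := by simpa using h4
    rw [h5, h6] at hdpa
    simp at hdpa
  have hB : 0 < b.re ^ 2 + b.im ^ 2 := by
    by_contra hne
    have h1 := sq_nonneg b.re
    have h2 := sq_nonneg b.im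
    have h3 : b.re ^ 2 = 0 := by linarith
    have h4 : b.im ^ 2 = 0 := by linarith
    have h5 : b.re = 0 := by simpa using h3
    have h6 : b.im = 0 := by simpa using h4
    rw [h5, h6] at hdpb
    simp at hdpb
  by_cases hdet : a.re * b.im - a.im * b.re = 0
  · exfalso
    have h1 : (a.re ^ 2 + a.im ^ 2) * (p.re * b.re + p.im * b.im) =
        (a.re * b.re + a.im * b.im) * (p.re * a.re + p.im * a.im) := by
      linear_combination (p.im * a.re - p.re * a.im) * hdet
    have h2 : 0 < (a.re ^ 2 + a.im ^ 2) * (p.re * b.re + p.im * b.im) := mul_pos hA hdpb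
    have h3 : (a.re * b.re + a.im * b.im) * (p.re * a.re + p.im * a.im) ≤ 0 :=
      mul_nonpos_of_nonpos_of_nonneg (by linarith) hdpa.le
    linarith
  · obtain ⟨x, hx⟩ : ∃ x, x = (p.re * b.im - p.im * b.re) / (a.re * b.im - a.im * b.re) :=
      ⟨_, rfl⟩
    obtain ⟨y, hy⟩ : ∃ y, y = (a.re * p.im - a.im * p.re) / (a.re * b.im - a.im * b.re) :=
      ⟨_, rfl⟩
    have e1 : p.re = x * a.re + y * b.re := by
      rw [hx, hy, div_mul_eq_mul_div, div_mul_eq_mul_div, ← add_div, eq_div_iff hdet]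
      ring
    have e2 : p.im = x * a.im + y * b.im := by
      rw [hx, hy, div_mul_eq_mul_div, div_mul_eq_mul_div, ← add_div, eq_div_iff hdet]
      ring
    have e3 : p.re * a.re + p.im * a.im =
        x * (a.re ^ 2 + a.im ^ 2) - y * (-(a.re * b.re + a.im * b.im)) := by
      rw [e1, e2]
      ring
    have e4 : p.re * b.re + p.im * b.im =
        y * (b.re ^ 2 + b.im ^ 2) - x * (-(a.re * b.re + a.im * b.im)) := by
      rw [e1, e2]
      ring
    have h := HullA_alg (x := x) (y := y) (A := a.re ^ 2 + a.im ^ 2) (B := b.re ^ 2 + b.im ^ 2)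
      (g := -(a.re * b.re + a.im * b.im)) (κ := κ) (P := p.re ^ 2 + p.im ^ 2) hκ (by linarith)
      (by nlinarith [sq_nonneg (a.re * b.im - a.im * b.re)]) hA hB hP
      (by rw [← e3]; exact hp1) (by rw [← e4]; exact hp2)
      (by rw [← e3, ← e4]; linear_combination p.re * e1 + p.im * e2)
    have e5 : κ + x * (a.re ^ 2 + a.im ^ 2 - κ) + y * (b.re ^ 2 + b.im ^ 2 - κ) =
        κ + (p.re * u.re + p.im * u.im) := by
      rw [← hLa, ← hLb]
      linear_combination (-u.re) * e1 - u.im * e2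
    rw [e5] at h
    exact h

theorem pair_exists {a b c : ℂ} {l m n : ℝ} (hl : 0 ≤ l) (hm : 0 ≤ m) (hn : 0 ≤ n) (h1 : l + m + n = 1)
    (h0 : (l : ℂ) * a + (m : ℂ) * b + (n : ℂ) * c = 0) :
    let κ := l * ‖a‖ ^ 2 + m * ‖b‖ ^ 2 + n * ‖c‖ ^ 2
    dt a b ≤ -κ / 2 ∨ dt b c ≤ -κ / 2 ∨ dt c a ≤ -κ / 2 := by
  intro κ
  have hre := congrArg Complex.re h0
  have him := congrArg Complex.im h0
  simp only [Complex.add_re, Complex.add_im, Complex.mul_re, Complex.mul_im, Complex.ofReal_re,
    Complex.ofReal_im, zero_mul, sub_zero, add_zero, Complex.zero_re, Complex.zero_im] at hre him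
  have hκ : κ = l * (a.re ^ 2 + a.im ^ 2) + m * (b.re ^ 2 + b.im ^ 2) +
      n * (c.re ^ 2 + c.im ^ 2) := by
    show l * ‖a‖ ^ 2 + m * ‖b‖ ^ 2 + n * ‖c‖ ^ 2 = _
    rw [HullA_sq, HullA_sq, HullA_sq]
  by_contra hcon
  push Not at hcon
  obtain ⟨h2, h3, h4⟩ := hcon
  have hsum : κ + (l + m) * dt a b + (m + n) * dt b c + (n + l) * dt c a = 0 := by
    rw [hκ]
    unfold dt
    linear_combination (a.re + b.re + c.re) * hre + (a.im + b.im + c.im) * him
  have t1 : 0 ≤ (l + m) * (dt a b + κ / 2) := mul_nonneg (by linarith) (by linarith)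
  have t2 : 0 ≤ (m + n) * (dt b c + κ / 2) := mul_nonneg (by linarith) (by linarith)
  have t3 : 0 ≤ (n + l) * (dt c a + κ / 2) := mul_nonneg (by linarith) (by linarith)
  have hs : (l + m) * (dt a b + κ / 2) + (m + n) * (dt b c + κ / 2) +
      (n + l) * (dt c a + κ / 2) = 0 := by
    linear_combination hsum + κ * h1
  have u1 : l + m = 0 := by
    have h5 : (l + m) * (dt a b + κ / 2) = 0 := by linarith
    rcases mul_eq_zero.1 h5 with h | h
    · exact h
    · linarith
  have u2 : m + n = 0 := by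
    have h5 : (m + n) * (dt b c + κ / 2) = 0 := by linarith
    rcases mul_eq_zero.1 h5 with h | h
    · exact h
    · linarith
  linarith

end Pool.Agent.H77.KN
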