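import Pool.Agent.H77.KN.HullA

/-!
# Row HullB (part of Hull) (MP_72793b): a foreign point in the convex hull forces `2 (k+1)` points

`lens_empty` (pure algebra). `a, b : ℂ`, `A = ‖a‖²`, `B = ‖b‖²`, `κ ≥ 0`, `g = - dt a b ≥ κ/2`, and `L p` an affine function with `L a = A`, `L b = B`,
`L 0 = κ`. If `‖p - a‖ < ‖a‖` and `‖p - b‖ < ‖b‖` then `‖p‖² < L p`.
Proof. The hypotheses say `‖p‖² < 2 dt p a` and `‖p‖² < 2 dt p b`; in particular `p ≠ 0`.
Case 1: `a, b` linearly independent: `p = x a + y b` (Cramer: `x = (p.re b.im - p.im b.re)/det` ...). `dt p a = x A - y g`, `dt p b = y B - x g`,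
both `> 0`. `x, y > 0`: if `x ≤ 0` then `y g < x A ≤ 0` so `y < 0`, and `y B > x g`; then `(-x) A < (-y) g`, `(-y) B < (-x) g`; multiply:
`(-x)(-y) A B < (-x)(-y) g²` (if `x = 0` then `0 < (-y) g` and `(-y) B < 0` contradiction), but `g² ≤ A B` (Cauchy-Schwarz). Symmetric for `y`.
`x (first) + y (second)`: `(x + y) ‖p‖² < 2 (x dt p a + y dt p b) = 2 ‖p‖²`, so `x + y < 2`.
Sum of the hypotheses divided by two: `‖p‖² < dt p a + dt p b = x A + y B - g (x + y)`.
`L p = x A + y B + κ (1 - x - y)`. Need `- g (x+y) ≤ κ - κ (x+y)`, i.e. `(κ - g)(x+y) ≤ κ`: clear if `g ≥ κ`; else `κ - g ≤ κ/2` and `x+y < 2`.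
Case 2: `a, b` dependent (`a.re b.im = a.im b.re`), `dt a b ≤ 0`. If `a = 0` or `b = 0`, `‖p - a‖ < ‖a‖` is false. Otherwise `b = -τ a` with
`τ > 0` (`dt a b = -√(AB) ≠ 0`), and `dt p a > 0`, `dt p b = -τ dt p a > 0` is impossible.

`pair_exists`: `a, b, c` with `l a + m b + n c = 0`, `l, m, n ≥ 0`, `l + m + n = 1`, `κ = l A + m B + n C`: one of `dt a b, dt b c, dt c a` is `≤ -κ/2`.
Proof: `0 = l dt a a + m dt a b + n dt a c` etc. (`dt a 0 = 0`); the sum of the three equations is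
`κ + (l+m) dt a b + (m+n) dt b c + (n+l) dt c a = 0` and the weights sum to `2` (`by_contra`, `nlinarith`; note some weight is positive).

`hull_lens`: `C` finite, `0 ∈ convexHull ℝ C`, `0 ∉ C`: there are `a, b ∈ C` such that no `p ∈ C` has `‖p - a‖ < ‖a‖` and `‖p - b‖ < ‖b‖`.
Proof. (i) If `0 ∈ [a,b]` with `a, b ∈ C` (i.e. `0 = (1-τ) a + τ b`): `dt p a > 0` and `dt p b > 0` are contradictory. So assume this never happens.
(ii) Caratheodory (`convexHull_eq_union` or `eq_pos_convex_span_of_mem_convexHull`): `0` is a convex combination of at most 3 affinely independent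
points of `C`; by (i) exactly three, all weights `> 0`. Consider the finite set of all triples `(a,b,c) ∈ C³` such that
`0 = l a + m b + n c` for some `l, m, n ≥ 0` with sum 1; by (i) `l, m, n > 0` and `a, b, c` are affinely independent (otherwise `0` is on a segment: 
three collinear points whose hull contains 0), so the weights are unique: by Cramer `l = cr b c / Δ`, ... with `cr b c = b.re c.im - b.im c.re`,
`Δ = cr a b + cr b c + cr c a ≠ 0`. Choose a triple with minimal `κ = l A + m B + n C` (choose weights for each triple, `Finset.exists_min_image`).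
(iii) Let `L` be the affine function with `L a = A, L b = B, L c = C`; `L 0 = κ`. Claim `L p ≤ ‖p‖²` for all `p ∈ C`. Otherwise `‖p‖² < L p`; write
`p = α a + β b + γ c`, `α + β + γ = 1`. Some of `α, β, γ` is positive; let `τ = min {l/α, m/β, n/γ}` over the positive ones, `τ > 0`. Then
`0 = τ p + (l - τ α) a + (m - τ β) b + (n - τ γ) c`, all coefficients `≥ 0`, sum 1, and one of the last three is `0`: a triple of `C` with value
`τ ‖p‖² + (l - τα) A + ... = κ + τ (‖p‖² - L p) < κ`: contradiction to minimality.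
(iv) `pair_exists` gives a pair of the triple with `dt ≤ -κ/2`; `lens_empty` and (iii) give the claim.

`hull_card` = HullStatement: translate so that `x = 0` (replace everything by `p - x`; or do `hull_lens` for general `x`: `hull_lens'`). For `a, b` of
`hull_lens`: the sets `{p ∈ C | ∀ f ∈ F, dist a p < dist a f}` and the one for `b` are disjoint (a common `p` has `dist a p < dist a x`,
`dist b p < dist b x`), each has at least `k + 1` elements by `Sep`.
-/

namespace Pool.Agent.H77.KN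

open Finset

/-- cross product -/
def HullB_cr (a b : ℂ) : ℝ := a.re * b.im - a.im * b.re

/-- `0` is the convex combination of `a, b, c` with weights `l, m, n` -/
structure HullB_rep (a b c : ℂ) (l m n : ℝ) : Prop where
  l0 : 0 ≤ l
  m0 : 0 ≤ m
  n0 : 0 ≤ n
  sum : l + m + n = 1
  re : l * a.re + m * b.re + n * c.re = 0
  im : l * a.im + m * b.im + n * c.im = 0

theorem HullB_rep.rot {a b c : ℂ} {l m n : ℝ} (h : HullB_rep a b c l m n) :
    HullB_rep b c a m n l :=
  ⟨h.m0, h.n0, h.l0, by linarith [h.sum], by linarith [h.re], by linarith [h.im]⟩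

theorem HullB_nsq (a : ℂ) : ‖a‖ ^ 2 = a.re * a.re + a.im * a.im := by
  rw [Complex.sq_norm, Complex.normSq_apply]

theorem HullB_nsq_pos {a : ℂ} (ha : a ≠ 0) : 0 < a.re * a.re + a.im * a.im := by
  rw [← HullB_nsq]
  exact pow_pos (norm_pos_iff.2 ha) 2

/-- from the lens condition -/
theorem HullB_dt {p a : ℂ} (h : ‖p - a‖ < ‖a‖) : ‖p‖ ^ 2 < 2 * dt p a := by
  have h1 : ‖p - a‖ ^ 2 < ‖a‖ ^ 2 := by
    have := norm_nonneg (p - a)
    nlinarith
  rw [HullB_nsq, HullB_nsq] at h1
  rw [HullB_nsq, dt]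
  simp only [Complex.sub_re, Complex.sub_im] at h1
  nlinarith

section

variable {C : Finset ℂ} (hC : (0 : ℂ) ∉ C)
  (H1 : ∀ a ∈ C, ∀ b ∈ C, HullB_cr a b = 0 → 0 ≤ dt a b)

include hC H1

theorem HullB_pos {a b c : ℂ} {l m n : ℝ} (hb : b ∈ C) (hc : c ∈ C)
    (h : HullB_rep a b c l m n) : 0 < l := by
  rcases h.l0.lt_or_eq with h0 | h0
  · exact h0
  exfalso
  have hb0 : b ≠ 0 := fun e => hC (e ▸ hb)
  have hc0 : c ≠ 0 := fun e => hC (e ▸ hc)
  have h1 := HullB_nsq_pos hb0
  have h2 := HullB_nsq_pos hc0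
  have hs := h.sum
  have hre := h.re
  have him := h.im
  rw [← h0] at hs hre him
  have e1 : m * HullB_cr b c = 0 := by
    rw [HullB_cr]
    linear_combination c.im * hre - c.re * him
  have e2 : n * HullB_cr b c = 0 := by
    rw [HullB_cr]
    linear_combination b.re * him - b.im * hre
  have e3 : HullB_cr b c = 0 := by
    have : (m + n) * HullB_cr b c = 0 := by linarith
    have hmn : m + n = 1 := by linarith
    rwa [hmn, one_mul] at this
  have e4 := H1 b hb c hc e3
  rw [dt] at e4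
  have e5 : m * (b.re * c.re + b.im * c.im) = - (n * (c.re * c.re + c.im * c.im)) := by
    linear_combination c.re * hre + c.im * him
  have e6 : n * (b.re * c.re + b.im * c.im) = - (m * (b.re * b.re + b.im * b.im)) := by
    linear_combination b.re * hre + b.im * him
  have g1 : 0 ≤ m * (b.re * c.re + b.im * c.im) := mul_nonneg h.m0 e4
  have g2 : 0 ≤ n * (b.re * c.re + b.im * c.im) := mul_nonneg h.n0 e4
  have g3 : 0 ≤ n * (c.re * c.re + c.im * c.im) := mul_nonneg h.n0 h2.le
  have g4 : 0 ≤ m * (b.re * b.re + b.im * b.im) := mul_nonneg h.m0 h1.le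
  have g5 : n * (c.re * c.re + c.im * c.im) = 0 := by linarith
  have g6 : m * (b.re * b.re + b.im * b.im) = 0 := by linarith
  have g7 : n = 0 := by
    rcases mul_eq_zero.1 g5 with g | g
    · exact g
    · exact absurd g h2.ne'
  have g8 : m = 0 := by
    rcases mul_eq_zero.1 g6 with g | g
    · exact g
    · exact absurd g h1.ne'
  rw [g7, g8] at hs
  norm_num at hs

omit hC H1 in
/-- area identity -/
theorem HullB_area {a b c : ℂ} {l m n : ℝ} (h : HullB_rep a b c l m n) :
    HullB_cr b c = l * (HullB_cr a b + HullB_cr b c + HullB_cr c a) := by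
  have hs := h.sum
  have hre := h.re
  have him := h.im
  simp only [HullB_cr]
  linear_combination (-(b.re * c.im - b.im * c.re)) * hs + (c.im - b.im) * hre + (b.re - c.re) * him

theorem HullB_ne {a b c : ℂ} {l m n : ℝ} (ha : a ∈ C) (hb : b ∈ C) (hc : c ∈ C)
    (h : HullB_rep a b c l m n) : HullB_cr a b + HullB_cr b c + HullB_cr c a ≠ 0 := by
  intro h0
  have hl := HullB_pos hC H1 hb hc h
  have hm := HullB_pos hC H1 hc ha h.rot
  have hn := HullB_pos hC H1 ha hb h.rot.rot
  have e2 : HullB_cr c a = 0 := by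
    have := HullB_area h.rot
    have e : HullB_cr b c + HullB_cr c a + HullB_cr a b = 0 := by linarith
    rw [e, mul_zero] at this
    exact this
  have e3 : HullB_cr a b = 0 := by
    have := HullB_area h.rot.rot
    have e : HullB_cr c a + HullB_cr a b + HullB_cr b c = 0 := by linarith
    rw [e, mul_zero] at this
    exact this
  have e2' : HullB_cr a c = 0 := by
    simp only [HullB_cr] at e2 ⊢
    linarith
  have g1 := H1 a ha b hb e3
  have g2 := H1 a ha c hc e2'
  have ha0 : a ≠ 0 := fun e => hC (e ▸ ha)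
  have h1 := HullB_nsq_pos ha0
  have e4 : l * (a.re * a.re + a.im * a.im) + m * dt a b + n * dt a c = 0 := by
    simp only [dt]
    linear_combination a.re * h.re + a.im * h.im
  have := mul_pos hl h1
  have := mul_nonneg hm.le g1
  have := mul_nonneg hn.le g2
  linarith

end

/-- value of a triple -/
noncomputable def HullB_v (t : ℂ × ℂ × ℂ) : ℝ :=
  (HullB_cr t.2.1 t.2.2 * ‖t.1‖ ^ 2 + HullB_cr t.2.2 t.1 * ‖t.2.1‖ ^ 2 +
    HullB_cr t.1 t.2.1 * ‖t.2.2‖ ^ 2) / (HullB_cr t.1 t.2.1 + HullB_cr t.2.1 t.2.2 + HullB_cr t.2.2 t.1)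

theorem HullB_val {a b c : ℂ} {l m n : ℝ} (h : HullB_rep a b c l m n)
    (h0 : HullB_cr a b + HullB_cr b c + HullB_cr c a ≠ 0) :
    HullB_v (a, b, c) = l * ‖a‖ ^ 2 + m * ‖b‖ ^ 2 + n * ‖c‖ ^ 2 := by
  have e1 := HullB_area h
  have e2 := HullB_area h.rot
  have e3 := HullB_area h.rot.rot
  rw [HullB_v, div_eq_iff h0]
  simp only
  generalize ‖a‖ ^ 2 = A
  generalize ‖b‖ ^ 2 = B
  generalize ‖c‖ ^ 2 = D
  linear_combination A * e1 + B * e2 + D * e3

/-- Caratheodory in the plane -/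
theorem HullB_car {C : Finset ℂ} (h0 : (0 : ℂ) ∈ convexHull ℝ (C : Set ℂ)) :
    ∃ a ∈ C, ∃ b ∈ C, ∃ c ∈ C, ∃ l m n, HullB_rep a b c l m n := by
  rw [convexHull_eq_union] at h0
  simp only [Set.mem_iUnion] at h0
  obtain ⟨t, ht, hind, h0⟩ := h0
  have hcard : t.card ≤ 3 := by
    have := hind.card_le_finrank_succ
    rw [Fintype.card_coe] at this
    have h2 : Module.finrank ℝ (vectorSpan ℝ (Set.range ((↑) : t → ℂ))) ≤ 2 := by
      have := Submodule.finrank_le (vectorSpan ℝ (Set.range ((↑) : t → ℂ)))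
      rwa [Complex.finrank_real_complex] at this
    omega
  have key : ∃ a ∈ C, ∃ b ∈ C, ∃ c ∈ C, t ⊆ {a, b, c} := by
    have hne : t.Nonempty := by
      by_contra hcon
      rw [Finset.not_nonempty_iff_eq_empty] at hcon
      subst hcon
      simp at h0
    have hpos := hne.card_pos
    have hc : t.card = 1 ∨ t.card = 2 ∨ t.card = 3 := by omega
    rcases hc with hc | hc | hc
    · obtain ⟨a, rfl⟩ := Finset.card_eq_one.1 hc
      have ha : a ∈ C := ht (by simp)
      exact ⟨a, ha, a, ha, a, ha, by simp⟩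
    · obtain ⟨a, b, -, rfl⟩ := Finset.card_eq_two.1 hc
      have ha : a ∈ C := ht (by simp)
      have hb : b ∈ C := ht (by simp)
      exact ⟨a, ha, b, hb, b, hb, by intro x hx; simpa using hx⟩
    · obtain ⟨a, b, c, -, -, -, rfl⟩ := Finset.card_eq_three.1 hc
      have ha : a ∈ C := ht (by simp)
      have hb : b ∈ C := ht (by simp)
      have hc : c ∈ C := ht (by simp)
      exact ⟨a, ha, b, hb, c, hc, subset_rfl⟩
  obtain ⟨a, ha, b, hb, c, hc, habc⟩ := key
  refine ⟨a, ha, b, hb, c, hc, ?_⟩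
  have h1 : (0 : ℂ) ∈ convexHull ℝ ({a, b, c} : Set ℂ) := by
    refine convexHull_mono ?_ h0
    intro x hx
    have := habc hx
    simpa using this
  rw [convexHull_insert (by simp), convexHull_pair, mem_convexJoin] at h1
  obtain ⟨a', ha', q, ⟨s, r, hs, hr, hsr, hq⟩, ⟨x, y, hx, hy, hxy, h0'⟩⟩ := h1
  rw [Set.mem_singleton_iff] at ha'
  subst ha'
  subst hq
  refine ⟨x, y * s, y * r, hx, mul_nonneg hy hs, mul_nonneg hy hr, ?_, ?_, ?_⟩
  · have : x + y * s + y * r = x + y * (s + r) := by ring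
    rw [this, hsr, mul_one, hxy]
  · have := congrArg Complex.re h0'
    simp only [Complex.add_re, Complex.real_smul, Complex.mul_re, Complex.ofReal_re,
      Complex.ofReal_im, zero_mul, sub_zero, Complex.zero_re, Complex.add_im] at this
    linarith
  · have := congrArg Complex.im h0'
    simp only [Complex.add_im, Complex.real_smul, Complex.mul_im, Complex.ofReal_re,
      Complex.ofReal_im, zero_mul, add_zero, Complex.zero_im, Complex.add_re] at this
    linarith

/-- the exchange step -/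
theorem HullB_exch {l m n α β γ : ℝ} (hl : 0 < l) (hm : 0 < m) (hn : 0 < n)
    (h : α + β + γ = 1) : ∃ τ : ℝ, 0 < τ ∧ 0 ≤ l - τ * α ∧ 0 ≤ m - τ * β ∧ 0 ≤ n - τ * γ ∧
      (l - τ * α = 0 ∨ m - τ * β = 0 ∨ n - τ * γ = 0) := by
  set t : ℝ := max (α / l) (max (β / m) (γ / n)) with ht
  have h1 : α / l ≤ t := le_max_left _ _
  have h2 : β / m ≤ t := (le_max_left _ _).trans (le_max_right _ _)
  have h3 : γ / n ≤ t := (le_max_right _ _).trans (le_max_right _ _)
  have k1 : α ≤ t * l := (div_le_iff₀ hl).1 h1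
  have k2 : β ≤ t * m := (div_le_iff₀ hm).1 h2
  have k3 : γ ≤ t * n := (div_le_iff₀ hn).1 h3
  have htpos : 0 < t := by
    by_contra hcon
    push Not at hcon
    have g1 : t * l ≤ 0 := mul_nonpos_of_nonpos_of_nonneg hcon hl.le
    have g2 : t * m ≤ 0 := mul_nonpos_of_nonpos_of_nonneg hcon hm.le
    have g3 : t * n ≤ 0 := mul_nonpos_of_nonpos_of_nonneg hcon hn.le
    linarith
  have aux : ∀ x y : ℝ, x ≤ t * y → 0 ≤ y - t⁻¹ * x := by
    intro x y hxy
    have : t⁻¹ * x ≤ t⁻¹ * (t * y) := mul_le_mul_of_nonneg_left hxy (inv_pos.2 htpos).le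
    rw [inv_mul_cancel_left₀ htpos.ne'] at this
    linarith
  have aux2 : ∀ x y : ℝ, 0 < y → t = x / y → y - t⁻¹ * x = 0 := by
    intro x y hy hxy
    have : x = t * y := by rw [hxy]; field_simp
    rw [this, inv_mul_cancel_left₀ htpos.ne', sub_self]
  refine ⟨t⁻¹, inv_pos.2 htpos, aux _ _ k1, aux _ _ k2, aux _ _ k3, ?_⟩
  rcases max_choice (α / l) (max (β / m) (γ / n)) with g | g
  · exact Or.inl (aux2 _ _ hl (ht.trans g))
  · rcases max_choice (β / m) (γ / n) with g' | g'
    · exact Or.inr (Or.inl (aux2 _ _ hm (ht.trans (g.trans g'))))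
    · exact Or.inr (Or.inr (aux2 _ _ hn (ht.trans (g.trans g'))))

theorem hull_lens {C : Finset ℂ} (h0 : (0 : ℂ) ∈ convexHull ℝ (C : Set ℂ)) (hC : (0 : ℂ) ∉ C) :
    ∃ a ∈ C, ∃ b ∈ C, ∀ p ∈ C, ‖p - a‖ < ‖a‖ → ‖p - b‖ < ‖b‖ → False := by
  classical
  by_cases H : ∃ a ∈ C, ∃ b ∈ C, HullB_cr a b = 0 ∧ dt a b < 0
  · obtain ⟨a, ha, b, hb, hcr, hdt⟩ := H
    refine ⟨a, ha, b, hb, fun p _ hpa hpb => ?_⟩
    have ha0 : a ≠ 0 := fun e => hC (e ▸ ha)
    have h1 := HullB_nsq_pos ha0
    have e1 : 0 < dt p a := by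
      have := HullB_dt hpa
      have := sq_nonneg ‖p‖
      linarith
    have e2 : 0 < dt p b := by
      have := HullB_dt hpb
      have := sq_nonneg ‖p‖
      linarith
    have e3 : (a.re * a.re + a.im * a.im) * dt p b = dt a b * dt p a := by
      simp only [dt, HullB_cr] at hcr ⊢
      linear_combination (a.re * p.im - a.im * p.re) * hcr
    have g1 := mul_pos h1 e2
    have g2 := mul_neg_of_neg_of_pos hdt e1
    linarith
  push Not at H
  have H1 : ∀ a ∈ C, ∀ b ∈ C, HullB_cr a b = 0 → 0 ≤ dt a b := H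
  -- the minimal triple
  set T : Finset (ℂ × ℂ × ℂ) := (C ×ˢ C ×ˢ C).filter
    (fun t => ∃ l m n, HullB_rep t.1 t.2.1 t.2.2 l m n) with hT
  have hTne : T.Nonempty := by
    obtain ⟨a, ha, b, hb, c, hc, hr⟩ := HullB_car h0
    exact ⟨(a, b, c), by simp only [hT, Finset.mem_filter, Finset.mem_product]; exact ⟨⟨ha, hb, hc⟩, hr⟩⟩
  obtain ⟨⟨a, b, c⟩, ht, hmin⟩ := Finset.exists_min_image T HullB_v hTne
  simp only [hT, Finset.mem_filter, Finset.mem_product] at ht
  obtain ⟨⟨ha, hb, hc⟩, l, m, n, hr⟩ := ht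
  have hl := HullB_pos hC H1 hb hc hr
  have hm := HullB_pos hC H1 hc ha hr.rot
  have hn := HullB_pos hC H1 ha hb hr.rot.rot
  have hΔ := HullB_ne hC H1 ha hb hc hr
  have hv := HullB_val hr hΔ
  have hmin' : ∀ a' ∈ C, ∀ b' ∈ C, ∀ c' ∈ C, ∀ l' m' n', HullB_rep a' b' c' l' m' n' →
      l * ‖a‖ ^ 2 + m * ‖b‖ ^ 2 + n * ‖c‖ ^ 2 ≤ l' * ‖a'‖ ^ 2 + m' * ‖b'‖ ^ 2 + n' * ‖c'‖ ^ 2 := by
    intro a' ha' b' hb' c' hc' l' m' n' hr'
    rw [← hv, ← HullB_val hr' (HullB_ne hC H1 ha' hb' hc' hr')]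
    refine hmin (a', b', c') ?_
    simp only [hT, Finset.mem_filter, Finset.mem_product]
    exact ⟨⟨ha', hb', hc'⟩, l', m', n', hr'⟩
  set κ : ℝ := l * ‖a‖ ^ 2 + m * ‖b‖ ^ 2 + n * ‖c‖ ^ 2 with hκ
  have hκ0 : 0 ≤ κ := by
    have := mul_nonneg hl.le (sq_nonneg ‖a‖)
    have := mul_nonneg hm.le (sq_nonneg ‖b‖)
    have := mul_nonneg hn.le (sq_nonneg ‖c‖)
    linarith
  -- the affine function
  have hcr : HullB_cr a b ≠ 0 := by
    have e := HullB_area hr.rot.rot
    rw [e]
    refine mul_ne_zero hn.ne' ?_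
    have : HullB_cr c a + HullB_cr a b + HullB_cr b c =
      HullB_cr a b + HullB_cr b c + HullB_cr c a := by ring
    rw [this]
    exact hΔ
  obtain ⟨u, hua, hub⟩ : ∃ u : ℂ, dt a u = ‖a‖ ^ 2 - κ ∧ dt b u = ‖b‖ ^ 2 - κ := by
    refine ⟨⟨((‖a‖ ^ 2 - κ) * b.im - (‖b‖ ^ 2 - κ) * a.im) / HullB_cr a b,
      (a.re * (‖b‖ ^ 2 - κ) - b.re * (‖a‖ ^ 2 - κ)) / HullB_cr a b⟩, ?_, ?_⟩
    · simp only [dt]
      generalize ‖a‖ ^ 2 = A
      generalize ‖b‖ ^ 2 = B
      field_simp
      simp only [HullB_cr]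
      ring
    · simp only [dt]
      generalize ‖a‖ ^ 2 = A
      generalize ‖b‖ ^ 2 = B
      field_simp
      simp only [HullB_cr]
      ring
  have huc : dt c u = ‖c‖ ^ 2 - κ := by
    have e : l * dt a u + m * dt b u + n * dt c u = 0 := by
      simp only [dt]
      linear_combination u.re * hr.re + u.im * hr.im
    rw [hua, hub] at e
    have e2 : n * dt c u = n * (‖c‖ ^ 2 - κ) := by
      have hs := hr.sum
      have e3 : n * dt c u = -(l * ‖a‖ ^ 2 + m * ‖b‖ ^ 2) + (l + m) * κ := by linarith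
      rw [e3]
      have e4 : l * ‖a‖ ^ 2 + m * ‖b‖ ^ 2 = κ - n * ‖c‖ ^ 2 := by rw [hκ]; ring
      have e5 : l + m = 1 - n := by linarith
      rw [e4, e5]
      ring
    exact mul_left_cancel₀ hn.ne' e2
  have hLp : ∀ p ∈ C, κ + dt p u ≤ ‖p‖ ^ 2 := by
    intro p hp
    by_contra hcon
    push Not at hcon
    set Δ : ℝ := HullB_cr a b + HullB_cr b c + HullB_cr c a with hΔdef
    obtain ⟨α, β, γ, hsum, hpre, hpim⟩ : ∃ α β γ : ℝ, α + β + γ = 1 ∧
        p.re = α * a.re + β * b.re + γ * c.re ∧ p.im = α * a.im + β * b.im + γ * c.im := by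
      refine ⟨(HullB_cr p b + HullB_cr b c + HullB_cr c p) / Δ,
        (HullB_cr a p + HullB_cr p c + HullB_cr c a) / Δ,
        (HullB_cr a b + HullB_cr b p + HullB_cr p a) / Δ, ?_, ?_, ?_⟩
      · rw [← add_div, ← add_div, div_eq_iff hΔ, hΔdef]
        simp only [HullB_cr]
        ring
      · field_simp
        rw [hΔdef]
        simp only [HullB_cr]
        ring
      · field_simp
        rw [hΔdef]
        simp only [HullB_cr]
        ring
    obtain ⟨τ, hτ, k1, k2, k3, kz⟩ := HullB_exch hl hm hn hsum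
    have hL : dt p u + κ = α * ‖a‖ ^ 2 + β * ‖b‖ ^ 2 + γ * ‖c‖ ^ 2 := by
      have e1 : dt p u = α * dt a u + β * dt b u + γ * dt c u := by
        simp only [dt]
        rw [hpre, hpim]
        ring
      rw [e1, hua, hub, huc]
      have : κ = (α + β + γ) * κ := by rw [hsum, one_mul]
      linarith
    have hval : τ * ‖p‖ ^ 2 + (l - τ * α) * ‖a‖ ^ 2 + (m - τ * β) * ‖b‖ ^ 2 +
        (n - τ * γ) * ‖c‖ ^ 2 < κ := by
      have e1 : τ * ‖p‖ ^ 2 + (l - τ * α) * ‖a‖ ^ 2 + (m - τ * β) * ‖b‖ ^ 2 +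
        (n - τ * γ) * ‖c‖ ^ 2 = κ + τ * (‖p‖ ^ 2 - (dt p u + κ)) := by
        rw [hL]
        simp only [hκ]
        ring
      rw [e1]
      have : τ * (‖p‖ ^ 2 - (dt p u + κ)) < 0 := mul_neg_of_pos_of_neg hτ (by linarith)
      linarith
    have hsum' : τ + (l - τ * α) + (m - τ * β) + (n - τ * γ) = 1 := by
      have hs := hr.sum
      have : τ * α + τ * β + τ * γ = τ := by
        rw [← mul_add, ← mul_add, hsum, mul_one]
      linarith
    have hre' : τ * p.re + (l - τ * α) * a.re + (m - τ * β) * b.re + (n - τ * γ) * c.re = 0 := by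
      rw [hpre]
      linear_combination hr.re
    have him' : τ * p.im + (l - τ * α) * a.im + (m - τ * β) * b.im + (n - τ * γ) * c.im = 0 := by
      rw [hpim]
      linear_combination hr.im
    rcases kz with kz | kz | kz
    · rw [kz] at hval hsum' hre' him'
      have := hmin' p hp b hb c hc τ (m - τ * β) (n - τ * γ)
        ⟨hτ.le, k2, k3, by linarith, by linarith, by linarith⟩
      linarith
    · rw [kz] at hval hsum' hre' him'
      have := hmin' p hp a ha c hc τ (l - τ * α) (n - τ * γ)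
        ⟨hτ.le, k1, k3, by linarith, by linarith, by linarith⟩
      linarith
    · rw [kz] at hval hsum' hre' him'
      have := hmin' p hp a ha b hb τ (l - τ * α) (m - τ * β)
        ⟨hτ.le, k1, k2, by linarith, by linarith, by linarith⟩
      linarith
  -- conclusion
  have hfin : ∀ a' ∈ C, ∀ b' ∈ C, dt a' b' ≤ -κ / 2 → dt a' u = ‖a'‖ ^ 2 - κ →
      dt b' u = ‖b'‖ ^ 2 - κ →
      ∀ p ∈ C, ‖p - a'‖ < ‖a'‖ → ‖p - b'‖ < ‖b'‖ → False := by
    intro a' _ b' _ hab hua' hub' p hp hpa hpb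
    have := lens_empty (a := a') (b := b') (p := p) (κ := κ) hκ0 hab
      (fun q => κ + dt q u) u (fun q => rfl) (by simp only [hua']; ring) (by simp only [hub']; ring)
      hpa hpb
    exact absurd this (not_lt.2 (hLp p hp))
  have hz : (l : ℂ) * a + (m : ℂ) * b + (n : ℂ) * c = 0 := by
    apply Complex.ext
    · simp only [Complex.add_re, Complex.mul_re, Complex.ofReal_re, Complex.ofReal_im, zero_mul,
        sub_zero, Complex.zero_re]
      exact hr.re
    · simp only [Complex.add_im, Complex.mul_im, Complex.ofReal_re, Complex.ofReal_im, zero_mul,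
        add_zero, Complex.zero_im]
      exact hr.im
  rcases pair_exists hl.le hm.le hn.le hr.sum hz with h | h | h
  · exact ⟨a, ha, b, hb, hfin a ha b hb h hua hub⟩
  · exact ⟨b, hb, c, hc, hfin b hb c hc h hub huc⟩
  · exact ⟨c, hc, a, ha, hfin c hc a ha h huc hua⟩

end Pool.Agent.H77.KN
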