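import Pool.Agent.H77.KN.Fub

/-!
# Row LensA (part of Lens) (MP_72793b): area of the lens of two discs

(1) `lens_unit`: the two unit discs with centres `0` and `1` meet in area `≥ 1.228` (exact value `2π/3 - √3/2 = 1.22837`).
Proof. For real `x ∈ (1/2, 1)` the slice (points `x + i y`) of the intersection contains `|y| < √(1 - x²)` (as `|x - 1| ≤ |x|`), for
`x ∈ (0, 1/2)` it contains `|y| < √(1 - (1-x)²)`. So by `volume_slices` the area is at least `∫_{1/2}^{1} 2√(1-x²) dx + ∫_0^{1/2} 2√(1-(1-x)²) dx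
= 4 ∫_{1/2}^1 √(1-x²) dx = 4 (π/6 - √3/8)`. The integral: the derivative of `(x √(1-x²) + arcsin x)/2` is `√(1-x²)` on `(-1,1)`
(`integral_eq_sub_of_hasDerivAt_of_..`, continuous on the closed interval: `intervalIntegral.integral_eq_sub_of_hasDerivAt_of_le`;
see also the proof of `integral_sqrt_one_sub_sq`), `arcsin (1/2) = π/6` (`Real.arcsin_eq_of_sin_eq`, `Real.sin_pi_div_six`).
Numbers: `π > 3.1415`, `√3 < 1.7321` give `> 1.2283`.
(2) `lens`: `dist z t = R`, `R ≤ R'`, `0 < ρ ≤ R`: `|B(z,R') ∩ B(t,ρ)| ≥ 1.228 ρ²`.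
Proof. Put `z' = t + (ρ/R)(z - t)`, `dist z' t = ρ`, `dist z z' = R - ρ`, so `B(z',ρ) ⊆ B(z,R) ⊆ B(z,R')`. The map
`w ↦ t + (z' - t) w` (a similarity with factor `ρ`) sends `B(0,1) ∩ B(1,1)` onto `B(t,ρ) ∩ B(z',ρ)`; areas are multiplied by `ρ²`
(split it as `w ↦ ρ w` (`Measure.addHaar_preimage_smul`), a rotation (`volume_rot`) and a translation).
-/

namespace Pool.Agent.H77.KN

open MeasureTheory Finset

lemma LensA_int : ∫ x in (1/2 : ℝ)..1, Real.sqrt (1 - x ^ 2) = Real.pi / 6 - Real.sqrt 3 / 8 := by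
  have hd : ∀ x ∈ Set.Ioo (1/2 : ℝ) 1, HasDerivAt (fun x : ℝ => (x * Real.sqrt (1 - x ^ 2) + Real.arcsin x) / 2)
      (Real.sqrt (1 - x ^ 2)) x := by
    intro x hx
    have h1 : 0 < 1 - x ^ 2 := by nlinarith [hx.1, hx.2]
    have hs : Real.sqrt (1 - x ^ 2) ≠ 0 := (Real.sqrt_pos.2 h1).ne'
    have hA : HasDerivAt (fun x : ℝ => 1 - x ^ 2) (- (2 * x)) x := by
      have := (hasDerivAt_pow 2 x).const_sub 1
      simpa using this
    have hB := hA.sqrt h1.ne'
    have hC := (hasDerivAt_id' x).mul hB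
    have hD := Real.hasDerivAt_arcsin (x := x) (by linarith [hx.1]) (by linarith [hx.2])
    have hE := (hC.add hD).div_const 2
    refine hE.congr_deriv ?_
    have hsq : Real.sqrt (1 - x ^ 2) ^ 2 = 1 - x ^ 2 := Real.sq_sqrt h1.le
    field_simp
    nlinarith [hsq]
  have hc : ContinuousOn (fun x : ℝ => (x * Real.sqrt (1 - x ^ 2) + Real.arcsin x) / 2) (Set.Icc (1/2 : ℝ) 1) := by
    apply Continuous.continuousOn
    have := Real.continuous_arcsin
    fun_prop
  have hi : IntervalIntegrable (fun x : ℝ => Real.sqrt (1 - x ^ 2)) volume (1/2 : ℝ) 1 := by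
    apply Continuous.intervalIntegrable
    fun_prop
  rw [intervalIntegral.integral_eq_sub_of_hasDerivAt_of_le (by norm_num) hc hd hi]
  have h3 : Real.arcsin (1/2) = Real.pi / 6 := by
    apply Real.arcsin_eq_of_sin_eq
    · rw [Real.sin_pi_div_six]
    · constructor <;> linarith [Real.pi_pos]
  have h4 : Real.sqrt (1 - (1/2 : ℝ) ^ 2) = Real.sqrt 3 / 2 := by
    rw [show (1 - (1/2 : ℝ) ^ 2) = 3 / 2 ^ 2 by norm_num, Real.sqrt_div (by norm_num), Real.sqrt_sq (by norm_num)]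
  rw [h3, h4]
  simp only [one_pow, sub_self, Real.sqrt_zero, mul_zero, Real.arcsin_one]
  ring

lemma LensA_int2 : ∫ x in (0 : ℝ)..1, 2 * Real.sqrt (1 - (max x (1 - x)) ^ 2) = 4 * (Real.pi / 6 - Real.sqrt 3 / 8) := by
  have hcont : Continuous (fun x : ℝ => 2 * Real.sqrt (1 - (max x (1 - x)) ^ 2)) := by fun_prop
  rw [← intervalIntegral.integral_add_adjacent_intervals (hcont.intervalIntegrable 0 (1/2)) (hcont.intervalIntegrable (1/2) 1)]
  have e1 : ∫ x in (1/2 : ℝ)..1, 2 * Real.sqrt (1 - (max x (1 - x)) ^ 2) = 2 * ∫ x in (1/2 : ℝ)..1, Real.sqrt (1 - x ^ 2) := by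
    rw [← intervalIntegral.integral_const_mul]
    apply intervalIntegral.integral_congr
    intro x hx
    rw [Set.uIcc_of_le (by norm_num)] at hx
    have : max x (1 - x) = x := max_eq_left (by linarith [hx.1])
    simp only [this]
  have e2 : ∫ x in (0 : ℝ)..(1/2), 2 * Real.sqrt (1 - (max x (1 - x)) ^ 2) = 2 * ∫ x in (1/2 : ℝ)..1, Real.sqrt (1 - x ^ 2) := by
    have : ∫ x in (0 : ℝ)..(1/2), 2 * Real.sqrt (1 - (max x (1 - x)) ^ 2) = ∫ x in (0 : ℝ)..(1/2), (fun y : ℝ => 2 * Real.sqrt (1 - y ^ 2)) (1 - x) := by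
      apply intervalIntegral.integral_congr
      intro x hx
      rw [Set.uIcc_of_le (by norm_num)] at hx
      have : max x (1 - x) = 1 - x := max_eq_right (by linarith [hx.2])
      simp only [this]
    rw [this, intervalIntegral.integral_comp_sub_left (fun y : ℝ => 2 * Real.sqrt (1 - y ^ 2)) 1, ← intervalIntegral.integral_const_mul]
    norm_num
  rw [e1, e2, LensA_int]
  ring

theorem lens_unit : 1.228 ≤ volume.real (Metric.ball (0 : ℂ) 1 ∩ Metric.ball (1 : ℂ) 1) := by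
  set S : Set ℂ := Metric.ball (0 : ℂ) 1 ∩ Metric.ball (1 : ℂ) 1 with hSdef
  have hS : MeasurableSet S := (measurableSet_ball).inter measurableSet_ball
  have hfin : volume S ≠ ⊤ := ((measure_mono Set.inter_subset_left).trans_lt (measure_ball_lt_top)).ne
  have hslice : ∀ x ∈ Set.Ioc (0:ℝ) 1, ENNReal.ofReal (2 * Real.sqrt (1 - (max x (1 - x)) ^ 2)) ≤ volume {y : ℝ | (⟨x, y⟩ : ℂ) ∈ S} := by
    intro x hx
    set s := Real.sqrt (1 - (max x (1 - x)) ^ 2) with hs
    have hm0 : 0 ≤ max x (1 - x) := le_max_of_le_left hx.1.le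
    have hm1 : max x (1 - x) ≤ 1 := max_le hx.2 (by linarith [hx.1])
    have hss : s ^ 2 = 1 - (max x (1 - x)) ^ 2 := Real.sq_sqrt (by nlinarith)
    have hsub : Set.Ioo (-s) s ⊆ {y : ℝ | (⟨x, y⟩ : ℂ) ∈ S} := by
      intro y hy
      have hy2 : y ^ 2 < s ^ 2 := by
        apply sq_lt_sq'
        · exact hy.1
        · exact hy.2
      have ha : x ^ 2 ≤ (max x (1 - x)) ^ 2 := by
        apply pow_le_pow_left₀ hx.1.le (le_max_left _ _)
      have hb : (x - 1) ^ 2 ≤ (max x (1 - x)) ^ 2 := by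
        have : (x - 1) ^ 2 = (1 - x) ^ 2 := by ring
        rw [this]
        apply pow_le_pow_left₀ (by linarith [hx.2]) (le_max_right _ _)
      simp only [hSdef, Set.mem_setOf_eq, Set.mem_inter_iff, Metric.mem_ball, Complex.dist_eq_re_im, Complex.zero_re,
        Complex.zero_im, Complex.one_re, Complex.one_im, sub_zero]
      constructor
      · rw [Real.sqrt_lt' one_pos]; linarith
      · rw [Real.sqrt_lt' one_pos]; linarith
    calc ENNReal.ofReal (2 * s) = volume (Set.Ioo (-s) s) := by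
          rw [Real.volume_Ioo]; congr 1; ring
      _ ≤ _ := measure_mono hsub
  have hcont : Continuous (fun x : ℝ => 2 * Real.sqrt (1 - (max x (1 - x)) ^ 2)) := by fun_prop
  have h1 : ENNReal.ofReal (4 * (Real.pi / 6 - Real.sqrt 3 / 8)) ≤ volume S := by
    rw [volume_slices hS, ← LensA_int2, intervalIntegral.integral_of_le zero_le_one,
      ofReal_integral_eq_lintegral_ofReal]
    · calc ∫⁻ x in Set.Ioc (0:ℝ) 1, ENNReal.ofReal (2 * Real.sqrt (1 - (max x (1 - x)) ^ 2))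
          ≤ ∫⁻ x in Set.Ioc (0:ℝ) 1, volume {y : ℝ | (⟨x, y⟩ : ℂ) ∈ S} := by
            apply setLIntegral_mono' measurableSet_Ioc hslice
        _ ≤ _ := setLIntegral_le_lintegral _ _
    · exact (hcont.integrableOn_Icc).mono_set Set.Ioc_subset_Icc_self
    · filter_upwards with x
      positivity
  have h2 : 4 * (Real.pi / 6 - Real.sqrt 3 / 8) ≤ volume.real S := by
    rw [Measure.real]
    exact (ENNReal.ofReal_le_iff_le_toReal hfin).1 h1
  refine le_trans ?_ h2
  have hpi := Real.pi_gt_d6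
  have h3 : Real.sqrt 3 < 1.7321 := by
    rw [Real.sqrt_lt' (by norm_num)]; norm_num
  norm_num at hpi h3 ⊢
  linarith

end Pool.Agent.H77.KN
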