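import Pool.Agent.H77.KN.LensA

/-!
# Row LensB (part of Lens) (MP_72793b): area of the lens of two discs

(1) `lens_unit`: the two unit discs with centres `0` and `1` meet in area `≥ 1.228` (exact value `2π/3 - √3/2 = 1.22837`).
Proof. For real `x ∈ (1/2, 1)` the slice (points `x + i y`) of the intersection contains `|y| < √(1 - x²)` (as `|x - 1| ≤ |x|`), for
`x ∈ (0, 1/2)` it contains `|y| < √(1 - (1-x)²)`. So by `volume_slices` the area is at least `∫_{1/2}^{1} 2√(1-x²) dx + ∫_0^{1/2} 2√(1-(1-x)²) dx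
= 4 ∫_{1/2}^1 √(1-x²) dx = 4 (π/6 - √3/8)`. The integral: the derivative of `(x √(1-x²) + arcsin x)/2` is `√(1-x²)` on `(-1,1)`
(`integral_eq_sub_of_hasDerivAt_of_..`, continuous on the closed interval: `intervalIntegral.integral_eq_sub_of_hasDerivAt_of_le`;
see also the proof of `integral_sqrt_one_sub_sq`), `arcsin (1/2) = π/6` (`Real.arcsin_eq_of_sin_eq`, `Real.sin_pi_div_six`).
Numbers: `π > 3.1415`, `√3 < 1.7321` give `> 1.2283`.
(2) `lens`: `dist z t = R`, `R ≤ R'`, `0 < ρ ≤ R`: `|B(z,R') ∩ B(t,ρ)| ≥ 1.228 ρ²`.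
Proof. Put `z' = t + (ρ/R)(z - t)`, `dist z' t = ρ`, `dist z z' = R - ρ`, so `B(z',ρ) ⊆ B(z,R) ⊆ B(z,R')`. The map
`w ↦ t + (z' - t) w` (a similarity with factor `ρ`) sends `B(0,1) ∩ B(1,1)` onto `B(t,ρ) ∩ B(z',ρ)`; areas are multiplied by `ρ²`
(split it as `w ↦ ρ w` (`Measure.addHaar_preimage_smul`), a rotation (`volume_rot`) and a translation).
-/

namespace Pool.Agent.H77.KN

open MeasureTheory Finset

theorem LensB_scale (a t : ℂ) (S : Set ℂ) :
    volume.real ((fun w : ℂ => t + w) '' ((LinearMap.mulLeft ℝ a) '' S)) =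
      ‖a‖ ^ 2 * volume.real S := by
  have h1 : volume ((fun w : ℂ => t + w) '' ((LinearMap.mulLeft ℝ a) '' S)) =
      volume ((LinearMap.mulLeft ℝ a) '' S) := by
    rw [Set.image_add_left, measure_preimage_add]
  have hdet : LinearMap.det (LinearMap.mulLeft ℝ a) = ‖a‖ ^ 2 := by
    have h := Algebra.norm_complex_apply a
    rw [Complex.normSq_eq_norm_sq] at h
    rw [← h]
    rfl
  rw [measureReal_def, h1, Measure.addHaar_image_linearMap, hdet, ENNReal.toReal_mul,
    abs_of_nonneg (by positivity), ENNReal.toReal_ofReal (by positivity), measureReal_def]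

theorem lens {z t : ℂ} {R R' ρ : ℝ} (hR : dist z t = R) (hRR : R ≤ R') (hρ : 0 < ρ) (hρR : ρ ≤ R) :
    1.228 * ρ ^ 2 ≤ volume.real (Metric.ball z R' ∩ Metric.ball t ρ) := by
  have hR0 : 0 < R := lt_of_lt_of_le hρ hρR
  have hzt : ‖z - t‖ = R := by rw [← hR, dist_eq_norm]
  set a : ℂ := ((ρ / R : ℝ) : ℂ) * (z - t) with ha
  have hna : ‖a‖ = ρ := by
    rw [ha, norm_mul, Complex.norm_real, hzt, Real.norm_eq_abs, abs_of_pos (by positivity)]
    field_simp
  have hza : ‖z - t - a‖ = R - ρ := by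
    have h1 : z - t - a = ((1 - ρ / R : ℝ) : ℂ) * (z - t) := by
      rw [ha]; push_cast; ring
    have h2 : ρ / R ≤ 1 := (div_le_one hR0).mpr hρR
    rw [h1, norm_mul, Complex.norm_real, hzt, Real.norm_eq_abs, abs_of_nonneg (by linarith)]
    field_simp
  have hsub : (fun w : ℂ => t + w) '' ((LinearMap.mulLeft ℝ a) ''
      (Metric.ball (0 : ℂ) 1 ∩ Metric.ball (1 : ℂ) 1)) ⊆ Metric.ball z R' ∩ Metric.ball t ρ := by
    rintro x ⟨y, ⟨w, ⟨hw0, hw1⟩, rfl⟩, rfl⟩
    rw [Metric.mem_ball, dist_eq_norm] at hw0 hw1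
    rw [sub_zero] at hw0
    simp only [LinearMap.mulLeft_apply, Set.mem_inter_iff, Metric.mem_ball, dist_eq_norm]
    constructor
    · have e : t + a * w - z = a * (w - 1) - (z - t - a) := by ring
      calc ‖t + a * w - z‖ = ‖a * (w - 1) - (z - t - a)‖ := by rw [e]
        _ ≤ ‖a * (w - 1)‖ + ‖z - t - a‖ := norm_sub_le _ _
        _ < ρ + (R - ρ) := by
            rw [norm_mul, hna, hza]
            have := mul_lt_mul_of_pos_left hw1 hρ
            linarith
        _ ≤ R' := by linarith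
    · have e : t + a * w - t = a * w := by ring
      rw [e, norm_mul, hna]
      have := mul_lt_mul_of_pos_left hw0 hρ
      linarith
  have hfin : volume (Metric.ball z R' ∩ Metric.ball t ρ) ≠ ⊤ :=
    ne_top_of_le_ne_top (measure_ball_lt_top (x := t) (r := ρ)).ne
      (measure_mono Set.inter_subset_right)
  calc 1.228 * ρ ^ 2 ≤ ρ ^ 2 * volume.real (Metric.ball (0 : ℂ) 1 ∩ Metric.ball (1 : ℂ) 1) := by
        have := lens_unit
        nlinarith [sq_nonneg ρ, mul_le_mul_of_nonneg_left this (sq_nonneg ρ)]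
    _ = _ := by rw [← hna, LensB_scale]
    _ ≤ _ := measureReal_mono hsub hfin

end Pool.Agent.H77.KN
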