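import Pool.Agent.H77.KN.DirB

/-!
# Row SecA (part of Sec) (MP_72793b): the second foreign group

* `sec_disjoint`: the group ball of `f` (radius `≤ R = dist f (t u)`) and `B(z1,d)` have no common point `p`.
  Proof: `h := dt (t u) u`. `dt p u ≤ dt z1 u + dist p z1 < dt z1 u + d ≤ h - 3 dl` (`dt_le`, `dt_sub`). `‖v‖ ≥ dist f (t u) - dl = R - dl`, so by
  `cone_cos` `dt v u ≥ cos (π/m) ‖v‖ ≥ (1 - dl/4)(R - dl) ≥ R - 1.5 dl`. `dt f u ≥ dt (t u + v) u - dl ≥ h + R - 2.5 dl`.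
  `dt p u ≥ dt f u - dist f p > h - 2.5 dl`. Contradiction.
* `sec_area`: `Y2 ⊆ ball z2 (R + dl) \ ball t0 (d - dl)`: for `p ∈ Y2` there is `a ∈ F` with `dist z2 a < dist z2 t0 = R` (take `c = t0`) and
  `dist p a ≤ dl`, and `dist a t0 ≥ d`. So `|Y2| ≤ |ball z2 (R+dl)| - |ball z2 (R+dl) ∩ ball t0 (d-dl)|` (`measureReal_diff'` or additivity);
  `real_ball`; `lens` with `R' = R + dl`, `ρ = d - dl ≤ R` (`R ≥ d` since `z2 ∈ F`, `t0 ∈ C`).
* `y_area`: `Y ⊆ nb (F.filter (dist · z < d)) dl`, `X ⊆ nb (C.filter (dist · y < d)) dl`: separation and inclusion hypotheses of the crescent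
  lemma: `X ⊆ ball y (d + dl)`? (strict inequality: `dist p y ≤ dist p a + dist a y < dl + d`), `Y ⊆ ball z (d + dl)`, distances `≥ d - 2 dl`.
-/

namespace Pool.Agent.H77.KN

open MeasureTheory Finset

theorem SecA_ge (a u : ℂ) (hu : ‖u‖ = 1) : -‖a‖ ≤ dt a u := by
  have h1 := dt_le (-a) u hu
  have h2 : dt (-a) u = -dt a u := by
    unfold dt
    simp only [Complex.neg_re, Complex.neg_im]
    ring
  rw [h2, norm_neg] at h1
  linarith

theorem sec_disjoint {C : Finset ℂ} {m : ℕ} (hm : 3 ≤ m) (hcos : 1 - dl / 4 ≤ Real.cos (Real.pi / m))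
    {t : ℂ → ℂ} {u : ℂ} (hu : u ∈ Um m) {z1 f v p : ℂ} {d R : ℝ}
    (hgood : dt z1 u + d + 3 * dl ≤ dt (t u) u) (hv : v ∈ Kc m u) (hfv : dist f (t u + v) ≤ dl)
    (hR : dist f (t u) = R) (hR1 : dl ≤ R) (hR2 : R ≤ 2)
    (hp1 : dist p z1 < d) (hp2 : dist f p < R) : False := by
  have hm0 : 0 < m := by omega
  have hn := norm_Um hm0 hu
  have hdl := dl_pos
  have hdl1 : dl ≤ 1 := by unfold dl; norm_num
  have h1 : dt p u < dt z1 u + d := by
    have h2 := dt_le (p - z1) u hn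
    rw [dt_sub, ← dist_eq_norm] at h2
    linarith
  have h3 : R - dl ≤ ‖v‖ := by
    have h4 : dist f (t u) ≤ dist f (t u + v) + dist (t u + v) (t u) := dist_triangle _ _ _
    have h5 : dist (t u + v) (t u) = ‖v‖ := by
      rw [dist_eq_norm, add_sub_cancel_left]
    rw [h5, hR] at h4
    linarith
  have h6 : R - 3 / 2 * dl ≤ dt v u := by
    refine le_trans ?_ (cone_cos hm0 hv)
    have h7 : (1 - dl / 4) * (R - dl) ≤ Real.cos (Real.pi / m) * ‖v‖ :=
      mul_le_mul hcos h3 (by linarith) (by linarith)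
    nlinarith
  have h8 : dt (t u) u + dt v u - dl ≤ dt f u := by
    have h9 := SecA_ge (f - (t u + v)) u hn
    rw [dt_sub, dt_add, ← dist_eq_norm] at h9
    linarith
  have h10 : dt f u - dist f p ≤ dt p u := by
    have h11 := dt_le (f - p) u hn
    rw [dt_sub, ← dist_eq_norm] at h11
    linarith
  linarith

theorem x_ball {C : Finset ℂ} {y : ℂ} {d : ℝ} {X : Set ℂ} (hX : X ⊆ {p : ℂ | ∃ a ∈ C, dist a y < d ∧ dist p a ≤ dl}) :
    X ⊆ Metric.ball y (d + dl) := by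
  intro p hp
  obtain ⟨a, -, h1, h2⟩ := hX hp
  rw [Metric.mem_ball]
  have h3 := dist_triangle p a y
  linarith

theorem xy_sep {C F : Finset ℂ} {d : ℝ} (hmin : ∀ c ∈ C, ∀ f ∈ F, d ≤ dist c f) {p q : ℂ}
    (hp : p ∈ nb C dl) (hq : q ∈ nb F dl) : d - 2 * dl ≤ dist p q := by
  obtain ⟨a, ha, h1⟩ := hp
  obtain ⟨b, hb, h2⟩ := hq
  have h3 := hmin a ha b hb
  have h4 := dist_triangle4 a p q b
  rw [dist_comm a p] at h4
  linarith

end Pool.Agent.H77.KN
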