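import Pool.Agent.H77.KN.LensB

/-!
# Row SecB (part of Sec) (MP_72793b): the second foreign group

* `sec_disjoint`: the group ball of `f` (radius `≤ R = dist f (t u)`) and `B(z1,d)` have no common point `p`.
  Proof: `h := dt (t u) u`. `dt p u ≤ dt z1 u + dist p z1 < dt z1 u + d ≤ h - 3 dl` (`dt_le`, `dt_sub`). `‖v‖ ≥ dist f (t u) - dl = R - dl`, so by
  `cone_cos` `dt v u ≥ cos (π/m) ‖v‖ ≥ (1 - dl/4)(R - dl) ≥ R - 1.5 dl`. `dt f u ≥ dt (t u + v) u - dl ≥ h + R - 2.5 dl`.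
  `dt p u ≥ dt f u - dist f p > h - 2.5 dl`. Contradiction.
* `sec_area`: `Y2 ⊆ ball z2 (R + dl) \ ball t0 (d - dl)`: for `p ∈ Y2` there is `a ∈ F` with `dist z2 a < dist z2 t0 = R` (take `c = t0`) and
  `dist p a ≤ dl`, and `dist a t0 ≥ d`. So `|Y2| ≤ |ball z2 (R+dl)| - |ball z2 (R+dl) ∩ ball t0 (d-dl)|` (`measureReal_diff'` or additivity);
  `real_ball`; `lens` with `R' = R + dl`, `ρ = d - dl ≤ R` (`R ≥ d` since `z2 ∈ F`, `t0 ∈ C`).
* `y_area`: `Y ⊆ nb (F.filter (dist · z < d)) dl`, `X ⊆ nb (C.filter (dist · y < d)) dl`: separation and inclusion hypotheses of the crescent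
  lemma: `X ⊆ ball y (d + dl)`? (strict inequality: `dist p y ≤ dist p a + dist a y < dl + d`), `Y ⊆ ball z (d + dl)`, distances `≥ d - 2 dl`.
-/

namespace Pool.Agent.H77.KN

open MeasureTheory Finset

theorem sec_area {C F : Finset ℂ} {z2 t0 : ℂ} (ht0 : t0 ∈ C) (hz2 : z2 ∈ F) {d R : ℝ} (hd : 1 / 20 ≤ d)
    (hmin : ∀ c ∈ C, ∀ f ∈ F, d ≤ dist c f) (hR : dist z2 t0 = R) {Y2 : Set ℂ} (hYm : MeasurableSet Y2)
    (hY : Y2 ⊆ {p : ℂ | ∃ a ∈ F, (∀ c ∈ C, dist z2 a < dist z2 c) ∧ dist p a ≤ dl}) :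
    volume.real Y2 ≤ Real.pi * (R + dl) ^ 2 - 1.228 * (d - dl) ^ 2 := by
  have hdl : (0 : ℝ) < dl := by unfold dl; norm_num
  have hdl1 : dl < 1 / 20 := by unfold dl; norm_num
  have hdR : d ≤ R := by
    have h1 := hmin t0 ht0 z2 hz2
    rw [dist_comm] at h1
    linarith
  have hsub : Y2 ⊆ Metric.ball z2 (R + dl) \ (Metric.ball z2 (R + dl) ∩ Metric.ball t0 (d - dl)) := by
    intro p hp
    obtain ⟨a, haF, hac, hpa⟩ := hY hp
    have h1 := hac t0 ht0
    rw [hR] at h1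
    have h2 := hmin t0 ht0 a haF
    refine ⟨?_, ?_⟩
    · rw [Metric.mem_ball]
      have h3 := dist_triangle p a z2
      rw [dist_comm a z2] at h3
      linarith
    · rintro ⟨_, h4⟩
      rw [Metric.mem_ball] at h4
      have h5 := dist_triangle t0 p a
      rw [dist_comm t0 p] at h5
      linarith
  have hfin : volume (Metric.ball z2 (R + dl)) ≠ ⊤ := measure_ball_lt_top.ne
  have hR0 : 0 ≤ R + dl := by linarith
  have hl := lens (z := z2) (t := t0) (R := R) (R' := R + dl) (ρ := d - dl) hR (by linarith)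
    (by linarith) (by linarith)
  have hm : MeasurableSet (Metric.ball z2 (R + dl) ∩ Metric.ball t0 (d - dl)) :=
    Metric.isOpen_ball.measurableSet.inter Metric.isOpen_ball.measurableSet
  have h6 : volume.real (Metric.ball z2 (R + dl) \ (Metric.ball z2 (R + dl) ∩ Metric.ball t0 (d - dl)))
      = volume.real (Metric.ball z2 (R + dl))
        - volume.real (Metric.ball z2 (R + dl) ∩ Metric.ball t0 (d - dl)) :=
    measureReal_sdiff Set.inter_subset_left hm hfin
  have h7 : volume.real Y2 ≤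
      volume.real (Metric.ball z2 (R + dl) \ (Metric.ball z2 (R + dl) ∩ Metric.ball t0 (d - dl))) :=
    measureReal_mono hsub (measure_ne_top_of_subset Set.sdiff_subset hfin)
  rw [h6, real_ball z2 hR0] at h7
  linarith

end Pool.Agent.H77.KN
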