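import Pool.Agent.H77.KN.VolB
import Pool.Agent.H77.KN.GoodB
import Pool.Agent.H77.KN.GoodC
import Pool.Agent.H77.KN.SecA
import Pool.Agent.H77.KN.SecB
import Pool.Agent.H77.KN.AnF
import Pool.Agent.H77.KN.Cres

/-!
# MP_72793b: the geometric cost inequality (assembly)
-/

namespace Pool.Agent.H77.KN

open MeasureTheory Finset

theorem exists_ext {C : Finset ℂ} (hC : C.Nonempty) : ∃ t : ℂ → ℂ, Ext C t := by
  have h : ∀ u : ℂ, ∃ t ∈ C, ∀ c ∈ C, dt c u ≤ dt t u := fun u => by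
    obtain ⟨t, ht, h⟩ := C.exists_max_image (fun c => dt c u) hC
    exact ⟨t, ht, h⟩
  choose t ht using h
  exact ⟨t, fun u => ⟨(ht u).1, (ht u).2⟩⟩

/-- number of directions -/
def mm : ℕ := 8 * 10 ^ 6

theorem mm_cos : 1 - dl / 4 ≤ Real.cos (Real.pi / mm) := by
  have h := Real.one_sub_sq_div_two_le_cos (x := Real.pi / mm)
  have hp := Real.pi_lt_d2
  have hp0 := Real.pi_pos
  have h2 : (Real.pi / mm) ^ 2 ≤ 10 / (6.4 * 10 ^ 13) := by
    rw [div_pow]
    have : ((mm : ℕ) : ℝ) ^ 2 = 6.4 * 10 ^ 13 := by unfold mm; norm_num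
    rw [this]
    apply div_le_div_of_nonneg_right _ (by norm_num)
    nlinarith
  unfold dl
  have : (10 : ℝ) / (6.4 * 10 ^ 13) / 2 ≤ 2 / 10 ^ 9 / 4 := by norm_num
  linarith

theorem d_cos {d : ℝ} (hd0 : 0 < d) (hd2 : d < 2) : d / Real.cos (Real.pi / mm) ≤ d + dl := by
  have h := mm_cos
  have hdl : dl = 2 / 10 ^ 9 := rfl
  have hc : 0 < Real.cos (Real.pi / mm) := by
    have : 0 < 1 - dl / 4 := by rw [hdl]; norm_num
    linarith
  rw [div_le_iff₀ hc]
  have h1 : (d + dl) * (1 - dl / 4) ≤ (d + dl) * Real.cos (Real.pi / mm) :=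
    mul_le_mul_of_nonneg_left h (by rw [hdl]; positivity)
  have h2 : d ≤ (d + dl) * (1 - dl / 4) := by
    rw [hdl]; nlinarith
  linarith

/-- the area estimate after all the geometry: the terms of the boundary layer -/
theorem layer_bound {d w φ κ : ℝ} (hd : 1 / 20 ≤ d) (hd2 : d < 2) (hw : 0 < w) (hφ : 0 ≤ φ) (hφ1 : φ ≤ 3 / 8)
    (hκ : κ ≤ 3.14159 - φ * (3.1416 - 1.228)- 0.00005) :
    2 * 1.7724 * √w * (d + 4 * dl) + κ * (d + 4 * dl) ^ 2 ≤
      (√w + √Real.pi * (d - 2 * dl)) ^ 2 - w + φ * 1.228 * (d - dl) ^ 2 - φ * Real.pi * (d + dl) ^ 2 := by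
  have hdl : dl = 2 / 10 ^ 9 := rfl
  have hpi1 : (3.14159 : ℝ) < Real.pi := by have := Real.pi_gt_d6; linarith
  have hpi2 : Real.pi < (3.1416 : ℝ) := by have := Real.pi_lt_d4; linarith
  have hsq : √Real.pi * √Real.pi = Real.pi := Real.mul_self_sqrt Real.pi_pos.le
  have hsp : (1.77245 : ℝ) ≤ √Real.pi := by
    apply Real.le_sqrt_of_sq_le
    have := Real.pi_gt_d6
    norm_num at this ⊢
    linarith
  have hs : 0 < √w := Real.sqrt_pos.2 hw
  have hsw : √w * √w = w := Real.mul_self_sqrt hw.le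
  have e1 : (√w + √Real.pi * (d - 2 * dl)) ^ 2 - w
      = 2 * √Real.pi * √w * (d - 2 * dl) + Real.pi * (d - 2 * dl) ^ 2 := by
    have : (√w + √Real.pi * (d - 2 * dl)) ^ 2 = √w * √w + 2 * √Real.pi * √w * (d - 2 * dl)
      + (√Real.pi * √Real.pi) * (d - 2 * dl) ^ 2 := by ring
    rw [this, hsw, hsq]; ring
  rw [e1]
  have h1 : 2 * 1.7724 * √w * (d + 4 * dl) ≤ 2 * √Real.pi * √w * (d - 2 * dl) := by
    have : 1.7724 * (d + 4 * dl) ≤ √Real.pi * (d - 2 * dl) := by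
      have h2 : 1.77245 * (d - 2 * dl) ≤ √Real.pi * (d - 2 * dl) := by
        apply mul_le_mul_of_nonneg_right hsp
        rw [hdl]; linarith
      have h3 : 1.7724 * (d + 4 * dl) ≤ 1.77245 * (d - 2 * dl) := by
        rw [hdl]; linarith
      linarith
    nlinarith
  have h2 : κ * (d + 4 * dl) ^ 2 ≤ Real.pi * (d - 2 * dl) ^ 2 + φ * 1.228 * (d - dl) ^ 2
      - φ * Real.pi * (d + dl) ^ 2 := by
    have hq : 0 ≤ (d + 4 * dl) ^ 2 := sq_nonneg _
    have a1 : κ * (d + 4 * dl) ^ 2 ≤ (3.14159 - φ * (3.1416 - 1.228) - 0.00005) * (d + 4 * dl) ^ 2 :=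
      mul_le_mul_of_nonneg_right hκ hq
    have a2 : 3.14159 * (d - 2 * dl) ^ 2 ≤ Real.pi * (d - 2 * dl) ^ 2 :=
      mul_le_mul_of_nonneg_right hpi1.le (sq_nonneg _)
    have a3 : φ * Real.pi * (d + dl) ^ 2 ≤ φ * 3.1416 * (d + dl) ^ 2 := by
      apply mul_le_mul_of_nonneg_right _ (sq_nonneg _)
      exact mul_le_mul_of_nonneg_left hpi2.le hφ
    have a4 : (3.14159 - φ * (3.1416 - 1.228) - 0.00005) * (d + 4 * dl) ^ 2
        ≤ 3.14159 * (d - 2 * dl) ^ 2 + φ * 1.228 * (d - dl) ^ 2 - φ * 3.1416 * (d + dl) ^ 2 := by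
      have b1 : (d - 2 * dl) ^ 2 = (d + 4 * dl) ^ 2 - 12 * dl * d - 12 * dl ^ 2 := by ring
      have b2 : (d - dl) ^ 2 = (d + 4 * dl) ^ 2 - 10 * dl * d - 15 * dl ^ 2 := by ring
      have b3 : (d + dl) ^ 2 = (d + 4 * dl) ^ 2 - 6 * dl * d - 15 * dl ^ 2 := by ring
      have b4 : (1 / 20 : ℝ) * d ≤ (d + 4 * dl) ^ 2 := by rw [hdl]; nlinarith
      rw [b1, b2, b3]
      have hdd : dl * d ≤ dl * 2 := mul_le_mul_of_nonneg_left hd2.le dl_pos.le
      have c0 : 0 ≤ dl * d := mul_nonneg dl_pos.le (by linarith)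
      have c1 : dl ^ 2 ≤ dl * d := by
        rw [sq]; apply mul_le_mul_of_nonneg_left _ dl_pos.le; rw [hdl]; linarith
      have c2 : φ * (dl * d) ≤ 3 / 8 * (dl * d) := mul_le_mul_of_nonneg_right hφ1 c0
      have c3 : φ * dl ^ 2 ≤ 3 / 8 * (dl * d) := by
        calc φ * dl ^ 2 ≤ 3 / 8 * dl ^ 2 := mul_le_mul_of_nonneg_right hφ1 (sq_nonneg _)
          _ ≤ 3 / 8 * (dl * d) := by linarith
      have c4 : 0 ≤ φ * (dl * d) := mul_nonneg hφ c0
      have c5 : 0 ≤ φ * dl ^ 2 := mul_nonneg hφ (sq_nonneg _)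
      have c6 : dl * d ≤ 0.0000001 * (d + 4 * dl) ^ 2 := by
        have : dl * d = 0.00000004 * ((1 / 20) * d) := by rw [hdl]; ring
        rw [this]
        nlinarith
      nlinarith
    linarith
  linarith

/-- `(y, z)` is a closest pair of `C` and `F` -/
structure Cp (C F : Finset ℂ) (y z : ℂ) (d : ℝ) : Prop where
  hy : y ∈ C
  hz : z ∈ F
  hd : dist y z = d
  hmin : ∀ c ∈ C, ∀ f ∈ F, d ≤ dist c f

theorem core {C F : Finset ℂ} {y z : ℂ} {d : ℝ} (h : Cp C F y z d) (hd1 : 1 / 20 ≤ d) (hd2 : d < 2)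
    {t : ℂ → ℂ} (ht : Ext C t) {W : Set ℂ} (hWm : MeasurableSet W) (hWb : Bornology.IsBounded W)
    (hW : W ⊆ nb C dl) (hw : 0 < volume.real W) {𝒢 : Finset ℂ} (h𝒢 : 𝒢 ⊆ Gd mm t z d) {φ : ℝ} (hφ0 : 0 ≤ φ)
    (hcard : φ * mm ≤ 𝒢.card) :
    ∃ R, d ≤ R ∧ R ≤ 2 ∧
      (√(volume.real W) + √Real.pi * (d - 2 * dl)) ^ 2 + φ * Real.pi * ((R - dl) ^ 2 - (d + dl) ^ 2)
        ≤ volume.real (Vp C F) ∧
      (R = 2 ∨ ∃ z2 ∈ F, ∃ t0 ∈ C, dist z2 t0 = R ∧
        (∀ p, dist p z < d → (∀ c ∈ C, dist z2 p < dist z2 c) → False)) := by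
  classical
  have hdl : dl = 2 / 10 ^ 9 := rfl
  have hmm0 : (0 : ℝ) < mm := by unfold mm; norm_num
  have hmm3 : 3 ≤ mm := by unfold mm; norm_num
  have hdc := d_cos (d := d) (by linarith) hd2
  have hc0 : 0 ≤ d / Real.cos (Real.pi / mm) := by
    have h1 := mm_cos
    have : 0 < Real.cos (Real.pi / mm) := by
      have : 0 < 1 - dl / 4 := by rw [hdl]; norm_num
      linarith
    positivity
  have hGU : 𝒢 ⊆ Um mm := fun u hu => (mem_Gd.1 (h𝒢 hu)).1
  -- the volume bound for a given radius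
  have vol : ∀ R, d ≤ R → R ≤ 2 →
      (∀ u ∈ 𝒢, ∀ f ∈ F, dist f (t u) < R → ∀ v ∈ Kc mm u, dl < dist f (t u + v)) →
      (√(volume.real W) + √Real.pi * (d - 2 * dl)) ^ 2 + φ * Real.pi * ((R - dl) ^ 2 - (d + dl) ^ 2)
        ≤ volume.real (Vp C F) := by
    intro R hR1 hR2 hfree
    have hsq : (d / Real.cos (Real.pi / mm)) ^ 2 ≤ (d + dl) ^ 2 := by
      apply pow_le_pow_left₀ hc0 hdc
    rcases le_or_gt 0 ((R - dl) ^ 2 - (d + dl) ^ 2) with hT | hT
    · have hv := vol_lower (m := mm) hmm3 ht hWm hWb hW hw hd1 hd2 h.hmin hGU hR1 hR2 hfree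
      refine le_trans ?_ hv
      have e1 : φ * Real.pi * ((R - dl) ^ 2 - (d + dl) ^ 2)
          ≤ 𝒢.card * (Real.pi / mm * ((R - dl) ^ 2 - (d / Real.cos (Real.pi / mm)) ^ 2)) := by
        calc φ * Real.pi * ((R - dl) ^ 2 - (d + dl) ^ 2)
            = (φ * mm) * (Real.pi / mm * ((R - dl) ^ 2 - (d + dl) ^ 2)) := by
              field_simp
          _ ≤ 𝒢.card * (Real.pi / mm * ((R - dl) ^ 2 - (d + dl) ^ 2)) := by
              apply mul_le_mul_of_nonneg_right hcard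
              have := Real.pi_pos
              positivity
          _ ≤ _ := by
              apply mul_le_mul_of_nonneg_left _ (by positivity)
              apply mul_le_mul_of_nonneg_left _ (by have := Real.pi_pos; positivity)
              linarith
      linarith
    · have hv := vol_lower (m := mm) (𝒢 := ∅) hmm3 ht hWm hWb hW hw hd1 hd2 h.hmin (by simp) hR1 hR2
        (by simp)
      have : φ * Real.pi * ((R - dl) ^ 2 - (d + dl) ^ 2) ≤ 0 := by
        apply mul_nonpos_of_nonneg_of_nonpos _ hT.le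
        have := Real.pi_pos
        positivity
      simp only [card_empty, Nat.cast_zero, zero_mul, add_zero] at hv
      linarith
  -- the set of foreign points in the good wedges
  set B : Finset (ℂ × ℂ) := (𝒢 ×ˢ F).filter (fun q => dist q.2 (t q.1) < 2 ∧
    ∃ v ∈ Kc mm q.1, dist q.2 (t q.1 + v) ≤ dl) with hB
  rcases B.eq_empty_or_nonempty with hBe | hBn
  · refine ⟨2, hd2.le, le_refl _, ?_, Or.inl rfl⟩
    apply vol 2 hd2.le (le_refl _)
    intro u hu f hf hfu v hv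
    by_contra hcon
    have : (u, f) ∈ B := by
      rw [hB, mem_filter, mem_product]
      exact ⟨⟨hu, hf⟩, hfu, v, hv, not_lt.1 hcon⟩
    rw [hBe] at this
    simp at this
  · obtain ⟨⟨u, f⟩, hq, hqmin⟩ := B.exists_min_image (fun q => dist q.2 (t q.1)) hBn
    rw [hB, mem_filter, mem_product] at hq
    obtain ⟨⟨hu, hf⟩, hfu, v, hv, hfv⟩ := hq
    simp only at hu hf hfu hv hfv hqmin
    have hdR : d ≤ dist f (t u) := by
      rw [dist_comm]; exact h.hmin _ (ht u).1 _ hf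
    refine ⟨dist f (t u), hdR, hfu.le, ?_, Or.inr ⟨f, hf, t u, (ht u).1, rfl, ?_⟩⟩
    · apply vol _ hdR hfu.le
      intro u' hu' f' hf' hfu' v' hv'
      by_contra hcon
      have hmem : (u', f') ∈ B := by
        rw [hB, mem_filter, mem_product]
        exact ⟨⟨hu', hf'⟩, lt_trans hfu' hfu, v', hv', not_lt.1 hcon⟩
      have := hqmin _ hmem
      simp only at this
      linarith
    · intro p hp1 hp2
      exact sec_disjoint hmm3 mm_cos (t := t) (mem_Gd.1 (h𝒢 hu)).1 (mem_Gd.1 (h𝒢 hu)).2 hv hfv rfl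
        (by rw [hdl] at *; linarith) hfu.le hp1 (hp2 _ (ht u).1) (C := C)

/-- the alternative of the main inequality for a fraction `φ` of good directions -/
theorem alt {C F : Finset ℂ} {y z : ℂ} {d : ℝ} (h : Cp C F y z d) (hd1 : 1 / 20 ≤ d) (hd2 : d < 2)
    {t : ℂ → ℂ} (ht : Ext C t) {W : Set ℂ} (hWm : MeasurableSet W) (hWb : Bornology.IsBounded W)
    (hW : W ⊆ nb C dl) (hw : 0 < volume.real W) {𝒢 : Finset ℂ} (h𝒢 : 𝒢 ⊆ Gd mm t z d) {φ κ S : ℝ} (hφ0 : 0 ≤ φ)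
    (hφ1 : φ ≤ 3 / 8) (hκ : κ ≤ 3.14159 - φ * (3.1416 - 1.228) - 0.00005)
    (hcard : φ * mm ≤ 𝒢.card)
    (hS : Real.log 28.1 + 1 / 10 ^ 6 ≤ Real.log (1 + φ) + S
      + 2 * 1.7724 * √(volume.real W) * (d + 4 * dl) + κ * (d + 4 * dl) ^ 2) :
    Real.log 28.1 ≤ S + (volume.real (Vp C F) - volume.real W) ∨
    ∃ z2 ∈ F, (∃ t0 ∈ C, dist z2 t0 ≤ 2) ∧ (∀ p, dist p z < d → (∀ c ∈ C, dist z2 p < dist z2 c) → False) ∧
      ∀ Y2 : Set ℂ, MeasurableSet Y2 →
        Y2 ⊆ {p : ℂ | ∃ a ∈ F, (∀ c ∈ C, dist z2 a < dist z2 c) ∧ dist p a ≤ dl} → 0 < volume.real Y2 →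
        Real.log 28.1 ≤ S + ff (volume.real Y2) + (volume.real (Vp C F) - volume.real W) := by
  have hdl : dl = 2 / 10 ^ 9 := rfl
  have hpi1 : (3.14159 : ℝ) < Real.pi := by have := Real.pi_gt_d6; linarith
  have hpi2 : Real.pi < (3.1416 : ℝ) := by have := Real.pi_lt_d4; linarith
  obtain ⟨R, hdR, hR2, hV, hcase⟩ := core h hd1 hd2 ht hWm hWb hW hw h𝒢 hφ0 hcard
  have hL := layer_bound hd1 hd2 hw hφ0 hφ1 hκ
  rcases hcase with hR | ⟨z2, hz2, t0, ht0, hzt, hdis⟩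
  · left
    subst hR
    have h1 : Real.log (1 + φ) ≤ φ := by
      have := Real.log_le_sub_one_of_pos (show 0 < 1 + φ by linarith)
      linarith
    have h2 : φ ≤ φ * Real.pi * (2 - dl) ^ 2 - φ * 1.228 * (d - dl) ^ 2 := by
      have a1 : (3.999 : ℝ) ≤ (2 - dl) ^ 2 := by rw [hdl]; norm_num
      have a2 : (d - dl) ^ 2 ≤ 4 := by rw [hdl]; nlinarith
      have a3 : 1 ≤ Real.pi * (2 - dl) ^ 2 - 1.228 * (d - dl) ^ 2 := by nlinarith
      have := mul_le_mul_of_nonneg_left a3 hφ0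
      nlinarith
    nlinarith
  · right
    refine ⟨z2, hz2, ⟨t0, ht0, by rw [hzt]; exact hR2⟩, hdis, ?_⟩
    intro Y2 hY2m hY2 hY20
    have hA := sec_area ht0 hz2 hd1 h.hmin hzt hY2m hY2
    set A := Real.pi * (R + dl) ^ 2 - 1.228 * (d - dl) ^ 2 with hAdef
    have hff : ff A ≤ ff (volume.real Y2) := ff_anti hY20 hA
    have hb := ff_bonus (A := A) (φ := φ) (lt_of_lt_of_le hY20 hA) hφ0
    have e1 : φ * A = φ * Real.pi * (R + dl) ^ 2 - φ * 1.228 * (d - dl) ^ 2 := by rw [hAdef]; ring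
    have e2 : φ * Real.pi * ((R - dl) ^ 2 - (d + dl) ^ 2)
        = φ * Real.pi * (R + dl) ^ 2 - φ * Real.pi * (4 * R * dl) - φ * Real.pi * (d + dl) ^ 2 := by ring
    have e3 : φ * Real.pi * (4 * R * dl) ≤ 1 / 10 ^ 6 := by
      have b1 : φ * Real.pi ≤ 3 / 8 * 3.1416 := by
        apply mul_le_mul hφ1 hpi2.le Real.pi_pos.le (by norm_num)
      have b2 : 4 * R * dl ≤ 4 * 2 * dl := by
        apply mul_le_mul_of_nonneg_right _ dl_pos.le
        linarith
      have b3 : 0 ≤ 4 * R * dl := by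
        have := dl_pos
        have : 0 ≤ R := by linarith
        positivity
      calc φ * Real.pi * (4 * R * dl) ≤ (3 / 8 * 3.1416) * (4 * 2 * dl) := by
            apply mul_le_mul b1 b2 b3 (by norm_num)
        _ ≤ 1 / 10 ^ 6 := by rw [hdl]; norm_num
    linarith

theorem mgt {C F : Finset ℂ} {y z : ℂ} {d : ℝ} (h : Cp C F y z d) (hd1 : 1 / 20 ≤ d) (hd2 : d < 2)
    {W X Y : Set ℂ} (hWm : MeasurableSet W) (hXm : MeasurableSet X) (hYm : MeasurableSet Y)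
    (hWb : Bornology.IsBounded W) (hXW : X ⊆ W) (hW : W ⊆ nb C dl)
    (hX : X ⊆ {p : ℂ | ∃ a ∈ C, dist a y < d ∧ dist p a ≤ dl})
    (hY : Y ⊆ {p : ℂ | ∃ a ∈ F, dist a z < d ∧ dist p a ≤ dl})
    (hX0 : 0 < volume.real X) (hY0 : 0 < volume.real Y) {α : ℝ}
    (hα : α = min (volume.real X) (volume.real W / 2)) :
    Real.log 28.1 ≤ ff (volume.real Y) + ff α + ff (volume.real W - α)
      + (volume.real (Vp C F) - volume.real W) ∨
    ∃ z2 ∈ F, (∃ t0 ∈ C, dist z2 t0 ≤ 2) ∧ (∀ p, dist p z < d → (∀ c ∈ C, dist z2 p < dist z2 c) → False) ∧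
      ∀ Y2 : Set ℂ, MeasurableSet Y2 →
        Y2 ⊆ {p : ℂ | ∃ a ∈ F, (∀ c ∈ C, dist z2 a < dist z2 c) ∧ dist p a ≤ dl} → 0 < volume.real Y2 →
        Real.log 28.1 ≤ ff (volume.real Y) + ff α + ff (volume.real W - α) + ff (volume.real Y2)
          + (volume.real (Vp C F) - volume.real W) := by
  have hdl : dl = 2 / 10 ^ 9 := rfl
  have hpi1 : (3.14159 : ℝ) < Real.pi := by have := Real.pi_gt_d6; linarith
  have hWfin : volume W ≠ ⊤ := hWb.measure_lt_top.ne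
  have hw : 0 < volume.real W := lt_of_lt_of_le hX0 (measureReal_mono hXW hWfin)
  obtain ⟨t, ht⟩ := exists_ext ⟨y, h.hy⟩
  have hD : 0 < d + 4 * dl := by have := dl_pos; linarith
  have hα0 : 0 < α := by rw [hα]; exact lt_min hX0 (by linarith)
  have hαw : α ≤ volume.real W / 2 := by rw [hα]; exact min_le_right _ _
  have hαX : α ≤ volume.real X := by rw [hα]; exact min_le_left _ _
  -- crescents
  have hXY : volume.real X + volume.real Y ≤ Real.pi * (d + 4 * dl) ^ 2 := by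
    have h1 := crescents (X := X) (Y := Y) hXm hYm (y := y) (z := z) (d := d) (ρ := d + dl) (σ := d - 2 * dl)
      h.hd (by rw [hdl]; linarith) (by have := dl_pos; linarith) (by have := dl_pos; linarith)
      (x_ball hX) (x_ball hY)
      (fun p hp q hq => by
        obtain ⟨a, ha, -, hpa⟩ := hX hp
        obtain ⟨b, hb, -, hqb⟩ := hY hq
        exact xy_sep h.hmin ⟨a, ha, hpa⟩ ⟨b, hb, hqb⟩)
    refine h1.trans ?_
    have : Real.pi * (d + 4 * dl) ^ 2 - Real.pi * (d + dl) ^ 2 = Real.pi * (3 * dl * (2 * d + 5 * dl)) := by ring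
    have h2 : 3.14159 * (3 * dl * (2 * d + 5 * dl)) ≤ Real.pi * (3 * dl * (2 * d + 5 * dl)) := by
      apply mul_le_mul_of_nonneg_right hpi1.le
      have := dl_pos
      positivity
    have h3 : 2 * (d + dl) * (d - (d - 2 * dl)) ≤ 3.14159 * (3 * dl * (2 * d + 5 * dl)) := by
      have := dl_pos
      have h4 : 0 ≤ dl * d := by positivity
      nlinarith [sq_nonneg dl]
    linarith
  have hyD : volume.real Y + α ≤ Real.pi * (d + 4 * dl) ^ 2 := by linarith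
  have hmm0 : 0 < mm := by unfold mm; norm_num
  have h8 : 8 ∣ mm := ⟨10 ^ 6, rfl⟩
  have hzC : ∀ c ∈ C, d ≤ dist c z := fun c hc => h.hmin c hc z h.hz
  rcases le_or_gt (2.516 * (d + 4 * dl) ^ 2) (volume.real W) with hA | hA
  · have hg := good_A hmm0 h8 ht hWm hW hd1 hzC hA
    have hS := an_A hD hα0 hαw hY0 hyD hA
    refine alt h hd1 hd2 ht hWm hWb hW hw (𝒢 := Gd mm t z d) (Finset.Subset.refl _) (φ := 3 / 8) (κ := 2.423)
      (by norm_num) (le_refl _) (by norm_num) ?_ (by linarith)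
    have : ((3 * mm : ℕ) : ℝ) ≤ ((8 * (Gd mm t z d).card : ℕ) : ℝ) := by exact_mod_cast hg
    push_cast at this
    linarith
  · rcases le_or_gt (0.86 * (d + 4 * dl) ^ 2) (volume.real W) with hB | hB
    · have hg := good_B hmm0 h8 ht hWm hW hd1 hzC hB
      have hS := an_B hD hα0 hαw hY0 hyD hA.le
      refine alt h hd1 hd2 ht hWm hWb hW hw (𝒢 := Gd mm t z d) (Finset.Subset.refl _) (φ := 1 / 4) (κ := 2.663)
        (by norm_num) (by norm_num) (by norm_num) ?_ (by linarith)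
      have : ((mm : ℕ) : ℝ) ≤ ((4 * (Gd mm t z d).card : ℕ) : ℝ) := by exact_mod_cast hg
      push_cast at this
      linarith
    · have hS := an_C hD hα0 hαw hY0 hyD hB.le
      refine alt h hd1 hd2 ht hWm hWb hW hw (𝒢 := ∅) (by simp) (φ := 0) (κ := 3.1415)
        (le_refl _) (by norm_num) (by norm_num) (by simp) ?_
      simp only [add_zero, Real.log_one, zero_add]
      linarith

end Pool.Agent.H77.KN
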