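import Pool.Agent.H77.KN.Fub

/-!
# Row Para (MP_72793b): area of a parallelogram given by two strips

Claim: `‖u‖ = ‖v‖ = 1`, `σ > 0`, `σ ≤ |u.re * v.im - u.im * v.re|`, `D > 0`:
the set `{p | |dt (p - z) u| < D ∧ |dt (p - z) v| < D}` has area `≤ 4 D² / σ`.

Proof. Translate (`volume_shift`) to `z = 0` and rotate (`volume_rot`, `dt_mul_mul`): replace `p` by `u p`: `dt (u p) u = dt p 1 = p.re`,
`dt (u p) v = dt p (conj u * v)` (write `v = u * v'`, `v' = conj u * v`, `‖v'‖ = 1`, `v'.im = u.re v.im - u.im v.re`). So we need the area of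
`{p | |p.re| < D ∧ |p.re v'.re + p.im v'.im| < D}` with `|v'.im| ≥ σ`. For fixed `x = p.re` the slice is empty unless `|x| < D`, and then it is
an open interval of length `2 D / |v'.im| ≤ 2 D / σ`. By `volume_slices` (or `real_slices_le` with `g x = if |x| < D then 2D/σ else 0`) the
area is `≤ 2D * (2D/σ)`.
-/

namespace Pool.Agent.H77.KN

open MeasureTheory Finset

/-- the linear map with coordinates `dt p u`, `dt p v` -/
noncomputable def Para_f (u v : ℂ) : ℂ →ₗ[ℝ] ℂ where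
  toFun p := ⟨dt p u, dt p v⟩
  map_add' a b := by
    apply Complex.ext <;> simp [dt_add]
  map_smul' c a := by
    apply Complex.ext <;> simp [dt] <;> ring

theorem Para_det (u v : ℂ) : LinearMap.det (Para_f u v) = u.re * v.im - u.im * v.re := by
  rw [← LinearMap.det_toMatrix Complex.basisOneI, Matrix.det_fin_two]
  simp [LinearMap.toMatrix_apply, Para_f, dt]

theorem Para_box (D : ℝ) :
    volume {w : ℂ | |w.re| < D ∧ |w.im| < D} = ENNReal.ofReal (2 * D) * ENNReal.ofReal (2 * D) := by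
  have h := Complex.volume_preserving_equiv_real_prod.measure_preimage_equiv
    (Set.Ioo (-D) D ×ˢ Set.Ioo (-D) D)
  have e : Complex.measurableEquivRealProd ⁻¹' (Set.Ioo (-D) D ×ˢ Set.Ioo (-D) D) =
      {w : ℂ | |w.re| < D ∧ |w.im| < D} := by
    ext w
    simp [Complex.measurableEquivRealProd_apply, abs_lt]
  rw [e] at h
  rw [h, Measure.volume_eq_prod, Measure.prod_prod, Real.volume_Ioo]
  congr 2 <;> ring

theorem Para_vol {z u v : ℂ} {D : ℝ} (huv : u.re * v.im - u.im * v.re ≠ 0) :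
    volume {p : ℂ | |dt (p - z) u| < D ∧ |dt (p - z) v| < D} =
      ENNReal.ofReal |(u.re * v.im - u.im * v.re)⁻¹| *
        (ENNReal.ofReal (2 * D) * ENNReal.ofReal (2 * D)) := by
  have e : {p : ℂ | |dt (p - z) u| < D ∧ |dt (p - z) v| < D} =
      (fun p : ℂ => p + (-z)) ⁻¹' (Para_f u v ⁻¹' {w : ℂ | |w.re| < D ∧ |w.im| < D}) := by
    ext p
    simp [Para_f, sub_eq_add_neg]
  rw [e, measure_preimage_add_right,
    Measure.addHaar_preimage_linearMap volume (f := Para_f u v) (by rwa [Para_det]), Para_det,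
    Para_box]

theorem para {z u v : ℂ} (hu : ‖u‖ = 1) (hv : ‖v‖ = 1) {σ D : ℝ} (hσ : 0 < σ)
    (hσu : σ ≤ |u.re * v.im - u.im * v.re|) (hD : 0 < D) :
    volume.real {p : ℂ | |dt (p - z) u| < D ∧ |dt (p - z) v| < D} ≤ 4 * D ^ 2 / σ := by
  have huv : u.re * v.im - u.im * v.re ≠ 0 := by
    intro h
    rw [h, abs_zero] at hσu
    linarith
  rw [Measure.real, Para_vol huv, ENNReal.toReal_mul, ENNReal.toReal_mul,
    ENNReal.toReal_ofReal (abs_nonneg _), ENNReal.toReal_ofReal (by linarith), abs_inv]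
  have h1 : |u.re * v.im - u.im * v.re|⁻¹ ≤ σ⁻¹ := inv_anti₀ hσ hσu
  calc |u.re * v.im - u.im * v.re|⁻¹ * (2 * D * (2 * D)) ≤ σ⁻¹ * (2 * D * (2 * D)) :=
        mul_le_mul_of_nonneg_right h1 (by positivity)
    _ = 4 * D ^ 2 / σ := by
        rw [div_eq_mul_inv]
        ring

theorem para_finite {z u v : ℂ} (hu : ‖u‖ = 1) (hv : ‖v‖ = 1) {D : ℝ}
    (huv : u.re * v.im - u.im * v.re ≠ 0) (hD : 0 < D) :
    volume {p : ℂ | |dt (p - z) u| < D ∧ |dt (p - z) v| < D} ≠ ⊤ := by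
  rw [Para_vol huv]
  exact ENNReal.mul_ne_top ENNReal.ofReal_ne_top
    (ENNReal.mul_ne_top ENNReal.ofReal_ne_top ENNReal.ofReal_ne_top)

end Pool.Agent.H77.KN
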