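import Pool.Agent.H77.KN.Fub
import Pool.Agent.H77.KN.DirB

/-!
# Row SectA (part of Sect) (MP_72793b): sectors

* `meas_sect`: the set `{v | v ∈ Kc m u ∧ r ≤ ‖v‖ ∧ ‖v‖ < ρ}` is measurable (`Kc m u` is closed: finite intersection of closed half planes).
* `sect_area`: for `u ∈ Um m` its area is `≥ (π/m)(ρ² - r²)`, `0 ≤ r`, `0 ≤ ρ`.
  Proof. If `ρ ≤ r` the right side is `≤ 0`. Else let `S u` be the set. The annulus `B(0,ρ) \ B(0,r)` (area `π ρ² - π r²` by `real_ball`) is
  contained in the union of the `S u`, `u ∈ Um m` (`exists_cone`), and all `S u` have the same area as `S 1`: `S 1` is the preimage of `S u`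
  under `v ↦ u v` (`kc_rot`, `‖u v‖ = ‖v‖`, `volume_rot`). So `π (ρ² - r²) ≤ m |S 1|` (`measureReal_biUnion_finset_le`, `card_Um`).
* `cone_null`: if `u ≠ u'` are in `Um m`, `t u`, `t u'` extreme points (`Ext C t`), then the translated cones `t u + Kc m u` and
  `t u' + Kc m u'` meet in a null set. Proof. Let `p = t u + v = t u' + v'`, `v ∈ Kc m u`, `v' ∈ Kc m u'`. `Ext` gives
  `dt (t u') u ≤ dt (t u) u` and `dt (t u) u' ≤ dt (t u') u'`, so `dt (t u' - t u) (u' - u) ≥ 0`; `t u' - t u = v - v'`;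
  `dt v (u' - u) ≤ 0` and `dt v' (u' - u) ≥ 0`, so `dt v (u' - u) = 0`, i.e. `p` lies on the line `{p | dt (p - t u) (u' - u) = 0}`
  which is a null set because `u' - u ≠ 0` (`Measure.addHaar_affineSubspace`, or `volume_slices` after writing it as a graph, or
  `Measure.addHaar_submodule` for the kernel of the nonzero functional, plus translation).
-/

namespace Pool.Agent.H77.KN

open MeasureTheory Finset

private theorem SectA_cont (u : ℂ) : Continuous fun v : ℂ => dt v u := by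
  unfold dt
  exact (Complex.continuous_re.mul continuous_const).add (Complex.continuous_im.mul continuous_const)

theorem meas_cone (m : ℕ) (u : ℂ) : MeasurableSet (Kc m u) := by
  have h : Kc m u = ⋂ u' ∈ Um m, {v : ℂ | dt v u' ≤ dt v u} := by
    ext v
    simp [Kc]
  rw [h]
  exact Finset.measurableSet_biInter _ fun u' _ =>
    (isClosed_le (SectA_cont u') (SectA_cont u)).measurableSet

theorem meas_sect (m : ℕ) (u : ℂ) (r ρ : ℝ) : MeasurableSet {v : ℂ | v ∈ Kc m u ∧ r ≤ ‖v‖ ∧ ‖v‖ < ρ} := by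
  have h1 : MeasurableSet {v : ℂ | r ≤ ‖v‖} := (isClosed_le continuous_const continuous_norm).measurableSet
  have h2 : MeasurableSet {v : ℂ | ‖v‖ < ρ} := (isOpen_lt continuous_norm continuous_const).measurableSet
  exact (meas_cone m u).inter (h1.inter h2)

theorem sect_area {m : ℕ} (hm : 0 < m) {u : ℂ} (hu : u ∈ Um m) {r ρ : ℝ} (hr : 0 ≤ r) (hρ : 0 ≤ ρ) :
    Real.pi / m * (ρ ^ 2 - r ^ 2) ≤ volume.real {v : ℂ | v ∈ Kc m u ∧ r ≤ ‖v‖ ∧ ‖v‖ < ρ} := by
  rcases le_or_gt ρ r with h | h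
  · refine le_trans ?_ measureReal_nonneg
    apply mul_nonpos_of_nonneg_of_nonpos
    · positivity
    · nlinarith
  set S : ℂ → Set ℂ := fun u => {v : ℂ | v ∈ Kc m u ∧ r ≤ ‖v‖ ∧ ‖v‖ < ρ} with hS
  have hrot : ∀ w ∈ Um m, volume (S w) = volume (S 1) := by
    intro w hw
    have hw1 := norm_Um hm hw
    rw [← volume_rot (S w) w hw1]
    congr 1
    ext v
    simp only [hS, Set.mem_preimage, Set.mem_setOf_eq, norm_mul, hw1, one_mul]
    rw [← kc_rot hm hw v]
  have hrot' : ∀ w ∈ Um m, volume.real (S w) = volume.real (S u) := by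
    intro w hw
    unfold Measure.real
    rw [hrot w hw, hrot u hu]
  have hcov : Metric.ball (0:ℂ) ρ ⊆ Metric.ball (0:ℂ) r ∪ ⋃ w ∈ Um m, S w := by
    intro v hv
    rw [mem_ball_zero_iff] at hv
    rcases lt_or_ge ‖v‖ r with h1 | h1
    · left; rwa [mem_ball_zero_iff]
    · right
      obtain ⟨w, hw, hvw⟩ := exists_cone hm v
      exact Set.mem_biUnion hw ⟨hvw, h1, hv⟩
  have hsub : ∀ w, S w ⊆ Metric.ball (0:ℂ) ρ := by
    intro w v hv
    rw [mem_ball_zero_iff]
    exact hv.2.2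
  have hball : volume (Metric.ball (0:ℂ) ρ) ≠ ⊤ := measure_ball_lt_top.ne
  have hfin : volume (Metric.ball (0:ℂ) r ∪ ⋃ w ∈ Um m, S w) ≠ ⊤ := by
    refine ne_top_of_le_ne_top hball (measure_mono ?_)
    apply Set.union_subset (Metric.ball_subset_ball h.le)
    exact Set.iUnion₂_subset fun w _ => hsub w
  have h1 := measureReal_mono hcov hfin
  have h2 : volume.real (Metric.ball (0:ℂ) r ∪ ⋃ w ∈ Um m, S w) ≤
      volume.real (Metric.ball (0:ℂ) r) + volume.real (⋃ w ∈ Um m, S w) := measureReal_union_le _ _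
  have h3 : volume.real (⋃ w ∈ Um m, S w) ≤ ∑ w ∈ Um m, volume.real (S w) :=
    measureReal_biUnion_finset_le _ _
  have h4 : ∑ w ∈ Um m, volume.real (S w) = m * volume.real (S u) := by
    rw [Finset.sum_congr rfl hrot', Finset.sum_const, card_Um hm, nsmul_eq_mul]
  rw [real_ball 0 hρ] at h1
  rw [real_ball 0 hr] at h2
  have hm' : (0:ℝ) < m := by exact_mod_cast hm
  have h5 : Real.pi * (ρ ^ 2 - r ^ 2) ≤ m * volume.real (S u) := by
    rw [← h4]; linarith
  calc Real.pi / m * (ρ ^ 2 - r ^ 2) = Real.pi * (ρ ^ 2 - r ^ 2) / m := by ring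
    _ ≤ volume.real (S u) := by
        rw [div_le_iff₀ hm']; linarith

end Pool.Agent.H77.KN
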