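import Pool.Agent.H77.KN.Fub
import Pool.Agent.H77.KN.DirB

/-!
# Row SectB (part of Sect) (MP_72793b): sectors

* `meas_sect`: the set `{v | v ∈ Kc m u ∧ r ≤ ‖v‖ ∧ ‖v‖ < ρ}` is measurable (`Kc m u` is closed: finite intersection of closed half planes).
* `sect_area`: for `u ∈ Um m` its area is `≥ (π/m)(ρ² - r²)`, `0 ≤ r`, `0 ≤ ρ`.
  Proof. If `ρ ≤ r` the right side is `≤ 0`. Else let `S u` be the set. The annulus `B(0,ρ) \ B(0,r)` (area `π ρ² - π r²` by `real_ball`) is
  contained in the union of the `S u`, `u ∈ Um m` (`exists_cone`), and all `S u` have the same area as `S 1`: `S 1` is the preimage of `S u`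
  under `v ↦ u v` (`kc_rot`, `‖u v‖ = ‖v‖`, `volume_rot`). So `π (ρ² - r²) ≤ m |S 1|` (`measureReal_biUnion_finset_le`, `card_Um`).
* `cone_null`: if `u ≠ u'` are in `Um m`, `t u`, `t u'` extreme points (`Ext C t`), then the translated cones `t u + Kc m u` and
  `t u' + Kc m u'` meet in a null set. Proof. Let `p = t u + v = t u' + v'`, `v ∈ Kc m u`, `v' ∈ Kc m u'`. `Ext` gives
  `dt (t u') u ≤ dt (t u) u` and `dt (t u) u' ≤ dt (t u') u'`, so `dt (t u' - t u) (u' - u) ≥ 0`; `t u' - t u = v - v'`;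
  `dt v (u' - u) ≤ 0` and `dt v' (u' - u) ≥ 0`, so `dt v (u' - u) = 0`, i.e. `p` lies on the line `{p | dt (p - t u) (u' - u) = 0}`
  which is a null set because `u' - u ≠ 0` (`Measure.addHaar_affineSubspace`, or `volume_slices` after writing it as a graph, or
  `Measure.addHaar_submodule` for the kernel of the nonzero functional, plus translation).
-/

namespace Pool.Agent.H77.KN

open MeasureTheory Finset

lemma SectB_line_null (a w : ℂ) (hw : w ≠ 0) :
    volume {p : ℂ | dt (p - a) w = 0} = 0 := by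
  let L : ℂ →ₗ[ℝ] ℝ :=
    { toFun := fun v => dt v w
      map_add' := fun x y => dt_add x y w
      map_smul' := fun c x => by
        simp only [dt, Complex.real_smul, Complex.mul_re, Complex.mul_im, Complex.ofReal_re,
          Complex.ofReal_im, RingHom.id_apply, smul_eq_mul]
        ring }
  have hL : LinearMap.ker L ≠ ⊤ := by
    intro h
    have h1 : w ∈ LinearMap.ker L := by rw [h]; trivial
    have h2 : dt w w = 0 := h1
    have h3 : Complex.normSq w = 0 := by
      rw [Complex.normSq_apply]; exact h2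
    exact hw (Complex.normSq_eq_zero.mp h3)
  have h0 : volume ((LinearMap.ker L : Submodule ℝ ℂ) : Set ℂ) = 0 :=
    Measure.addHaar_submodule volume _ hL
  have h1 : {p : ℂ | dt (p - a) w = 0} =
      (fun z : ℂ => z + (-a)) ⁻¹' ((LinearMap.ker L : Submodule ℝ ℂ) : Set ℂ) := by
    ext p
    change dt (p - a) w = 0 ↔ dt (p + -a) w = 0
    rw [sub_eq_add_neg]
  rw [h1, measure_preimage_add_right, h0]

theorem cone_null {m : ℕ} {C : Finset ℂ} {t : ℂ → ℂ} (ht : Ext C t) {u u' : ℂ} (hu : u ∈ Um m)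
    (hu' : u' ∈ Um m) (hne : u ≠ u') :
    volume ({p : ℂ | p - t u ∈ Kc m u} ∩ {p : ℂ | p - t u' ∈ Kc m u'}) = 0 := by
  refine measure_mono_null ?_ (SectB_line_null (t u) (u' - u) (sub_ne_zero.mpr hne.symm))
  rintro p ⟨h1, h2⟩
  have a1 : dt (p - t u) u' ≤ dt (p - t u) u := h1 u' hu'
  have a2 : dt (p - t u') u ≤ dt (p - t u') u' := h2 u hu
  have b1 : dt (t u') u ≤ dt (t u) u := (ht u).2 _ (ht u').1
  have b2 : dt (t u) u' ≤ dt (t u') u' := (ht u').2 _ (ht u).1
  change dt (p - t u) (u' - u) = 0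
  simp only [dt_sub, dt_sub_right] at *
  linarith

end Pool.Agent.H77.KN
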