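import Pool.Agent.H77.KN.BM

/-!
# Row VolA (part of Vol) (MP_72793b): lower bound for the area of `Vp C F`

Write `dd = d / cos (π/m)`, `w = |W|`. Let `A0 = {p | ∃ q ∈ W, dist p q < d - 2 dl}` and for `u ∈ 𝒢` let
`Q u = {p | p - t u ∈ Kc m u ∧ dd ≤ ‖p - t u‖ ∧ ‖p - t u‖ < R - dl}` (a translate of the sector of `Sect.lean`).
(1) `A0 ⊆ Vp C F`: `q ∈ W ⊆ nb C dl` gives `c ∈ C` with `dist p c < d - dl < 2`, and for `f ∈ F`: `dist p f ≥ dist c f - dist p c > dl`.
(2) `Q u ⊆ Vp C F`: `dist p (t u) < R ≤ 2`; if `f ∈ F` had `dist p f ≤ dl`, then `dist f (t u) < R` and `p = t u + v` with `v ∈ Kc m u`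
    contradict `hfree`.
(3) `A0 ∩ Q u = ∅`: for `p ∈ Q u`, `c ∈ C`: `dist p c ≥ dt (p - c) u` (`dt_le`) `= dt (t u - c) u + dt (p - t u) u ≥ 0 + cos (π/m) ‖p - t u‖ ≥ d`
    (`cone_cos`), while `p ∈ A0` has some `c ∈ C` with `dist p c < d - dl`.
(4) `Q u ∩ Q u'` is null for `u ≠ u'` (`cone_null`).
(5) `|A0| ≥ (√w + √π (d - 2 dl))²` (`bm_disc`), `|Q u| ≥ (π/m) ((R-dl)² - dd²)` (`sect_area`, `volume_shift`; if `R - dl < 0` impossible since
    `R ≥ d ≥ 1/20`).
(6) `Vp C F` is bounded, hence of finite measure; sum up: `measure_biUnion_finset₀`-type statement for the a.e. disjoint family, or induction on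
    `𝒢` with `measureReal_union_add_inter`.
-/

namespace Pool.Agent.H77.KN

open MeasureTheory Finset

theorem vp_bounded (C F : Finset ℂ) : Bornology.IsBounded (Vp C F) := by
  have h : Vp C F ⊆ ⋃ c ∈ C, Metric.ball c 2 := by
    intro p hp
    obtain ⟨c, hc, h2⟩ := hp.1
    simp only [Set.mem_iUnion]
    exact ⟨c, hc, h2⟩
  refine Bornology.IsBounded.subset ?_ h
  exact (Bornology.isBounded_biUnion_finset C).2 fun c _ => Metric.isBounded_ball

lemma VolA_open (C F : Finset ℂ) : IsOpen (Vp C F) := by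
  have h : Vp C F = (⋃ c ∈ C, {p : ℂ | dist p c < 2}) ∩ (⋂ f ∈ F, {p : ℂ | dl < dist p f}) := by
    ext p
    simp [Vp]
  rw [h]
  refine IsOpen.inter ?_ ?_
  · exact isOpen_biUnion fun c _ => isOpen_lt (by fun_prop) continuous_const
  · exact isOpen_biInter_finset fun f _ => isOpen_lt continuous_const (by fun_prop)

theorem vp_meas (C F : Finset ℂ) : MeasurableSet (Vp C F) := (VolA_open C F).measurableSet

/-- the case `2 ≤ d` (no cone needed): `(√w + √π (2 - 2 dl))² ≤ |Vp|`; same proof as (1), (5) with `A0 = {p | ∃ q ∈ W, dist p q < 2 - 2 dl}` -/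
theorem vol_lower_far {C F : Finset ℂ} {W : Set ℂ}
    (hWm : MeasurableSet W) (hWb : Bornology.IsBounded W) (hW : W ⊆ nb C dl) (hw : 0 < volume.real W)
    (hmin : ∀ c ∈ C, ∀ f ∈ F, 2 ≤ dist c f) :
    (√(volume.real W) + √Real.pi * (2 - 2 * dl)) ^ 2 ≤ volume.real (Vp C F) := by
  have hdl : (0 : ℝ) < 2 - 2 * dl := by unfold dl; norm_num
  refine (bm_disc hWm hWb hdl hw).trans ?_
  refine measureReal_mono ?_ (vp_bounded C F).measure_lt_top.ne
  rintro p ⟨q, hq, hpq⟩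
  obtain ⟨c, hc, hqc⟩ := hW hq
  have h1 : dist p c < 2 - dl := by
    have := dist_triangle p q c
    linarith
  refine ⟨⟨c, hc, ?_⟩, fun f hf => ?_⟩
  · have := dl_pos
    linarith
  · have h2 := hmin c hc f hf
    have h3 := dist_triangle c p f
    rw [dist_comm c p] at h3
    linarith

end Pool.Agent.H77.KN
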