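import Pool.Agent.H77.KN.VolA
import Pool.Agent.H77.KN.SectA
import Pool.Agent.H77.KN.SectB

/-!
# Row VolB (part of Vol) (MP_72793b): lower bound for the area of `Vp C F`

Write `dd = d / cos (π/m)`, `w = |W|`. Let `A0 = {p | ∃ q ∈ W, dist p q < d - 2 dl}` and for `u ∈ 𝒢` let
`Q u = {p | p - t u ∈ Kc m u ∧ dd ≤ ‖p - t u‖ ∧ ‖p - t u‖ < R - dl}` (a translate of the sector of `Sect.lean`).
(1) `A0 ⊆ Vp C F`: `q ∈ W ⊆ nb C dl` gives `c ∈ C` with `dist p c < d - dl < 2`, and for `f ∈ F`: `dist p f ≥ dist c f - dist p c > dl`.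
(2) `Q u ⊆ Vp C F`: `dist p (t u) < R ≤ 2`; if `f ∈ F` had `dist p f ≤ dl`, then `dist f (t u) < R` and `p = t u + v` with `v ∈ Kc m u`
    contradict `hfree`.
(3) `A0 ∩ Q u = ∅`: for `p ∈ Q u`, `c ∈ C`: `dist p c ≥ dt (p - c) u` (`dt_le`) `= dt (t u - c) u + dt (p - t u) u ≥ 0 + cos (π/m) ‖p - t u‖ ≥ d`
    (`cone_cos`), while `p ∈ A0` has some `c ∈ C` with `dist p c < d - dl`.
(4) `Q u ∩ Q u'` is null for `u ≠ u'` (`cone_null`).
(5) `|A0| ≥ (√w + √π (d - 2 dl))²` (`bm_disc`), `|Q u| ≥ (π/m) ((R-dl)² - dd²)` (`sect_area`, `volume_shift`; if `R - dl < 0` impossible since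
    `R ≥ d ≥ 1/20`).
(6) `Vp C F` is bounded, hence of finite measure; sum up: `measure_biUnion_finset₀`-type statement for the a.e. disjoint family, or induction on
    `𝒢` with `measureReal_union_add_inter`.
-/

namespace Pool.Agent.H77.KN

open MeasureTheory Finset

/-- translated sector -/
def VolB_Q (m : ℕ) (t : ℂ → ℂ) (r ρ : ℝ) (u : ℂ) : Set ℂ :=
  {p | p - t u ∈ Kc m u ∧ r ≤ ‖p - t u‖ ∧ ‖p - t u‖ < ρ}

theorem VolB_Q_eq (m : ℕ) (t : ℂ → ℂ) (r ρ : ℝ) (u : ℂ) :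
    VolB_Q m t r ρ u = (fun z : ℂ => z + (-(t u))) ⁻¹' {v : ℂ | v ∈ Kc m u ∧ r ≤ ‖v‖ ∧ ‖v‖ < ρ} := by
  ext p
  simp only [VolB_Q, Set.mem_setOf_eq, Set.mem_preimage, ← sub_eq_add_neg]

theorem VolB_Q_meas (m : ℕ) (t : ℂ → ℂ) (r ρ : ℝ) (u : ℂ) : MeasurableSet (VolB_Q m t r ρ u) := by
  rw [VolB_Q_eq]
  exact (measurable_id.add_const _) (meas_sect m u r ρ)

theorem VolB_Q_area {m : ℕ} (hm : 0 < m) (t : ℂ → ℂ) {u : ℂ} (hu : u ∈ Um m) {r ρ : ℝ}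
    (hr : 0 ≤ r) (hρ : 0 ≤ ρ) :
    Real.pi / m * (ρ ^ 2 - r ^ 2) ≤ volume.real (VolB_Q m t r ρ u) := by
  have h := sect_area hm hu hr hρ
  rw [VolB_Q_eq, measureReal_def, volume_shift]
  exact h

theorem VolB_sum (V A : Set ℂ) (𝒢 : Finset ℂ) (Q : ℂ → Set ℂ)
    (hA : MeasurableSet A) (hQ : ∀ u ∈ 𝒢, MeasurableSet (Q u)) (hV : volume V ≠ ⊤)
    (hAV : A ⊆ V) (hQV : ∀ u ∈ 𝒢, Q u ⊆ V) (hAQ : ∀ u ∈ 𝒢, Disjoint A (Q u))
    (hQQ : ∀ u ∈ 𝒢, ∀ u' ∈ 𝒢, u ≠ u' → volume (Q u ∩ Q u') = 0) :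
    volume.real A + ∑ u ∈ 𝒢, volume.real (Q u) ≤ volume.real V := by
  have h1 : volume (⋃ u ∈ 𝒢, Q u) = ∑ u ∈ 𝒢, volume (Q u) :=
    measure_biUnion_finset₀ (fun u hu u' hu' hne => hQQ u hu u' hu' hne)
      (fun u hu => (hQ u hu).nullMeasurableSet)
  have h2 : volume (A ∪ ⋃ u ∈ 𝒢, Q u) = volume A + volume (⋃ u ∈ 𝒢, Q u) := by
    refine measure_union' ?_ hA
    rw [Set.disjoint_iUnion₂_right]
    exact hAQ
  have h3 : A ∪ (⋃ u ∈ 𝒢, Q u) ⊆ V :=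
    Set.union_subset hAV (Set.iUnion₂_subset hQV)
  have h4 := measure_mono (μ := volume) h3
  rw [h2, h1] at h4
  have hA' : volume A ≠ ⊤ := ne_top_of_le_ne_top hV (measure_mono hAV)
  have hQ' : ∀ u ∈ 𝒢, volume (Q u) ≠ ⊤ := fun u hu =>
    ne_top_of_le_ne_top hV (measure_mono (hQV u hu))
  have h5 : ∑ u ∈ 𝒢, volume (Q u) ≠ ⊤ := ENNReal.sum_ne_top.2 hQ'
  have h6 := ENNReal.toReal_mono hV h4
  rw [ENNReal.toReal_add hA' h5, ENNReal.toReal_sum hQ'] at h6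
  exact h6

theorem VolB_cos {m : ℕ} (hm : 3 ≤ m) : 0 < Real.cos (Real.pi / m) := by
  have hm' : (3 : ℝ) ≤ m := by exact_mod_cast hm
  have h1 : Real.pi / m ≤ Real.pi / 3 :=
    div_le_div_of_nonneg_left Real.pi_pos.le (by norm_num) hm'
  have h2 : 0 ≤ Real.pi / m := by positivity
  apply Real.cos_pos_of_mem_Ioo
  constructor <;> linarith [Real.pi_pos]

theorem vol_lower {C F : Finset ℂ} {m : ℕ} (hm : 3 ≤ m) {t : ℂ → ℂ} (ht : Ext C t) {W : Set ℂ}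
    (hWm : MeasurableSet W) (hWb : Bornology.IsBounded W) (hW : W ⊆ nb C dl) (hw : 0 < volume.real W) {d : ℝ}
    (hd : 1 / 20 ≤ d) (hd2 : d < 2) (hmin : ∀ c ∈ C, ∀ f ∈ F, d ≤ dist c f) {𝒢 : Finset ℂ} (h𝒢 : 𝒢 ⊆ Um m)
    {R : ℝ} (hdR : d ≤ R) (hR : R ≤ 2)
    (hfree : ∀ u ∈ 𝒢, ∀ f ∈ F, dist f (t u) < R → ∀ v ∈ Kc m u, dl < dist f (t u + v)) :
    (√(volume.real W) + √Real.pi * (d - 2 * dl)) ^ 2
      + 𝒢.card * (Real.pi / m * ((R - dl) ^ 2 - (d / Real.cos (Real.pi / m)) ^ 2))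
      ≤ volume.real (Vp C F) := by
  have hm0 : 0 < m := by omega
  have hcos := VolB_cos hm
  have hdl : dl = 2 / 10 ^ 9 := rfl
  have hdl0 := dl_pos
  have hdl1 : dl < 1 / 1000 := by rw [hdl]; norm_num
  set dd := d / Real.cos (Real.pi / m) with hdd
  have hdd0 : 0 ≤ dd := by rw [hdd]; exact div_nonneg (by linarith) hcos.le
  have hcdd : Real.cos (Real.pi / m) * dd = d := by rw [hdd]; field_simp
  set A0 : Set ℂ := {p | ∃ q ∈ W, dist p q < d - 2 * dl} with hA0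
  have hA0m : MeasurableSet A0 := by
    have h1 : A0 = ⋃ q ∈ W, Metric.ball q (d - 2 * dl) := by
      ext p
      simp only [hA0, Set.mem_setOf_eq, Set.mem_iUnion, Metric.mem_ball, exists_prop]
    rw [h1]
    exact (isOpen_biUnion fun q _ => Metric.isOpen_ball).measurableSet
  have hnear : ∀ p ∈ A0, ∃ c ∈ C, dist p c < d - dl := by
    rintro p ⟨q, hq, hpq⟩
    obtain ⟨c, hc, hqc⟩ := hW hq
    refine ⟨c, hc, ?_⟩
    have := dist_triangle p q c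
    linarith
  have hAV : A0 ⊆ Vp C F := by
    intro p hp
    obtain ⟨c, hc, hpc⟩ := hnear p hp
    refine ⟨⟨c, hc, by linarith⟩, fun f hf => ?_⟩
    have h1 := hmin c hc f hf
    have h2 := dist_triangle c p f
    rw [dist_comm c p] at h2
    linarith
  have hQV : ∀ u ∈ 𝒢, VolB_Q m t dd (R - dl) u ⊆ Vp C F := by
    rintro u hu p ⟨hp1, hp2, hp3⟩
    have hpd : dist p (t u) = ‖p - t u‖ := dist_eq_norm _ _
    refine ⟨⟨t u, (ht u).1, by rw [hpd]; linarith⟩, fun f hf => ?_⟩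
    by_contra hcon
    push Not at hcon
    have h1 : dist f (t u) < R := by
      have h2 := dist_triangle f p (t u)
      rw [dist_comm f p, hpd] at h2
      linarith
    have h3 := hfree u hu f hf h1 (p - t u) hp1
    rw [add_sub_cancel, dist_comm] at h3
    linarith
  have hAQ : ∀ u ∈ 𝒢, Disjoint A0 (VolB_Q m t dd (R - dl) u) := by
    intro u hu
    rw [Set.disjoint_left]
    rintro p hpA ⟨hp1, hp2, hp3⟩
    obtain ⟨c, hc, hpc⟩ := hnear p hpA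
    have hu1 : ‖u‖ = 1 := norm_Um hm0 (h𝒢 hu)
    have h1 := dt_le (p - c) u hu1
    have h2 : dt (p - c) u = dt (p - t u) u + (dt (t u) u - dt c u) := by
      rw [dt_sub, dt_sub]
      ring
    have h3 := (ht u).2 c hc
    have h4 := cone_cos hm0 hp1
    have h5 : Real.cos (Real.pi / m) * dd ≤ Real.cos (Real.pi / m) * ‖p - t u‖ :=
      mul_le_mul_of_nonneg_left hp2 hcos.le
    rw [dist_eq_norm] at hpc
    linarith
  have hQQ : ∀ u ∈ 𝒢, ∀ u' ∈ 𝒢, u ≠ u' →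
      volume (VolB_Q m t dd (R - dl) u ∩ VolB_Q m t dd (R - dl) u') = 0 := by
    intro u hu u' hu' hne
    refine measure_mono_null ?_ (cone_null ht (h𝒢 hu) (h𝒢 hu') hne)
    rintro p ⟨hp, hp'⟩
    exact ⟨hp.1, hp'.1⟩
  have hVfin : volume (Vp C F) ≠ ⊤ := (vp_bounded C F).measure_lt_top.ne
  have hsum := VolB_sum (Vp C F) A0 𝒢 (VolB_Q m t dd (R - dl)) hA0m
    (fun u _ => VolB_Q_meas m t dd (R - dl) u) hVfin hAV hQV hAQ hQQ
  have hbm := bm_disc hWm hWb (r := d - 2 * dl) (by linarith) hw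
  have hcard : (𝒢.card : ℝ) * (Real.pi / m * ((R - dl) ^ 2 - dd ^ 2)) ≤
      ∑ u ∈ 𝒢, volume.real (VolB_Q m t dd (R - dl) u) := by
    have h1 := Finset.card_nsmul_le_sum 𝒢 (fun u => volume.real (VolB_Q m t dd (R - dl) u))
      (Real.pi / m * ((R - dl) ^ 2 - dd ^ 2))
      (fun u hu => VolB_Q_area hm0 t (h𝒢 hu) hdd0 (by linarith))
    rwa [nsmul_eq_mul] at h1
  linarith

end Pool.Agent.H77.KN
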