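import Pool.Agent.H77.KN.Ff

/-!
# Row WtA (part of Wt) (MP_72793b): from tile counts to the costs of regions

`cnt P ι T` = number of points of `P` assigned to a tile of `T`. `N_t = cnt P ι {t}`.
* `cnt_eq_sum`: `cnt P ι T = ∑ t ∈ T, (P.filter (ι · = t)).card` (`Finset.card_eq_sum_card_fiberwise`).
* `cnt_union`: for disjoint `T, T'`.
* `cost_ge`: per tile `s² h(x) ≥ s² (x log g - g + 1)`, `x = N/(s² k)`, because `x log (x/g) - x + g ≥ 0` for `x ≥ 0`, `g > 0`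
  (`x = 0` clear; else `log (g/x) ≤ g/x - 1`), and for `g = 0` we have `x = 0`, `h 0 = 1` (`Real.log 0 = 0`, both sides equal `s²`);
  `s² x = N/k`. Sum over `J`.
* `region_cost`: let `w = s² #TC`, `x = s² #TX`, `α = min x (w/2)`, `y₁ = s² #T1`, `y₂ = s² #T2` (all sets nonempty since their counts are `≥ k > 0`).
  `lX = max 1 (1/α)`, `lW = max 1 (1/(w-α))`, `l₁ = max 1 (1/y₁)`, `l₂ = max 1 (1/y₂)`; so `lX ≥ lW ≥ 1` (as `α ≤ w - α`), `l₁, l₂ ≥ 1`.
  Weights: `g t = 0` on `E`, `lX` on `TX`, `lW` on `TC \ TX`, `max (if t ∈ T1 then l₁ else 1) (if t ∈ T2 then l₂ else 1)` elsewhere.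
  (a) `∑ N_t log (g t) ≥ k (log lX + log lW + log l₁ + log l₂)`:
      on `TC`: `cnt TX * log lX + (cnt TC - cnt TX) log lW ≥ k log lX + k log lW` because `cnt TX ≥ k`, `cnt TC ≥ 2k`, `log lX ≥ log lW ≥ 0`;
      on `T1 ∪ T2`: say `l₁ ≥ l₂` (symmetric otherwise): the sum is `≥ cnt T1 * log l₁ + cnt (T2 \ T1) * log l₂` and
      `cnt T1 + cnt (T2 \ T1) = cnt (T1 ∪ T2) ≥ 2k`, `cnt T1 ≥ k`: same computation.
  (b) `∑_{t ∈ J} s² (g t - 1) ≤ (lX - 1) α + (lW - 1)(w - α) + (l₁ - 1) y₁ + (l₂ - 1) y₂ - s² #E`: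
      on `TC` it is `(lX-1) x + (lW-1)(w-x)`; if `x ≤ w/2` then `α = x`; if `x > w/2` then `α = w/2 = w - α`, `lX = lW` and both are `(lX-1) w`.
      On `T1 ∪ T2`: `max a b - 1 ≤ (a - 1) + (b - 1)` for `a, b ≥ 1`.
  (c) `log (max 1 (1/A)) - (max 1 (1/A) - 1) A = ff A` for `A > 0`.
  So `cost ≥ ff α + ff (w - α) + ff y₁ + ff y₂ + s² #E`.
* `region_cost_one`: the same without `T2`. (Hint: do a general lemma with weights for an optional second set, or apply the same proof with `T2 = ∅`, `l₂ = 1`.)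
* `region_cost_F`: only `T1`; `region_cost_E`: only `E`.
-/

namespace Pool.Agent.H77.KN

open Finset

/-- number of points assigned to a tile of `T` -/
noncomputable def cnt (P : Finset ℂ) (ι : ℂ → ℤ × ℤ) (T : Finset (ℤ × ℤ)) : ℕ := (P.filter (fun z => ι z ∈ T)).card

theorem cnt_eq_sum (P : Finset ℂ) (ι : ℂ → ℤ × ℤ) (T : Finset (ℤ × ℤ)) :
    cnt P ι T = ∑ t ∈ T, (P.filter (fun z => ι z = t)).card := by
  unfold cnt
  have h1 := Finset.card_eq_sum_card_fiberwise (f := ι) (s := P.filter (fun z => ι z ∈ T)) (t := T)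
    (fun z hz => (Finset.mem_filter.1 hz).2)
  rw [h1]
  apply Finset.sum_congr rfl
  intro t ht
  congr 1
  ext z
  simp only [Finset.mem_filter]
  constructor
  · rintro ⟨⟨h2, -⟩, h3⟩
    exact ⟨h2, h3⟩
  · rintro ⟨h2, h3⟩
    exact ⟨⟨h2, h3 ▸ ht⟩, h3⟩

theorem WtA_pt {x g : ℝ} (hx : 0 ≤ x) (hg : 0 ≤ g) (hz : g = 0 → x = 0) :
    x * Real.log g - g ≤ x * Real.log x - x := by
  rcases hg.eq_or_lt with h0 | hg
  · rw [hz h0.symm, ← h0]
  · rcases hx.eq_or_lt with h1 | hx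
    · rw [← h1]
      simp only [zero_mul]
      linarith
    · have h2 := Real.log_le_sub_one_of_pos (div_pos hg hx)
      rw [Real.log_div hg.ne' hx.ne'] at h2
      have h3 := mul_le_mul_of_nonneg_left h2 hx.le
      have h4 : x * (g / x - 1) = g - x := by
        field_simp
      nlinarith

theorem cost_ge {s : ℝ} {k : ℕ} (hs : 0 < s) (hk : 0 < k) (P : Finset ℂ) (ι : ℂ → ℤ × ℤ) (J : Finset (ℤ × ℤ))
    (g : ℤ × ℤ → ℝ) (hg : ∀ t ∈ J, 0 ≤ g t) (hz : ∀ t ∈ J, g t = 0 → (P.filter (fun z => ι z = t)).card = 0) :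
    (∑ t ∈ J, ((P.filter (fun z => ι z = t)).card : ℝ) * Real.log (g t)) / k - ∑ t ∈ J, s ^ 2 * (g t - 1)
      ≤ cost s k P ι J := by
  unfold cost
  rw [Finset.sum_div, ← Finset.sum_sub_distrib]
  apply Finset.sum_le_sum
  intro t ht
  have hk' : (0 : ℝ) < k := by exact_mod_cast hk
  have hs2 : 0 < s ^ 2 := by positivity
  set N : ℝ := ((P.filter (fun z => ι z = t)).card : ℝ) with hN
  have hN0 : 0 ≤ N := Nat.cast_nonneg _
  have h1 := WtA_pt (x := N / (s ^ 2 * k)) (g := g t) (by positivity) (hg t ht) (fun h => by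
    rw [hN, hz t ht h]
    simp)
  have h2 : N = s ^ 2 * (N / (s ^ 2 * k)) * k := by
    field_simp
  have h3 : N * Real.log (g t) / k = s ^ 2 * ((N / (s ^ 2 * k)) * Real.log (g t)) := by
    field_simp
  rw [h3]
  unfold hh
  have h4 := mul_le_mul_of_nonneg_left h1 hs2.le
  nlinarith

end Pool.Agent.H77.KN
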